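import Pool.Agent.H604.OD.Stm
import Pool.Agent.H527.ME.Gen
import Pool.Agent.H527.ME.Typm

/-!
# Task TCLS of project OD: the typical sums in residue classes (helper71)

Adapted from `H527/ME/Gen.lean` (helper79) and `H527/ME/Typm.lean` (helper665).
-/

set_option autoImplicit false

namespace Pool.Agent.H604.OD

open Polynomial Finset
open scoped Classical
open Pool.Agent.H985.Chow (mob)
open Pool.Agent.H985.KP (mobg)
open Pool.Agent.H694.Typ (Mn Irn wt mem_Mn card_Mn mem_Irn card_dvd_le q_ge wt_add)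
open Pool.Agent.H251.SP (S_tii)
open Pool.Agent.H527.ME (om S_pw S_big dv TII typm_mob_le typm_mobg_one)
open Pool.Agent.H527.ME.Gen (sum_dvd sum_mul_eq geo_le sq_sum)

namespace Cls

variable {K : Type} [Field K] [Fintype K]

/-- one degree, two weights -/
theorem step_i (h2 : S_big) {n d z w i : ℕ} {T Δ : ℝ} {φ f₁ f₂ c : K[X] → ℝ} (hi : i ∈ Icc z w)
    (hdw : d + w ≤ n) (hT : 1 ≤ T) (hΔ : 0 ≤ Δ) (hφ : ∀ B, |φ B| ≤ 1) (hf₁ : ∀ k, |f₁ k| ≤ 1)
    (hf₂ : ∀ k, |f₂ k| ≤ 1) (hc : ∀ M, |c M| ≤ 1) (ht : TII n i Δ φ) :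
    |∑ M ∈ Mn K d, c M * ∑ k ∈ Mn K (n - d),
      (∑ P ∈ (Irn K i).filter (fun P => P ∣ k),
        f₁ P * f₂ (k / P) / (1 + (om z w (k / P) : ℝ))) * φ (M * k)| ≤
      (T * Δ + (d + 1) / T) * (Fintype.card K : ℝ) ^ n := by
  rw [mem_Icc] at hi
  set h : K[X] → ℝ := fun k => f₂ k / (1 + (om z w k : ℝ)) with hh
  have hh1 : ∀ k, |h k| ≤ 1 := by
    intro k
    have h0 : (0 : ℝ) ≤ (om z w k : ℝ) := Nat.cast_nonneg _
    rw [hh]
    simp only
    rw [abs_div, abs_of_pos (by linarith : (0 : ℝ) < 1 + (om z w k : ℝ)),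
      div_le_one (by linarith)]
    linarith [hf₂ k]
  set b : K[X] → ℝ := fun B => ∑ M ∈ (Mn K d).filter (fun M => M ∣ B), c M * h (B / M) with hb
  have hb1 : ∀ B, |b B| ≤ dv d B := by
    intro B
    rw [hb]
    simp only
    refine (abs_sum_le_sum_abs _ _).trans ?_
    refine (sum_le_card_nsmul _ _ 1 fun M _ => ?_).trans ?_
    · rw [abs_mul]
      exact mul_le_one₀ (hc M) (abs_nonneg _) (hh1 _)
    · rw [nsmul_eq_mul, mul_one]
      exact le_refl _
  have key : ∑ M ∈ Mn K d, c M * ∑ k ∈ Mn K (n - d),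
      (∑ P ∈ (Irn K i).filter (fun P => P ∣ k),
        f₁ P * f₂ (k / P) / (1 + (om z w (k / P) : ℝ))) * φ (M * k) =
      ∑ p ∈ Irn K i, ∑ B ∈ Mn K (n - i), f₁ p * b B * φ (p * B) := by
    have e1 : n - d = i + (n - d - i) := by omega
    have e2 : n - i = d + (n - d - i) := by omega
    have h3 : ∀ M : K[X], ∑ k ∈ Mn K (n - d),
        (∑ P ∈ (Irn K i).filter (fun P => P ∣ k),
          f₁ P * f₂ (k / P) / (1 + (om z w (k / P) : ℝ))) * φ (M * k) =
        ∑ P ∈ Irn K i, ∑ k ∈ Mn K (n - d - i), f₁ P * h k * φ (P * (M * k)) := by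
      intro M
      simp_rw [Finset.sum_mul, Finset.sum_filter]
      rw [Finset.sum_comm]
      refine sum_congr rfl fun P hP => ?_
      rw [← Finset.sum_filter, e1]
      have hP' : P ∈ Mn K i := by
        obtain ⟨p1, p2, -⟩ := mem_Irn.1 hP
        exact mem_Mn.2 ⟨p1, p2⟩
      rw [sum_dvd hP']
      have e3 : i + (n - d - i) - i = n - d - i := by omega
      refine sum_congr (by rw [e3]) fun k _ => ?_
      rw [mul_div_cancel_left₀ _ (mem_Mn.1 hP').1.ne_zero, mul_left_comm M P k, mul_div_assoc]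
    simp_rw [h3, Finset.mul_sum]
    rw [Finset.sum_comm]
    refine sum_congr rfl fun P _ => ?_
    rw [sum_mul_eq, e2]
    refine sum_congr rfl fun B _ => ?_
    rw [hb]
    simp only
    rw [Finset.mul_sum, Finset.sum_mul]
    refine sum_congr rfl fun M hM => ?_
    rw [mem_filter] at hM
    rw [EuclideanDomain.mul_div_cancel' (mem_Mn.1 hM.1).1.ne_zero hM.2]
    ring
  rw [key]
  exact h2 K n d i T Δ φ f₁ b (by omega) hT hΔ hφ hf₁ hb1 ht

/-- the number of the residues modulo `D` of the irreducible polynomials of degree `i` -/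
theorem card_res {D : K[X]} (hD : D.Monic) (S : Finset K[X]) :
    ((S.image (fun P => P %ₘ D)).card : ℝ) ≤ (Fintype.card K : ℝ) ^ D.natDegree := by
  have h1 : (S.image (fun P => P %ₘ D)).card ≤ (Mn K D.natDegree).card := by
    refine Finset.card_le_card_of_injOn (fun ρ => X ^ D.natDegree + ρ) ?_ ?_
    · intro ρ hρ
      rw [mem_coe, mem_image] at hρ
      obtain ⟨P, _, rfl⟩ := hρ
      have hlt : (P %ₘ D).degree < (D.natDegree : WithBot ℕ) := by
        rw [← degree_eq_natDegree hD.ne_zero]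
        exact degree_modByMonic_lt P hD
      rw [mem_coe, mem_Mn]
      refine ⟨monic_X_pow_add hlt, natDegree_eq_of_degree_eq_some ?_⟩
      rw [degree_add_eq_left_of_degree_lt (by rw [degree_X_pow]; exact hlt), degree_X_pow]
    · intro ρ _ ρ' _ h
      exact add_left_cancel h
  rw [card_Mn] at h1
  exact_mod_cast h1

omit [Fintype K] in
/-- `P k' ≡ r` in terms of the residue of `P` -/
theorem dvd_iff {D : K[X]} (P k r : K[X]) :
    D ∣ (P %ₘ D) * k - r ↔ D ∣ P * k - r := by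
  have h1 : P * k - r = ((P %ₘ D) * k - r) + D * (P /ₘ D * k) := by
    conv_lhs => rw [← modByMonic_add_div P D]
    ring
  rw [h1]
  exact (dvd_add_left (dvd_mul_right D _)).symm

/-- one degree, in a residue class -/
theorem step_cls (h2 : S_big) {n d z w i : ℕ} {T Δ : ℝ} {φ c : K[X] → ℝ} {D r : K[X]}
    (hi : i ∈ Icc z w) (hdw : d + w ≤ n) (hT : 1 ≤ T) (hΔ : 0 ≤ Δ) (hφ : ∀ B, |φ B| ≤ 1)
    (hc : ∀ M, |c M| ≤ 1) (ht : TII n i Δ φ) (hD : D.Monic) :
    |∑ M ∈ Mn K d, c M * ∑ k ∈ Mn K (n - d),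
      (∑ P ∈ (Irn K i).filter (fun P => P ∣ k), 1 / (1 + (om z w (k / P) : ℝ))) *
        ((if D ∣ k - r then 1 else 0) * φ (M * k))| ≤
      (Fintype.card K : ℝ) ^ D.natDegree *
        ((T * Δ + (d + 1) / T) * (Fintype.card K : ℝ) ^ n) := by
  set R : Finset K[X] := (Irn K i).image (fun P => P %ₘ D) with hR
  set f₁ : K[X] → K[X] → ℝ := fun ρ P => if P %ₘ D = ρ then 1 else 0 with hf₁
  set f₂ : K[X] → K[X] → ℝ := fun ρ k => if D ∣ ρ * k - r then 1 else 0 with hf₂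
  have hb₁ : ∀ ρ k, |f₁ ρ k| ≤ 1 := by
    intro ρ k
    rw [hf₁]
    simp only
    split_ifs <;> simp
  have hb₂ : ∀ ρ k, |f₂ ρ k| ≤ 1 := by
    intro ρ k
    rw [hf₂]
    simp only
    split_ifs <;> simp
  have key : ∑ M ∈ Mn K d, c M * ∑ k ∈ Mn K (n - d),
      (∑ P ∈ (Irn K i).filter (fun P => P ∣ k), 1 / (1 + (om z w (k / P) : ℝ))) *
        ((if D ∣ k - r then 1 else 0) * φ (M * k)) =
      ∑ ρ ∈ R, ∑ M ∈ Mn K d, c M * ∑ k ∈ Mn K (n - d),
        (∑ P ∈ (Irn K i).filter (fun P => P ∣ k),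
          f₁ ρ P * f₂ ρ (k / P) / (1 + (om z w (k / P) : ℝ))) * φ (M * k) := by
    rw [Finset.sum_comm]
    refine sum_congr rfl fun M _ => ?_
    rw [← Finset.mul_sum]
    congr 1
    rw [Finset.sum_comm]
    refine sum_congr rfl fun k _ => ?_
    rw [← Finset.sum_mul, ← mul_assoc]
    congr 1
    rw [Finset.sum_comm, Finset.sum_mul]
    refine sum_congr rfl fun P hP => ?_
    rw [mem_filter] at hP
    have hP0 : P ≠ 0 := (mem_Irn.1 hP.1).1.ne_zero
    have hk : P * (k / P) = k := EuclideanDomain.mul_div_cancel' hP0 hP.2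
    have e1 : ∀ ρ ∈ R, f₁ ρ P * f₂ ρ (k / P) / (1 + (om z w (k / P) : ℝ)) =
        if P %ₘ D = ρ then (if D ∣ k - r then 1 else 0) / (1 + (om z w (k / P) : ℝ)) else 0 := by
      intro ρ _
      rw [hf₁, hf₂]
      simp only
      split_ifs with a1 a2 a3 a4
      · rw [one_mul]
      · exfalso
        rw [← a1, dvd_iff, hk] at a2
        exact a3 a2
      · exfalso
        apply a2
        rw [← a1, dvd_iff, hk]
        exact a4
      · rw [one_mul]
      · rw [zero_mul, zero_div]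
      · rw [zero_mul, zero_div]
    rw [sum_congr rfl e1, sum_ite_eq, if_pos (mem_image_of_mem _ hP.1)]
    ring
  rw [key]
  refine (abs_sum_le_sum_abs _ _).trans ?_
  refine (sum_le_card_nsmul _ _ _ fun ρ _ =>
    step_i h2 hi hdw hT hΔ hφ (hb₁ ρ) (hb₂ ρ) hc ht).trans ?_
  rw [nsmul_eq_mul]
  refine mul_le_mul_of_nonneg_right (card_res hD _) ?_
  positivity

/-- the sum over the `k` with a prime divisor of degree in `[z, w]`, in a residue class -/
theorem gencls (h1 : S_pw) (h2 : S_big) {n d z w : ℕ} {T Δ : ℝ} {φ c : K[X] → ℝ} {D r : K[X]}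
    (hz : 1 ≤ z) (hdw : d + w ≤ n) (hT : 1 ≤ T) (hΔ : 0 ≤ Δ) (hφ : ∀ B, |φ B| ≤ 1)
    (hc : ∀ M, |c M| ≤ 1) (ht : ∀ i ∈ Icc z w, TII n i Δ φ) (hD : D.Monic) :
    |∑ M ∈ Mn K d, c M *
      ∑ k ∈ (Mn K (n - d)).filter (fun k => om z w k ≠ 0 ∧ D ∣ k - r), φ (M * k)| ≤
      (Fintype.card K : ℝ) ^ D.natDegree * (n * (T * Δ + (n + 1) / T) *
        (Fintype.card K : ℝ) ^ n) + 4 * (Fintype.card K : ℝ) ^ ((n : ℝ) - z) := by
  have hq2 := q_ge (k := K)
  set q : ℝ := (Fintype.card K : ℝ) with hq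
  have hq0 : 0 < q := by linarith
  set g : ℕ → K[X] → ℝ := fun i k => ∑ P ∈ (Irn K i).filter (fun P => P ∣ k),
    1 / (1 + (om z w (k / P) : ℝ)) with hg
  set ψ : K[X] → ℝ := fun k => if D ∣ k - r then 1 else 0 with hψ
  have hψ1 : ∀ k, |ψ k| ≤ 1 := by
    intro k
    rw [hψ]
    simp only
    split_ifs <;> simp
  set s : K[X] → ℝ := fun k =>
    ∑ i ∈ Icc z w, (((Irn K i).filter (fun P => P ^ 2 ∣ k)).card : ℝ) with hs
  have hs0 : ∀ k, 0 ≤ s k := fun k => sum_nonneg fun i _ => Nat.cast_nonneg _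
  have hpt : ∀ k ∈ Mn K (n - d),
      |(if om z w k ≠ 0 then (1 : ℝ) else 0) - ∑ i ∈ Icc z w, g i k| ≤ 2 * s k := by
    intro k hk
    by_cases h0 : om z w k = 0
    · rw [if_neg (not_not.2 h0)]
      have h3 : ∑ i ∈ Icc z w, g i k = 0 := by
        refine sum_eq_zero fun i hi => ?_
        have h4 : ((Irn K i).filter (fun P => P ∣ k)) = ∅ := by
          rw [← card_eq_zero]
          unfold om at h0
          exact (sum_eq_zero_iff.1 h0) i hi
        rw [hg]
        simp only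
        rw [h4, sum_empty]
      rw [h3, sub_zero, abs_zero]
      have := hs0 k
      linarith
    · rw [if_pos h0]
      have h3 := h1 K z w (fun _ => 1) k hz (fun _ _ _ _ _ _ => (one_mul _).symm)
        (fun _ => by rw [abs_one]) (mem_Mn.1 hk).1.ne_zero h0
      simp only [one_mul] at h3
      exact h3
  set A : ℝ := ∑ M ∈ Mn K d, c M *
    ∑ k ∈ (Mn K (n - d)).filter (fun k => om z w k ≠ 0 ∧ D ∣ k - r), φ (M * k) with hA
  set B : ℝ := ∑ i ∈ Icc z w, ∑ M ∈ Mn K d, c M *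
    ∑ k ∈ Mn K (n - d), g i k * (ψ k * φ (M * k)) with hB
  have hBle : |B| ≤ q ^ D.natDegree * (n * (T * Δ + (n + 1) / T) * q ^ n) := by
    refine (abs_sum_le_sum_abs _ _).trans ?_
    have h3 : ∀ i ∈ Icc z w,
        |∑ M ∈ Mn K d, c M * ∑ k ∈ Mn K (n - d), g i k * (ψ k * φ (M * k))| ≤
        q ^ D.natDegree * ((T * Δ + (n + 1) / T) * q ^ n) := by
      intro i hi
      refine (step_cls h2 hi hdw hT hΔ hφ hc (ht i hi) hD).trans ?_
      refine mul_le_mul_of_nonneg_left ?_ (by positivity)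
      refine mul_le_mul_of_nonneg_right ?_ (by positivity)
      have h4 : ((d : ℝ) + 1) / T ≤ ((n : ℝ) + 1) / T := by
        refine div_le_div_of_nonneg_right ?_ (by linarith)
        have : (d : ℝ) ≤ n := by exact_mod_cast (by omega : d ≤ n)
        linarith
      linarith
    refine (sum_le_card_nsmul _ _ _ h3).trans ?_
    rw [nsmul_eq_mul, Nat.card_Icc, mul_left_comm, ← mul_assoc (((w + 1 - z : ℕ)) : ℝ)]
    refine mul_le_mul_of_nonneg_left ?_ (by positivity)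
    refine mul_le_mul_of_nonneg_right ?_ (by positivity)
    refine mul_le_mul_of_nonneg_right ?_ (by positivity)
    exact_mod_cast (by omega : w + 1 - z ≤ n)
  have hABeq : A - B = ∑ M ∈ Mn K d, c M * ∑ k ∈ Mn K (n - d),
      ((if om z w k ≠ 0 then 1 else 0) - ∑ i ∈ Icc z w, g i k) * (ψ k * φ (M * k)) := by
    rw [hA, hB, sum_comm, ← sum_sub_distrib]
    refine sum_congr rfl fun M _ => ?_
    rw [← mul_sum, ← mul_sub]
    congr 1
    rw [sum_comm, sum_filter, ← sum_sub_distrib]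
    refine sum_congr rfl fun k _ => ?_
    rw [sub_mul, sum_mul]
    refine congrArg (fun x => x - ∑ i ∈ Icc z w, g i k * (ψ k * φ (M * k))) ?_
    by_cases a1 : om z w k ≠ 0
    · by_cases a2 : D ∣ k - r
      · have a3 : ψ k = 1 := if_pos a2
        rw [if_pos ⟨a1, a2⟩, if_pos a1, a3, one_mul, one_mul]
      · have a3 : ψ k = 0 := if_neg a2
        rw [if_neg (fun h => a2 h.2), if_pos a1, a3, one_mul, zero_mul]
    · rw [if_neg (fun h => a1 h.1), if_neg a1, zero_mul]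
  have hABle : |A - B| ≤ 4 * q ^ ((n : ℝ) - z) := by
    rw [hABeq]
    refine (abs_sum_le_sum_abs _ _).trans ?_
    have h3 : ∀ M ∈ Mn K d, |c M * ∑ k ∈ Mn K (n - d),
        ((if om z w k ≠ 0 then 1 else 0) - ∑ i ∈ Icc z w, g i k) * (ψ k * φ (M * k))| ≤
        2 * (q ^ (n - d) * (2 * (q ^ z)⁻¹)) := by
      intro M _
      rw [abs_mul]
      refine (mul_le_of_le_one_left (abs_nonneg _) (hc M)).trans ?_
      refine (abs_sum_le_sum_abs _ _).trans ?_
      refine le_trans (sum_le_sum fun k hk => ?_)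
        (show ∑ k ∈ Mn K (n - d), 2 * s k ≤ _ from ?_)
      · rw [abs_mul]
        refine (mul_le_of_le_one_right (abs_nonneg _) ?_).trans (hpt k hk)
        rw [abs_mul]
        exact mul_le_one₀ (hψ1 k) (abs_nonneg _) (hφ _)
      · rw [← mul_sum]
        exact mul_le_mul_of_nonneg_left (sq_sum z w (n - d)) (by norm_num)
    refine (sum_le_card_nsmul _ _ _ h3).trans ?_
    rw [nsmul_eq_mul, card_Mn, Nat.cast_pow, ← hq, Real.rpow_sub hq0, Real.rpow_natCast,
      Real.rpow_natCast]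
    have h4 : q ^ n = q ^ d * q ^ (n - d) := by
      rw [← pow_add]
      congr 1
      omega
    rw [h4, div_eq_mul_inv]
    refine le_of_eq ?_
    ring
  have h5 : A = B + (A - B) := by ring
  rw [h5]
  exact (abs_add_le _ _).trans (add_le_add hBle hABle)

end Cls

open Cls

theorem tcls : S_tcls := by
  intro htii hpw hbig K _ _ _ ε hε
  obtain ⟨C, c, hc, n₀, H⟩ := htii K ε hε
  set q : ℝ := (Fintype.card K : ℝ) with hq
  have hq2 : (2 : ℝ) ≤ q := Pool.Agent.H694.Typ.q_ge (k := K)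
  have hq1 : (1 : ℝ) ≤ q := by linarith
  have hq0 : (0 : ℝ) < q := by linarith
  refine ⟨C + 4, min (1 / 64) (c / 2), lt_min (by norm_num) (by linarith), max n₀ 2, ?_⟩
  intro n hn d z w h D r u hz hdw hw hh hhn hD hDz hu1
  have hn0 : n₀ ≤ n := le_trans (le_max_left _ _) hn
  have hn2 : 2 ≤ n := le_trans (le_max_right _ _) hn
  have hn2' : (2 : ℝ) ≤ (n : ℝ) := by exact_mod_cast hn2
  have hnpos : (0 : ℝ) ≤ (n : ℝ) := by linarith
  have hzr : (0 : ℝ) ≤ (z : ℝ) := Nat.cast_nonneg z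
  set t : ℝ := min ((z : ℝ) / 64) (c * n / 2) with ht
  have ht0 : 0 ≤ t := le_min (by positivity) (by positivity)
  have ht1 : t ≤ (z : ℝ) / 64 := min_le_left _ _
  have ht2 : t ≤ c * n / 2 := min_le_right _ _
  set Δ : ℝ := (n : ℝ) ^ C * (q ^ (-(z : ℝ) / 32) + q ^ (-c * n)) with hΔ
  have hΔ0 : 0 ≤ Δ := by positivity
  have hT1 : (1 : ℝ) ≤ q ^ t := Real.one_le_rpow hq1 ht0
  have hTII : ∀ i ∈ Icc z w, TII n i Δ (fun B : K[X] => (mob (B + h) : ℝ)) := by
    intro i hi α β hα hβ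
    rw [mem_Icc] at hi
    have hiw : (i : ℝ) ≤ (w : ℝ) := by exact_mod_cast hi.2
    have hzi : (z : ℝ) ≤ (i : ℝ) := by exact_mod_cast hi.1
    have h1 := H n hn0 i h 1 α β (le_trans hz hi.1) (hiw.trans hw) hh hhn monic_one
      (by rw [natDegree_one, Nat.cast_zero]; positivity) hα hβ
    have e1 : ∑ p ∈ Irn K i, ∑ B ∈ Mn K (n - i), α p * β B * (mobg 1 (p * B + h) : ℝ) =
        ∑ p ∈ Irn K i, ∑ B ∈ Mn K (n - i), α p * β B * (mob (p * B + h) : ℝ) := by
      refine sum_congr rfl fun p _ => sum_congr rfl fun B _ => ?_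
      rw [typm_mobg_one]
    rw [e1] at h1
    refine h1.trans ?_
    have h2 : q ^ (-(i : ℝ) / 32) ≤ q ^ (-(z : ℝ) / 32) :=
      Real.rpow_le_rpow_of_exponent_le hq1 (by linarith)
    rw [hΔ, mul_right_comm]
    refine mul_le_mul_of_nonneg_right ?_ (by positivity)
    exact mul_le_mul_of_nonneg_left (by linarith) (by positivity)
  have h4 := gencls hpw hbig (D := D) (r := r) (c := u) (T := q ^ t)
    (φ := fun B : K[X] => (mob (B + h) : ℝ)) hz hdw hT1 hΔ0 (fun B => typm_mob_le _) hu1 hTII hD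
  refine h4.trans ?_
  set E : ℝ := q ^ (-(z : ℝ) / 64) + q ^ (-(c * n / 2)) with hE
  have a1 : 0 < q ^ (-(z : ℝ) / 64) := Real.rpow_pos_of_pos hq0 _
  have a2 : 0 < q ^ (-(c * n / 2)) := Real.rpow_pos_of_pos hq0 _
  have hE0 : 0 < E := by positivity
  have b1 : q ^ t * Δ ≤ (n : ℝ) ^ C * E := by
    have e1 : q ^ t * Δ = (n : ℝ) ^ C * (q ^ (t + -(z : ℝ) / 32) + q ^ (t + -c * n)) := by
      rw [Real.rpow_add hq0, Real.rpow_add hq0, hΔ]
      ring
    rw [e1]
    refine mul_le_mul_of_nonneg_left (add_le_add ?_ ?_) (by positivity)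
    · exact Real.rpow_le_rpow_of_exponent_le hq1 (by linarith)
    · exact Real.rpow_le_rpow_of_exponent_le hq1 (by linarith)
  have b2 : (n + 1) / q ^ t ≤ (n + 1) * E := by
    rw [div_eq_mul_inv, ← Real.rpow_neg hq0.le]
    refine mul_le_mul_of_nonneg_left ?_ (by positivity)
    rcases min_choice ((z : ℝ) / 64) (c * n / 2) with h5 | h5
    · rw [ht, h5, show -((z : ℝ) / 64) = -(z : ℝ) / 64 by ring]
      linarith
    · rw [ht, h5]
      linarith
  have b3 : q ^ ((n : ℝ) - z) ≤ q ^ n * E := by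
    rw [Real.rpow_sub hq0, Real.rpow_natCast, div_eq_mul_inv, ← Real.rpow_neg hq0.le]
    refine mul_le_mul_of_nonneg_left ?_ (by positivity)
    have h5 : q ^ (-(z : ℝ)) ≤ q ^ (-(z : ℝ) / 64) :=
      Real.rpow_le_rpow_of_exponent_le hq1 (by linarith)
    linarith
  have b4 : E ≤ q ^ (-(min (1 / 64) (c / 2)) * (z : ℝ)) + q ^ (-(min (1 / 64) (c / 2)) * (n : ℝ)) := by
    refine add_le_add ?_ ?_
    · refine Real.rpow_le_rpow_of_exponent_le hq1 ?_
      have h5 : min (1 / 64) (c / 2) ≤ 1 / 64 := min_le_left _ _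
      have h6 := mul_le_mul_of_nonneg_right h5 hzr
      linarith
    · refine Real.rpow_le_rpow_of_exponent_le hq1 ?_
      have h5 : min (1 / 64) (c / 2) ≤ c / 2 := min_le_right _ _
      have h6 := mul_le_mul_of_nonneg_right h5 hnpos
      linarith
  have hqn : 0 < q ^ n := by positivity
  have hnC : (1 : ℝ) ≤ (n : ℝ) ^ C := one_le_pow₀ (by linarith)
  have b5 : (n : ℝ) * ((n : ℝ) ^ C + (n + 1)) + 4 ≤ (n : ℝ) ^ (C + 4) := by
    rw [pow_add]
    set a := (n : ℝ) ^ C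
    set x := (n : ℝ)
    have h6 : 0 ≤ x * (x ^ 3 - 1) := by
      have : 1 ≤ x ^ 3 := one_le_pow₀ (by linarith)
      exact mul_nonneg hnpos (by linarith)
    have h7 : x * (x ^ 3 - 1) ≤ a * (x * (x ^ 3 - 1)) := le_mul_of_one_le_left h6 hnC
    have h10 : 4 ≤ x ^ 2 := by
      have h9 := mul_le_mul hn2' hn2' (by norm_num) hnpos
      rw [pow_two]
      linarith
    have h8 : x ^ 2 + x + 4 ≤ x * (x ^ 3 - 1) := by
      have h9 : 4 * x ^ 2 ≤ x ^ 2 * x ^ 2 := mul_le_mul_of_nonneg_right h10 (sq_nonneg x)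
      have h11 : x * (x ^ 3 - 1) = x ^ 2 * x ^ 2 - x := by ring
      have h12 : 2 * x ≤ x ^ 2 := by
        rw [pow_two]
        exact mul_le_mul_of_nonneg_right hn2' hnpos
      rw [h11]
      linarith
    have h12 : a * (x * (x ^ 3 - 1)) = a * x ^ 4 - a * x := by ring
    have h13 : x * (a + (x + 1)) + 4 = a * x + (x ^ 2 + x + 4) := by ring
    rw [h12] at h7
    rw [h13]
    linarith
  set m : ℕ := D.natDegree with hm
  have hqm : (1 : ℝ) ≤ q ^ m := one_le_pow₀ hq1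
  have hqm2 : q ^ m ≤ q ^ (2 * m) := pow_le_pow_right₀ hq1 (by omega)
  have b6 : (n : ℝ) * (q ^ t * Δ + (n + 1) / q ^ t) * q ^ n ≤
      (n : ℝ) * ((n : ℝ) ^ C * E + (n + 1) * E) * q ^ n := by
    refine mul_le_mul_of_nonneg_right ?_ hqn.le
    exact mul_le_mul_of_nonneg_left (add_le_add b1 b2) hnpos
  have b7 : (0 : ℝ) ≤ (n : ℝ) * ((n : ℝ) ^ C * E + (n + 1) * E) * q ^ n := by positivity
  calc q ^ m * ((n : ℝ) * (q ^ t * Δ + (n + 1) / q ^ t) * q ^ n) + 4 * q ^ ((n : ℝ) - z)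
      ≤ q ^ (2 * m) * (n * ((n : ℝ) ^ C * E + (n + 1) * E) * q ^ n) +
          q ^ (2 * m) * (4 * (q ^ n * E)) := by
        refine add_le_add ?_ ?_
        · exact mul_le_mul hqm2 b6 (by positivity) (by positivity)
        · refine (mul_le_mul_of_nonneg_left b3 (by norm_num)).trans ?_
          exact le_mul_of_one_le_left (by positivity) (hqm.trans hqm2)
    _ = q ^ (2 * m) * (((n : ℝ) * ((n : ℝ) ^ C + (n + 1)) + 4) * (q ^ n * E)) := by ring
    _ ≤ q ^ (2 * m) * ((n : ℝ) ^ (C + 4) * (q ^ n * E)) :=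
        mul_le_mul_of_nonneg_left (mul_le_mul_of_nonneg_right b5 (by positivity)) (by positivity)
    _ = (n : ℝ) ^ (C + 4) * q ^ (n + 2 * m) * E := by
        rw [pow_add]
        ring
    _ ≤ _ := mul_le_mul_of_nonneg_left b4 (by positivity)

end Pool.Agent.H604.OD
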