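import Pool.Agent.H604.OD.Stm
import Pool.Agent.H985.Chow.Typ

/-!
# Task TATS: few atypical `k` after sifting (helper323)
-/

set_option autoImplicit false

namespace Pool.Agent.H604.OD

open Polynomial Finset
open scoped Classical
open Pool.Agent.H694.Typ (Mn Irn PU mem_Mn mem_Irn mem_PU q_ge pol exists_pol)
open Pool.Agent.H527.ME (om)
open Pool.Agent.H985.Par (S_sw)
open Pool.Agent.H524.MT (S_mert)

namespace Ats

variable {K : Type} [Field K] [Fintype K]

theorem fin_deg (n : ℕ) : {f : K[X] | f.degree < (n : WithBot ℕ)}.Finite := by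
  refine (Set.finite_range (pol : (Fin n → K) → K[X])).subset fun f hf => ?_
  obtain ⟨c, hc⟩ := exists_pol (k := K) (n := n) (f := f) hf
  exact ⟨c, hc⟩

theorem one_sub_sum {ι : Type} (s : Finset ι) (a : ι → ℝ) (h0 : ∀ i ∈ s, 0 ≤ a i)
    (h1 : ∀ i ∈ s, a i ≤ 1) : 1 - ∑ i ∈ s, a i ≤ ∏ i ∈ s, (1 - a i) := by
  induction s using Finset.induction_on with
  | empty => simp
  | insert i s hi ih =>
    rw [Finset.sum_insert hi, Finset.prod_insert hi]
    have h2 := ih (fun j hj => h0 j (Finset.mem_insert_of_mem hj))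
      fun j hj => h1 j (Finset.mem_insert_of_mem hj)
    have h3 := h0 i (Finset.mem_insert_self i s)
    have h4 := h1 i (Finset.mem_insert_self i s)
    have h5 : ∏ i ∈ s, (1 - a i) ≤ 1 := by
      refine Finset.prod_le_one (fun j hj => ?_) fun j hj => ?_
      · have := h1 j (Finset.mem_insert_of_mem hj)
        linarith
      · have := h0 j (Finset.mem_insert_of_mem hj)
        linarith
    nlinarith

/-- the factor of a prime -/
noncomputable def fc (P : K[X]) : ℝ := 1 - 1 / (Fintype.card K : ℝ) ^ P.natDegree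

theorem fc_le (P : K[X]) : fc P ≤ 1 := by
  have hq := q_ge (k := K)
  unfold fc
  have : 0 ≤ 1 / (Fintype.card K : ℝ) ^ P.natDegree := by positivity
  linarith

theorem inv_le {P : K[X]} {j : ℕ} (h : j ≤ P.natDegree) :
    1 / (Fintype.card K : ℝ) ^ P.natDegree ≤ 1 / (2 : ℝ) ^ j := by
  have hq := q_ge (k := K)
  refine one_div_le_one_div_of_le (by positivity) ?_
  calc (2 : ℝ) ^ j ≤ (Fintype.card K : ℝ) ^ j := pow_le_pow_left₀ (by norm_num) hq j
    _ ≤ (Fintype.card K : ℝ) ^ P.natDegree := pow_le_pow_right₀ (by linarith) h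

theorem fc_pos {P : K[X]} (h : 1 ≤ P.natDegree) : 0 < fc P := by
  have h1 := inv_le h
  unfold fc
  norm_num at h1
  have h2 : 1 / (Fintype.card K : ℝ) ^ P.natDegree ≤ 1 / 2 := by
    rw [one_div]
    linarith
  linarith

theorem PU_deg {m : ℕ} {P : K[X]} (hP : P ∈ PU K m) : 1 ≤ P.natDegree :=
  (mem_PU.1 hP).2.1.natDegree_pos

/-- few large prime factors -/
theorem card_large {M : K[X]} (hM : M ≠ 0) (w z : ℕ) :
    z * ((PU K w).filter (fun P => P ∣ M ∧ z ≤ P.natDegree)).card ≤ M.natDegree := by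
  have h1 : ∏ P ∈ (PU K w).filter (fun P => P ∣ M ∧ z ≤ P.natDegree), P ∣ M := by
    refine Finset.prod_dvd_of_coprime (fun P hP Q hQ hPQ => ?_) fun P hP =>
      (Finset.mem_filter.1 hP).2.1
    obtain ⟨a, b, -⟩ := mem_PU.1 (Finset.mem_filter.1 (Finset.mem_coe.1 hP)).1
    obtain ⟨a', b', -⟩ := mem_PU.1 (Finset.mem_filter.1 (Finset.mem_coe.1 hQ)).1
    refine (b.coprime_iff_not_dvd).2 fun h => hPQ ?_
    exact eq_of_monic_of_associated a a' (b.associated_of_dvd b' h)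
  have h2 := natDegree_le_of_dvd h1 hM
  rw [natDegree_prod_of_monic _ _ fun P hP => (mem_PU.1 (Finset.mem_filter.1 hP).1).1] at h2
  refine le_trans ?_ h2
  rw [mul_comm, ← smul_eq_mul]
  exact Finset.card_nsmul_le_sum _ _ _ fun P hP => (Finset.mem_filter.1 hP).2.2

/-- the primes dividing `M` contribute a bounded factor -/
theorem prod_large {M : K[X]} (hM : M ≠ 0) {w z : ℕ} (hz : 2 ≤ z) (hd : M.natDegree ≤ 2 ^ z) :
    1 / 2 ≤ ∏ P ∈ (PU K w).filter (fun P => P ∣ M ∧ z ≤ P.natDegree), fc P := by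
  have h1 := one_sub_sum ((PU K w).filter (fun P => P ∣ M ∧ z ≤ P.natDegree))
    (fun P => 1 / (Fintype.card K : ℝ) ^ P.natDegree) (fun P _ => by positivity) (fun P hP => by
      have h2 := inv_le (j := 0) (P := P) (Nat.zero_le _)
      rwa [pow_zero, div_one] at h2)
  refine le_trans ?_ h1
  have h2 : ∑ P ∈ (PU K w).filter (fun P => P ∣ M ∧ z ≤ P.natDegree),
      1 / (Fintype.card K : ℝ) ^ P.natDegree ≤
      (((PU K w).filter (fun P => P ∣ M ∧ z ≤ P.natDegree)).card : ℝ) * (1 / (2 : ℝ) ^ z) := by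
    rw [← nsmul_eq_mul]
    exact Finset.sum_le_card_nsmul _ _ _ fun P hP => inv_le (Finset.mem_filter.1 hP).2.2
  have h3 : (2 : ℝ) * (((PU K w).filter (fun P => P ∣ M ∧ z ≤ P.natDegree)).card : ℝ) ≤ 2 ^ z := by
    have h4 := (Nat.mul_le_mul_right _ hz).trans ((card_large hM w z).trans hd)
    exact_mod_cast h4
  have h5 : (0 : ℝ) < 2 ^ z := by positivity
  have h6 : (((PU K w).filter (fun P => P ∣ M ∧ z ≤ P.natDegree)).card : ℝ) * (1 / (2 : ℝ) ^ z) ≤
      1 / 2 := by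
    rw [mul_one_div, div_le_div_iff₀ h5 (by norm_num)]
    linarith
  linarith

/-- the primes in the window -/
theorem prod_win {C : ℝ} (hC : 1 ≤ C)
    (hm : ∀ z : ℕ, 1 ≤ z → (z : ℝ) ≤ ∏ P ∈ PU K z, (1 - 1 / (Fintype.card K : ℝ) ^ P.natDegree)⁻¹ ∧
      ∏ P ∈ PU K z, (1 - 1 / (Fintype.card K : ℝ) ^ P.natDegree)⁻¹ ≤ C * z) {z w : ℕ}
    (hz : 2 ≤ z) (hzw : z ≤ w) :
    ∏ P ∈ (PU K w).filter (fun P => z ≤ P.natDegree), fc P ≤ C * ((z : ℝ) / w) := by
  have h1 := (hm w (by omega)).1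
  have h2 := (hm (z - 1) (by omega)).2
  have h3 : (PU K w).filter (fun P => ¬ z ≤ P.natDegree) = PU K (z - 1) := by
    ext P
    rw [Finset.mem_filter, mem_PU, mem_PU]
    constructor
    · rintro ⟨⟨a, b, c⟩, d⟩
      exact ⟨a, b, by omega⟩
    · rintro ⟨a, b, c⟩
      exact ⟨⟨a, b, by omega⟩, by omega⟩
  have h4 := Finset.prod_filter_mul_prod_filter_not (PU K w) (fun P => z ≤ P.natDegree)
    (fun P => (fc P)⁻¹)
  rw [h3] at h4
  have hA : ∏ P ∈ (PU K w).filter (fun P => z ≤ P.natDegree), (fc P)⁻¹ =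
      (∏ P ∈ (PU K w).filter (fun P => z ≤ P.natDegree), fc P)⁻¹ := Finset.prod_inv_distrib _
  have hpos : 0 < ∏ P ∈ (PU K w).filter (fun P => z ≤ P.natDegree), fc P :=
    Finset.prod_pos fun P hP => fc_pos (PU_deg (Finset.mem_filter.1 hP).1)
  obtain ⟨W, hW⟩ : ∃ W, W = ∏ P ∈ (PU K w).filter (fun P => z ≤ P.natDegree), fc P := ⟨_, rfl⟩
  obtain ⟨E, hE⟩ : ∃ E, E = ∏ P ∈ PU K (z - 1), (fc P)⁻¹ := ⟨_, rfl⟩
  rw [hA, ← hW, ← hE] at h4
  rw [← hW] at hpos ⊢
  have h1' : (w : ℝ) ≤ W⁻¹ * E := by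
    rw [h4]
    exact h1
  have h2' : E ≤ C * ((z - 1 : ℕ) : ℝ) := by
    rw [hE]
    exact h2
  have h5 : ((z - 1 : ℕ) : ℝ) ≤ z := by exact_mod_cast Nat.sub_le z 1
  have h6 : E ≤ C * z := h2'.trans (mul_le_mul_of_nonneg_left h5 (by linarith))
  have hw0 : (0 : ℝ) < w := by
    have : 0 < w := by omega
    exact_mod_cast this
  rw [← mul_div_assoc, le_div_iff₀ hw0]
  calc W * w ≤ W * (W⁻¹ * E) := mul_le_mul_of_nonneg_left h1' hpos.le
    _ = E := by rw [← mul_assoc, mul_inv_cancel₀ hpos.ne', one_mul]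
    _ ≤ C * z := h6

/-- the sifting primes -/
noncomputable def Pset (M : K[X]) (m z w : ℕ) : Finset K[X] :=
  (PU K w).filter (fun P => ¬ P ∣ M ∧ (P.natDegree ≤ m ∨ z ≤ P.natDegree))

theorem prod_Pset {M : K[X]} {m z w : ℕ} (hmz : m < z) (hzw : z ≤ w) :
    ∏ P ∈ Pset M m z w, fc P = VM M m *
      ∏ P ∈ (PU K w).filter (fun P => ¬ P ∣ M ∧ z ≤ P.natDegree), fc P := by
  have h1 : Pset M m z w = (PU K m).filter (fun P => ¬ P ∣ M) ∪
      (PU K w).filter (fun P => ¬ P ∣ M ∧ z ≤ P.natDegree) := by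
    ext P
    unfold Pset
    rw [Finset.mem_union, Finset.mem_filter, Finset.mem_filter, Finset.mem_filter, mem_PU, mem_PU]
    constructor
    · rintro ⟨⟨a, b, c⟩, d, e | e⟩
      · exact Or.inl ⟨⟨a, b, e⟩, d⟩
      · exact Or.inr ⟨⟨a, b, c⟩, d, e⟩
    · rintro (⟨⟨a, b, c⟩, d⟩ | ⟨⟨a, b, c⟩, d, e⟩)
      · exact ⟨⟨a, b, by omega⟩, d, Or.inl c⟩
      · exact ⟨⟨a, b, c⟩, d, Or.inr e⟩
  rw [h1, Finset.prod_union]
  · rfl
  · rw [Finset.disjoint_left]
    intro P hP hP'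
    rw [Finset.mem_filter, mem_PU] at hP hP'
    omega

theorem prod_split {M : K[X]} {z w : ℕ} :
    (∏ P ∈ (PU K w).filter (fun P => ¬ P ∣ M ∧ z ≤ P.natDegree), fc P) *
      (∏ P ∈ (PU K w).filter (fun P => P ∣ M ∧ z ≤ P.natDegree), fc P) =
      ∏ P ∈ (PU K w).filter (fun P => z ≤ P.natDegree), fc P := by
  have h1 := Finset.prod_filter_mul_prod_filter_not ((PU K w).filter (fun P => z ≤ P.natDegree))
    (fun P => P ∣ M) (fun P => fc P)
  rw [← h1, mul_comm, Finset.filter_filter, Finset.filter_filter]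
  have e1 : (PU K w).filter (fun P => P ∣ M ∧ z ≤ P.natDegree) =
      (PU K w).filter (fun P => z ≤ P.natDegree ∧ P ∣ M) :=
    Finset.filter_congr fun P _ => and_comm
  have e2 : (PU K w).filter (fun P => ¬ P ∣ M ∧ z ≤ P.natDegree) =
      (PU K w).filter (fun P => z ≤ P.natDegree ∧ ¬ P ∣ M) :=
    Finset.filter_congr fun P _ => and_comm
  rw [e1, e2]

theorem VM_nonneg (M : K[X]) (m : ℕ) : 0 ≤ VM M m := by
  unfold VM
  exact Finset.prod_nonneg fun P hP => (fc_pos (PU_deg (Finset.mem_filter.1 hP).1)).le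

theorem prod_le {C : ℝ} (hC : 1 ≤ C)
    (hm : ∀ z : ℕ, 1 ≤ z → (z : ℝ) ≤ ∏ P ∈ PU K z, (1 - 1 / (Fintype.card K : ℝ) ^ P.natDegree)⁻¹ ∧
      ∏ P ∈ PU K z, (1 - 1 / (Fintype.card K : ℝ) ^ P.natDegree)⁻¹ ≤ C * z) {M : K[X]}
    (hM : M ≠ 0) {m z w : ℕ} (hz : 2 ≤ z) (hmz : m < z) (hzw : z ≤ w)
    (hd : M.natDegree ≤ 2 ^ z) :
    ∏ P ∈ Pset M m z w, fc P ≤ 2 * C * ((z : ℝ) / w) * VM M m := by
  rw [prod_Pset hmz hzw]
  have h1 := prod_large (w := w) hM hz hd
  have h2 := prod_win hC hm hz hzw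
  rw [← prod_split (M := M)] at h2
  have h3 : 0 ≤ ∏ P ∈ (PU K w).filter (fun P => ¬ P ∣ M ∧ z ≤ P.natDegree), fc P :=
    Finset.prod_nonneg fun P hP => (fc_pos (PU_deg (Finset.mem_filter.1 hP).1)).le
  have h4 := VM_nonneg M m
  obtain ⟨W, hW⟩ : ∃ W, W = ∏ P ∈ (PU K w).filter (fun P => ¬ P ∣ M ∧ z ≤ P.natDegree), fc P :=
    ⟨_, rfl⟩
  obtain ⟨E, hE⟩ : ∃ E, E = ∏ P ∈ (PU K w).filter (fun P => P ∣ M ∧ z ≤ P.natDegree), fc P :=
    ⟨_, rfl⟩
  rw [← hW, ← hE] at h2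
  rw [← hE] at h1
  rw [← hW] at h3 ⊢
  have h5 : W ≤ 2 * (C * ((z : ℝ) / w)) := by nlinarith
  calc VM M m * W ≤ VM M m * (2 * (C * ((z : ℝ) / w))) := mul_le_mul_of_nonneg_left h5 h4
    _ = 2 * C * ((z : ℝ) / w) * VM M m := by ring

theorem sub_degree {L : ℕ} {f : K[X]} (hf : f ∈ Mn K L) :
    (f - X ^ L).degree < (L : WithBot ℕ) := by
  rw [mem_Mn] at hf
  have h2 : f.degree = (L : WithBot ℕ) := by rw [degree_eq_natDegree hf.1.ne_zero, hf.2]
  have h3 : (X ^ L : K[X]).degree = (L : WithBot ℕ) := degree_X_pow L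
  refine lt_of_lt_of_le (degree_sub_lt_left (by rw [h2, h3]) hf.1.ne_zero ?_) (le_of_eq h2)
  rw [hf.1.leadingCoeff, leadingCoeff_X_pow]

/-- the residues -/
noncomputable def Om (h : K[X]) (m : ℕ) (P : K[X]) : Finset K[X] :=
  if P.natDegree ≤ m then {0} else {h %ₘ P}

theorem card_Om (h : K[X]) (m : ℕ) (P : K[X]) : (Om h m P).card = 1 := by
  unfold Om
  split_ifs
  · exact Finset.card_singleton _
  · exact Finset.card_singleton _

theorem deg_Om {h : K[X]} {m : ℕ} {P : K[X]} (hP : P.Monic) (hP2 : Irreducible P) :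
    ∀ r ∈ Om h m P, r.degree < P.degree := by
  intro r hr
  unfold Om at hr
  split_ifs at hr
  · rw [Finset.mem_singleton] at hr
    rw [hr, degree_zero]
    exact bot_lt_iff_ne_bot.2 fun h0 => hP.ne_zero (degree_eq_bot.1 h0)
  · rw [Finset.mem_singleton] at hr
    rw [hr]
    exact degree_modByMonic_lt h hP

end Ats

open Ats

theorem tats : S_tats := by
  intro hsw hmert K _ _
  obtain ⟨C, hC, hm, -⟩ := hmert K
  obtain ⟨A, hA⟩ := hsw K 1 1 one_pos
  refine ⟨4 * C, max A 1, by linarith, le_max_right _ _, ?_⟩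
  intro n d m z w M h hM hcop hm1 hmz hzw hAw hn
  have hq := q_ge (k := K)
  have hMm := mem_Mn.1 hM
  have hw1 : 1 ≤ w := by omega
  have hAw' : A * w ≤ n - d := by
    have h1 : A * w ≤ max A 1 * w := Nat.mul_le_mul_right _ (le_max_left _ _)
    omega
  have hdn : d ≤ n := by
    have h1 := Nat.zero_le (max A 1 * w)
    omega
  obtain ⟨-, hup, -⟩ := hA (n - d) w (Pset M m z w) (Om h m) M (M * X ^ (n - d) + h) hw1 hAw' (by
    intro P hP
    obtain ⟨hP1, hP2, -⟩ := Finset.mem_filter.1 hP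
    obtain ⟨a, b, c⟩ := mem_PU.1 hP1
    exact ⟨a, b, c, ((b.coprime_iff_not_dvd).2 hP2).symm⟩) (by
    intro P hP
    obtain ⟨hP1, hP2, -⟩ := Finset.mem_filter.1 hP
    obtain ⟨a, b, c⟩ := mem_PU.1 hP1
    refine ⟨(card_Om h m P).le, ?_, deg_Om a b⟩
    rw [card_Om]
    exact Nat.one_lt_pow b.natDegree_pos.ne' Fintype.one_lt_card)
  have hV : ∏ P ∈ Pset M m z w, (1 - ((Om h m P).card : ℝ) /
      (Fintype.card K : ℝ) ^ P.natDegree) = ∏ P ∈ Pset M m z w, fc P := by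
    refine Finset.prod_congr rfl fun P _ => ?_
    rw [card_Om, Nat.cast_one]
    rfl
  rw [hV] at hup
  have hle := prod_le hC hm (M := M) hMm.1.ne_zero (m := m) (z := z) (w := w) (by omega) hmz hzw
    (by rw [hMm.2]; omega)
  -- the injection
  have hinj : ((Sf (n - d) m M h).filter (fun k => om z w k = 0)).card ≤
      Set.ncard {u : K[X] | u.degree < ((n - d : ℕ) : WithBot ℕ) ∧
        ∀ P ∈ Pset M m z w, ∀ r ∈ Om h m P, ¬ P ∣ (M * X ^ (n - d) + h) + M * u - r} := by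
    rw [← Set.ncard_coe_finset]
    refine Set.ncard_le_ncard_of_injOn (fun k => k - X ^ (n - d)) ?_ ?_
      ((fin_deg (n - d)).subset fun u hu => hu.1)
    · intro k hk
      obtain ⟨hk1, hk2⟩ := Finset.mem_filter.1 (Finset.mem_coe.1 hk)
      obtain ⟨hk3, hk4⟩ := Finset.mem_filter.1 hk1
      refine ⟨sub_degree hk3, fun P hP r hr => ?_⟩
      obtain ⟨hP1, hP2, hP3⟩ := Finset.mem_filter.1 hP
      obtain ⟨a, b, c⟩ := mem_PU.1 hP1
      have e1 : (M * X ^ (n - d) + h) + M * (k - X ^ (n - d)) - r = M * k + h - r := by ring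
      rw [e1]
      unfold Om at hr
      split_ifs at hr with hPm
      · rw [Finset.mem_singleton] at hr
        rw [hr, sub_zero]
        exact hk4 P (mem_PU.2 ⟨a, b, hPm⟩)
      · rw [Finset.mem_singleton] at hr
        intro hdvd
        have e2 : M * k = (M * k + h - r) - P * (h /ₘ P) := by
          have e3 := modByMonic_add_div h P
          rw [hr]
          linear_combination (norm := ring_nf) e3
        have h5 : P ∣ M * k := by
          rw [e2]
          exact dvd_sub hdvd (dvd_mul_right _ _)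
        have h6 : P ∣ k := (b.prime.dvd_or_dvd h5).resolve_left hP2
        have h7 : z ≤ P.natDegree := hP3.resolve_left hPm
        have h8 := (Finset.sum_eq_zero_iff.1 hk2) P.natDegree (Finset.mem_Icc.2 ⟨h7, c⟩)
        rw [Finset.card_eq_zero] at h8
        have h9 : P ∈ (Irn K P.natDegree).filter (fun P => P ∣ k) :=
          Finset.mem_filter.2 ⟨mem_Irn.2 ⟨a, rfl, b⟩, h6⟩
        rw [h8] at h9
        exact absurd h9 (Finset.notMem_empty _)
    · intro k _ k' _ hkk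
      exact sub_left_injective hkk
  have hinj' : (((Sf (n - d) m M h).filter (fun k => om z w k = 0)).card : ℝ) ≤
      ((Set.ncard {u : K[X] | u.degree < ((n - d : ℕ) : WithBot ℕ) ∧
        ∀ P ∈ Pset M m z w, ∀ r ∈ Om h m P, ¬ P ∣ (M * X ^ (n - d) + h) + M * u - r} : ℕ) : ℝ) := by
    exact_mod_cast hinj
  refine hinj'.trans (hup.trans ?_)
  have hqL : (0 : ℝ) ≤ (Fintype.card K : ℝ) ^ (n - d) := by positivity
  calc (1 + 1) * (∏ P ∈ Pset M m z w, fc P) * (Fintype.card K : ℝ) ^ (n - d) ≤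
      (1 + 1) * (2 * C * ((z : ℝ) / w) * VM M m) * (Fintype.card K : ℝ) ^ (n - d) :=
        mul_le_mul_of_nonneg_right (mul_le_mul_of_nonneg_left hle (by norm_num)) hqL
    _ = 4 * C * ((z : ℝ) / w) * VM M m * (Fintype.card K : ℝ) ^ (n - d) := by ring

end Pool.Agent.H604.OD
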