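import Pool.Agent.H604.OD.Stm

/-!
# Task TMN: the sieve for `M k + h`, from the sieve in a progression of a window
-/

set_option autoImplicit false

namespace Pool.Agent.H604.OD

open Polynomial Finset
open scoped Classical
open Pool.Agent.H985.Chow (mob)
open Pool.Agent.H985.KP (PA)
open Pool.Agent.H694.Typ (Mn Irn PU mem_Mn mem_PU q_ge)
open Pool.Agent.H251.SP (S_tii)
open Pool.Agent.H527.ME (om S_pw S_big S_div)
open Pool.Agent.H985.Par (S_sw)
open Pool.Agent.H524.MT (Pm S_mert)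

namespace MnAux

section

variable {K : Type} [Field K] [Fintype K]

theorem mem_Mn_iff {L : ℕ} {u : K[X]} :
    X ^ L + u ∈ Mn K L ↔ u.degree < (L : WithBot ℕ) := by
  rw [mem_Mn]
  constructor
  · rintro ⟨h1, h2⟩
    have h3 : (X ^ L + u).degree = (L : WithBot ℕ) := by
      rw [degree_eq_natDegree h1.ne_zero, h2]
    have h4 : (X ^ L : K[X]).degree = (L : WithBot ℕ) := degree_X_pow L
    have h5 : (X ^ L + u - X ^ L).degree < (X ^ L + u).degree := by
      refine degree_sub_lt_left (by rw [h3, h4]) h1.ne_zero ?_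
      rw [h1.leadingCoeff, leadingCoeff_X_pow]
    rw [h3] at h5
    have h6 : X ^ L + u - X ^ L = u := by ring
    rwa [h6] at h5
  · intro h
    have h1 : u.degree < (X ^ L : K[X]).degree := by
      rw [degree_X_pow]
      exact h
    refine ⟨monic_X_pow_add h, ?_⟩
    apply natDegree_eq_of_degree_eq_some
    rw [degree_add_eq_left_of_degree_lt h1, degree_X_pow]

theorem inj_add (a : K[X]) : Function.Injective fun u : K[X] => a + u := fun u v h =>
  add_left_cancel h

/-- the sifted set in the window -/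
theorem image_sif {L m : ℕ} {M h : K[X]} (hcop : IsCoprime M h) :
    (fun u : K[X] => X ^ L + u) '' {u | u.degree < (L : WithBot ℕ) ∧
      ∀ P ∈ (PU K m).filter (fun P => ¬ P ∣ M), ∀ r ∈ ({0} : Finset K[X]),
        ¬ P ∣ (M * X ^ L + h) + M * u - r} = ((Sf L m M h : Finset K[X]) : Set K[X]) := by
  ext k
  rw [Set.mem_image, Finset.mem_coe, Sf, mem_filter]
  constructor
  · rintro ⟨u, ⟨hu1, hu2⟩, rfl⟩
    refine ⟨mem_Mn_iff.2 hu1, fun P hP hdvd => ?_⟩
    by_cases hPM : P ∣ M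
    · have h1 : P ∣ h := by
        have h2 : P ∣ M * (X ^ L + u) := hPM.mul_right _
        exact (dvd_add_right h2).1 hdvd
      exact (mem_PU.1 hP).2.1.not_isUnit (hcop.isUnit_of_dvd' hPM h1)
    · refine hu2 P (mem_filter.2 ⟨hP, hPM⟩) 0 (mem_singleton_self 0) ?_
      have h1 : M * X ^ L + h + M * u - 0 = M * (X ^ L + u) + h := by ring
      rw [h1]
      exact hdvd
  · rintro ⟨hk1, hk2⟩
    refine ⟨k - X ^ L, ⟨?_, ?_⟩, by ring⟩
    · have h1 : X ^ L + (k - X ^ L) ∈ Mn K L := by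
        rw [show X ^ L + (k - X ^ L) = k by ring]
        exact hk1
      exact mem_Mn_iff.1 h1
    · intro P hP r hr hdvd
      rw [mem_singleton] at hr
      rw [hr] at hdvd
      refine hk2 P (mem_filter.1 hP).1 ?_
      have h1 : M * X ^ L + h + M * (k - X ^ L) - 0 = M * k + h := by ring
      rwa [h1] at hdvd

/-- residue classes in the window -/
theorem image_class {L L' : ℕ} {D r : K[X]} (hD : D.Monic) (hL : D.natDegree + L' = L)
    (hr : r.degree < D.degree) :
    (fun v : K[X] => X ^ L + (r + D * v)) '' {v | v.degree < (L' : WithBot ℕ)} =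
      (((Mn K L).filter (fun k => D ∣ k - (X ^ L + r) %ₘ D) : Finset K[X]) : Set K[X]) := by
  have hD0 : D ≠ 0 := hD.ne_zero
  have hDd : D.degree = (D.natDegree : WithBot ℕ) := degree_eq_natDegree hD0
  have hrL : r.degree < (L : WithBot ℕ) := by
    refine lt_of_lt_of_le hr ?_
    rw [hDd]
    exact_mod_cast (by omega : D.natDegree ≤ L)
  have hmod : D ∣ (X ^ L + r) - (X ^ L + r) %ₘ D := by
    refine ⟨(X ^ L + r) /ₘ D, ?_⟩
    have h1 := modByMonic_add_div (X ^ L + r) D
    linear_combination -h1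
  have hdeg : ∀ v : K[X], (D * v).degree < (L : WithBot ℕ) ↔ v.degree < (L' : WithBot ℕ) := by
    intro v
    by_cases hv : v = 0
    · rw [hv, mul_zero, degree_zero]
      exact ⟨fun _ => WithBot.bot_lt_coe _, fun _ => WithBot.bot_lt_coe _⟩
    · rw [degree_mul, hDd, degree_eq_natDegree hv, ← hL]
      constructor
      · intro h1
        have h2 : D.natDegree + v.natDegree < D.natDegree + L' := by exact_mod_cast h1
        have h3 : v.natDegree < L' := by omega
        exact_mod_cast h3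
      · intro h1
        have h2 : v.natDegree < L' := by exact_mod_cast h1
        have h3 : D.natDegree + v.natDegree < D.natDegree + L' := by omega
        exact_mod_cast h3
  ext k
  rw [Set.mem_image, Finset.mem_coe, mem_filter]
  constructor
  · rintro ⟨v, hv, rfl⟩
    refine ⟨mem_Mn_iff.2 ?_, ?_⟩
    · exact lt_of_le_of_lt (degree_add_le _ _) (max_lt hrL ((hdeg v).2 hv))
    · have h1 : X ^ L + (r + D * v) - (X ^ L + r) %ₘ D =
          ((X ^ L + r) - (X ^ L + r) %ₘ D) + D * v := by ring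
      rw [h1]
      exact dvd_add hmod (dvd_mul_right _ _)
  · rintro ⟨hk, hdvd⟩
    have h1 : D ∣ (k - X ^ L) - r := by
      have h2 := dvd_sub hdvd hmod
      have h3 : k - (X ^ L + r) %ₘ D - ((X ^ L + r) - (X ^ L + r) %ₘ D) = (k - X ^ L) - r := by
        ring
      rwa [h3] at h2
    obtain ⟨v, hv⟩ := h1
    refine ⟨v, ?_, ?_⟩
    · rw [Set.mem_setOf_eq, ← hdeg, ← hv]
      have h2 : (k - X ^ L).degree < (L : WithBot ℕ) := by
        rw [← mem_Mn_iff, show X ^ L + (k - X ^ L) = k by ring]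
        exact hk
      exact lt_of_le_of_lt (degree_sub_le _ _) (max_lt h2 hrL)
    · change X ^ L + (r + D * v) = k
      rw [← hv]
      ring

theorem inj_class {D r : K[X]} (hD : D ≠ 0) (L : ℕ) :
    Function.Injective fun v : K[X] => X ^ L + (r + D * v) := fun u v h =>
  mul_left_cancel₀ hD (add_left_cancel (add_left_cancel h))

theorem const_le {A₀ A m : ℕ} (h : A₀ ≤ A) (hA : 1 ≤ A) (hm : 1 ≤ m) :
    2 * (((1 : ℕ) + 1 : ℝ) * Fintype.card K) ^ (A₀ * m) ≤ (Fintype.card K : ℝ) ^ (3 * A * m) := by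
  have hq : (2 : ℝ) ≤ (Fintype.card K : ℝ) := q_ge
  obtain ⟨q, hqd⟩ : ∃ q : ℝ, q = (Fintype.card K : ℝ) := ⟨_, rfl⟩
  rw [← hqd] at hq ⊢
  have h1 : (((1 : ℕ) + 1 : ℝ) * q) ^ (A₀ * m) ≤ (q ^ 2) ^ (A₀ * m) := by
    refine pow_le_pow_left₀ (by positivity) ?_ _
    push_cast
    nlinarith
  have h2 : (q ^ 2) ^ (A₀ * m) ≤ (q ^ 2) ^ (A * m) :=
    pow_le_pow_right₀ (by nlinarith) (Nat.mul_le_mul_right m h)
  have h3 : q ^ 1 ≤ q ^ (A * m) :=
    pow_le_pow_right₀ (by linarith) (Nat.mul_pos hA hm)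
  rw [pow_one] at h3
  calc 2 * (((1 : ℕ) + 1 : ℝ) * q) ^ (A₀ * m) ≤ q ^ (A * m) * (q ^ 2) ^ (A * m) :=
        mul_le_mul (hq.trans h3) (h1.trans h2) (by positivity) (by positivity)
    _ = q ^ (3 * A * m) := by
        rw [← pow_mul, ← pow_add]
        congr 1
        ring

end

end MnAux

/-- **Task TMN.** -/
theorem tmn : S_tmn := by
  intro hsw K _ _ ε hε
  obtain ⟨A₀, hA₀⟩ := hsw K 1 ε hε
  refine ⟨max A₀ 1, le_max_right _ _, ?_⟩
  intro n d m M h hM hcop hm hAn
  obtain ⟨L, hL⟩ : ∃ L, L = n - d := ⟨_, rfl⟩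
  rw [← hL]
  have hmax : A₀ * m ≤ max A₀ 1 * m := Nat.mul_le_mul_right m (le_max_left _ _)
  have hAL : A₀ * m ≤ L := by omega
  have hq : (2 : ℝ) ≤ (Fintype.card K : ℝ) := q_ge
  have hqn : 2 ≤ Fintype.card K := by exact_mod_cast hq
  obtain ⟨h1, h2, h3⟩ := hA₀ L m ((PU K m).filter (fun P => ¬ P ∣ M)) (fun _ => {0}) M
    (M * X ^ L + h) hm hAL (fun P hP => by
      rw [mem_filter, mem_PU] at hP
      obtain ⟨⟨a, b, c⟩, e⟩ := hP
      exact ⟨a, b, c, ((Irreducible.coprime_iff_not_dvd b).2 e).symm⟩) (fun P hP => by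
      rw [mem_filter, mem_PU] at hP
      obtain ⟨⟨a, b, c⟩, e⟩ := hP
      have h1 : 1 < Fintype.card K ^ P.natDegree := Nat.one_lt_pow b.natDegree_pos.ne' hqn
      refine ⟨by rw [card_singleton], by rw [card_singleton]; exact h1, fun r hr => ?_⟩
      rw [mem_singleton] at hr
      rw [hr, degree_zero]
      exact bot_lt_iff_ne_bot.2 (fun h0 => a.ne_zero (degree_eq_bot.1 h0)))
  have hV : ∏ P ∈ (PU K m).filter (fun P => ¬ P ∣ M),
      (1 - ((({0} : Finset K[X]).card : ℕ) : ℝ) / (Fintype.card K : ℝ) ^ P.natDegree) = VM M m := by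
    unfold VM
    refine prod_congr rfl fun P _ => ?_
    rw [card_singleton, Nat.cast_one]
  have hS := MnAux.image_sif (L := L) (m := m) hcop
  have hcard : ({u : K[X] | u.degree < (L : WithBot ℕ) ∧
      ∀ P ∈ (PU K m).filter (fun P => ¬ P ∣ M), ∀ r ∈ ({0} : Finset K[X]),
        ¬ P ∣ (M * X ^ L + h) + M * u - r} : Set K[X]).ncard = (Sf L m M h).card := by
    rw [← Set.ncard_image_of_injective _ (MnAux.inj_add (X ^ L)), hS, Set.ncard_coe_finset]
  rw [hV] at h1 h2 h3
  rw [hcard] at h1 h2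
  refine ⟨h1, h2, fun F B hF hB hcl => ?_⟩
  have h4 := h3 (fun u => F (X ^ L + u)) B (fun u => hF _) hB (fun D r L' hD _ hDL hDA hr => by
    have hcl' := hcl D ((X ^ L + r) %ₘ D) hD (hDA.trans hmax) (degree_modByMonic_lt _ hD)
    have h5 := finsum_mem_image (f := F) (s := {v : K[X] | v.degree < (L' : WithBot ℕ)})
      (g := fun v : K[X] => X ^ L + (r + D * v)) ((MnAux.inj_class hD.ne_zero L).injOn)
    rw [MnAux.image_class hD hDL hr, finsum_mem_coe_finset] at h5
    rw [h5] at hcl'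
    exact hcl')
  have h6 := finsum_mem_image (f := F) (s := {u : K[X] | u.degree < (L : WithBot ℕ) ∧
      ∀ P ∈ (PU K m).filter (fun P => ¬ P ∣ M), ∀ r ∈ ({0} : Finset K[X]),
        ¬ P ∣ (M * X ^ L + h) + M * u - r})
    (g := fun u : K[X] => X ^ L + u) ((MnAux.inj_add (X ^ L)).injOn)
  rw [hS, finsum_mem_coe_finset] at h6
  rw [h6]
  refine h4.trans ?_
  have h7 := mul_le_mul_of_nonneg_right
    (MnAux.const_le (K := K) (le_max_left A₀ 1) (le_max_right A₀ 1) hm) hB
  linarith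

end Pool.Agent.H604.OD
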