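import Pool.Agent.H604.OD.Stm
import Pool.Agent.H527.ME.Gen
import Pool.Agent.H527.ME.Big

/-!
# Task TSQF: few `M k + h` with the square of a large prime (helper323)
-/

set_option autoImplicit false

namespace Pool.Agent.H604.OD

open Polynomial Finset
open scoped Classical
open Pool.Agent.H694.Typ (Mn Irn wt mem_Mn card_Mn mem_Irn card_dvd_le q_ge wt_add wt_nonneg)
open Pool.Agent.H527.ME (S_div dv)
open Pool.Agent.H527.ME.Gen (sum_mul_eq)

namespace Sqf

variable {K : Type} [Field K] [Fintype K]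

theorem geo_wt (y t : ℕ) : ∑ p ∈ Ico (y + 1) (y + 1 + t), wt K p ≤ wt K y - wt K (y + t) := by
  induction t with
  | zero => simp
  | succ t ih =>
    rw [← add_assoc, Finset.sum_Ico_succ_top (by omega)]
    have hq := q_ge (k := K)
    have h1 : wt K (y + t + 1) * 2 ≤ wt K (y + t) := by
      have h2 : wt K (y + t + 1) = wt K (y + t) * (Fintype.card K : ℝ)⁻¹ := by
        rw [wt_add]
        unfold wt
        rw [pow_one]
      have h3 : (Fintype.card K : ℝ)⁻¹ ≤ 2⁻¹ := inv_anti₀ (by norm_num) hq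
      have h4 := wt_nonneg (k := K) (y + t)
      rw [h2]
      nlinarith
    have e1 : y + 1 + t = y + t + 1 := by omega
    have e2 : y + (t + 1) = y + t + 1 := by omega
    rw [e1] at ih
    rw [e1, e2]
    linarith

/-- the translation by `h` -/
theorem card_shift {n : ℕ} {A h : K[X]} (hA : A.Monic) (hh : h.natDegree < n) :
    (((Mn K n).filter (fun B => A ∣ B + h)).card : ℝ) ≤
      (Fintype.card K : ℝ) ^ n * wt K A.natDegree := by
  refine le_trans ?_ (card_dvd_le (n := n) hA)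
  have hdeg : ∀ B ∈ Mn K n, h.degree < B.degree := by
    intro B hB
    rw [mem_Mn] at hB
    rw [degree_eq_natDegree hB.1.ne_zero, hB.2]
    by_cases h0 : h = 0
    · rw [h0, degree_zero]
      exact WithBot.bot_lt_coe n
    · rw [degree_eq_natDegree h0]
      exact_mod_cast hh
  have h1 : ((Mn K n).filter (fun B => A ∣ B + h)).card ≤
      ((Mn K n).filter (fun f => A ∣ f)).card := by
    refine Finset.card_le_card_of_injOn (fun B => B + h) ?_ ?_
    · intro B hB
      have hB' := Finset.mem_filter.1 (Finset.mem_coe.1 hB)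
      refine Finset.mem_coe.2 (Finset.mem_filter.2 ⟨?_, hB'.2⟩)
      have hd := hdeg B hB'.1
      have hBm := mem_Mn.1 hB'.1
      rw [mem_Mn]
      refine ⟨hBm.1.add_of_left hd, ?_⟩
      rw [natDegree_add_eq_left_of_degree_lt hd, hBm.2]
    · intro B _ B' _ h2
      exact add_right_cancel h2
  exact_mod_cast h1

/-- the exceptional set -/
noncomputable def Sb (n y : ℕ) (h : K[X]) : Finset K[X] :=
  (Mn K n).filter (fun B => ∃ P : K[X], P.Monic ∧ Irreducible P ∧ y < P.natDegree ∧ P ^ 2 ∣ B + h)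

theorem card_Sb {n y : ℕ} {h : K[X]} (hh : h.natDegree < n) :
    ((Sb n y h).card : ℝ) ≤ (Fintype.card K : ℝ) ^ n * wt K y := by
  have hq := q_ge (k := K)
  have h1 : Sb n y h ⊆ (Finset.Ico (y + 1) (y + 1 + n)).biUnion fun p =>
      (Irn K p).biUnion fun P => (Mn K n).filter (fun B => P ^ 2 ∣ B + h) := by
    intro B hB
    obtain ⟨hBm, P, hP1, hP2, hP3, hP4⟩ := Finset.mem_filter.1 hB
    have hBn := mem_Mn.1 hBm
    have hd : h.degree < B.degree := by
      rw [degree_eq_natDegree hBn.1.ne_zero, hBn.2]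
      by_cases h0 : h = 0
      · rw [h0, degree_zero]
        exact WithBot.bot_lt_coe n
      · rw [degree_eq_natDegree h0]
        exact_mod_cast hh
    have h2 : (B + h).Monic := hBn.1.add_of_left hd
    have h3 : (B + h).natDegree = n := by
      rw [natDegree_add_eq_left_of_degree_lt hd, hBn.2]
    have h4 := natDegree_le_of_dvd hP4 h2.ne_zero
    rw [natDegree_pow, h3] at h4
    refine Finset.mem_biUnion.2 ⟨P.natDegree, ?_, Finset.mem_biUnion.2 ⟨P, mem_Irn.2 ⟨hP1, rfl, hP2⟩,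
      Finset.mem_filter.2 ⟨hBm, hP4⟩⟩⟩
    rw [Finset.mem_Ico]
    omega
  have h2 : ((Sb n y h).card : ℝ) ≤ ∑ p ∈ Finset.Ico (y + 1) (y + 1 + n),
      ∑ P ∈ Irn K p, (((Mn K n).filter (fun B => P ^ 2 ∣ B + h)).card : ℝ) := by
    have h3 := (Finset.card_le_card h1).trans (Finset.card_biUnion_le.trans
      (Finset.sum_le_sum fun p _ => Finset.card_biUnion_le))
    exact_mod_cast h3
  refine h2.trans ?_
  have h3 : ∀ p ∈ Finset.Ico (y + 1) (y + 1 + n),
      ∑ P ∈ Irn K p, (((Mn K n).filter (fun B => P ^ 2 ∣ B + h)).card : ℝ) ≤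
        (Fintype.card K : ℝ) ^ n * wt K p := by
    intro p _
    have h4 : ∀ P ∈ Irn K p, (((Mn K n).filter (fun B => P ^ 2 ∣ B + h)).card : ℝ) ≤
        (Fintype.card K : ℝ) ^ n * (wt K p * wt K p) := by
      intro P hP
      obtain ⟨a, b, -⟩ := mem_Irn.1 hP
      have h5 := card_shift (n := n) (A := P ^ 2) (a.pow 2) hh
      rw [natDegree_pow, b, two_mul, wt_add] at h5
      exact h5
    refine (Finset.sum_le_card_nsmul _ _ _ h4).trans ?_
    rw [nsmul_eq_mul]
    have h5 := Pool.Agent.H527.ME.Big.irn_le (K := K) p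
    have h6 : (Fintype.card K : ℝ) ^ p * wt K p = 1 := by
      unfold wt
      exact mul_inv_cancel₀ (by positivity)
    have h7 := wt_nonneg (k := K) p
    calc ((Irn K p).card : ℝ) * ((Fintype.card K : ℝ) ^ n * (wt K p * wt K p)) ≤
        (Fintype.card K : ℝ) ^ p * ((Fintype.card K : ℝ) ^ n * (wt K p * wt K p)) := by
          refine mul_le_mul_of_nonneg_right h5 (by positivity)
      _ = (Fintype.card K : ℝ) ^ n * wt K p * ((Fintype.card K : ℝ) ^ p * wt K p) := by ring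
      _ = (Fintype.card K : ℝ) ^ n * wt K p := by rw [h6, mul_one]
  refine (Finset.sum_le_sum h3).trans ?_
  rw [← Finset.mul_sum]
  refine mul_le_mul_of_nonneg_left ?_ (by positivity)
  have h4 := geo_wt (K := K) y n
  have h5 := wt_nonneg (k := K) (y + n)
  linarith

theorem sum_eq {n d y : ℕ} (hdn : d ≤ n) (h : K[X]) :
    ∑ M ∈ Mn K d, (((Mn K (n - d)).filter (fun k => ∃ P : K[X], P.Monic ∧ Irreducible P ∧
      y < P.natDegree ∧ P ^ 2 ∣ M * k + h)).card : ℝ) = ∑ B ∈ Sb n y h, (dv d B : ℝ) := by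
  have h1 : ∀ M ∈ Mn K d, (((Mn K (n - d)).filter (fun k => ∃ P : K[X], P.Monic ∧ Irreducible P ∧
      y < P.natDegree ∧ P ^ 2 ∣ M * k + h)).card : ℝ) = ∑ k ∈ Mn K (n - d),
      (if ∃ P : K[X], P.Monic ∧ Irreducible P ∧ y < P.natDegree ∧ P ^ 2 ∣ M * k + h
        then (1 : ℝ) else 0) := by
    intro M _
    rw [Finset.card_filter]
    push_cast
    rfl
  rw [Finset.sum_congr rfl h1]
  have h2 := sum_mul_eq (a := d) (b := n - d) (fun M k : K[X] =>
    (if ∃ P : K[X], P.Monic ∧ Irreducible P ∧ y < P.natDegree ∧ P ^ 2 ∣ M * k + h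
        then (1 : ℝ) else 0))
  rw [h2, Nat.add_sub_cancel' hdn]
  unfold Sb
  rw [Finset.sum_filter]
  refine Finset.sum_congr rfl fun B _ => ?_
  have h3 : ∀ M ∈ (Mn K d).filter (fun M => M ∣ B),
      (if ∃ P : K[X], P.Monic ∧ Irreducible P ∧ y < P.natDegree ∧ P ^ 2 ∣ M * (B / M) + h
        then (1 : ℝ) else 0) =
      (if ∃ P : K[X], P.Monic ∧ Irreducible P ∧ y < P.natDegree ∧ P ^ 2 ∣ B + h
        then (1 : ℝ) else 0) := by
    intro M hM
    rw [Finset.mem_filter] at hM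
    rw [EuclideanDomain.mul_div_cancel' (mem_Mn.1 hM.1).1.ne_zero hM.2]
  rw [Finset.sum_congr rfl h3, Finset.sum_const, nsmul_eq_mul]
  split_ifs
  · rw [mul_one]
    rfl
  · rw [mul_zero]

end Sqf

open Sqf

theorem tsqf : S_tsqf := by
  intro hdiv K _ _ n d y h hdn hh
  have hq := q_ge (k := K)
  rw [sum_eq hdn]
  have h1 : (∑ B ∈ Sb n y h, (dv d B : ℝ)) ^ 2 ≤
      ((Sb n y h).card : ℝ) * ∑ B ∈ Sb n y h, (dv d B : ℝ) ^ 2 := sq_sum_le_card_mul_sum_sq
  have h2 : ∑ B ∈ Sb n y h, (dv d B : ℝ) ^ 2 ≤ (d + 1) * (Fintype.card K : ℝ) ^ n := by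
    refine le_trans ?_ (hdiv K n d)
    exact Finset.sum_le_sum_of_subset_of_nonneg (Finset.filter_subset _ _) fun B _ _ => sq_nonneg _
  have h3 := card_Sb (K := K) (y := y) hh
  have h4 : (0 : ℝ) ≤ ∑ B ∈ Sb n y h, (dv d B : ℝ) := Finset.sum_nonneg fun B _ => Nat.cast_nonneg _
  have hq0 : (0 : ℝ) < (Fintype.card K : ℝ) := by linarith
  have h5 : ((Fintype.card K : ℝ) ^ ((n : ℝ) - (y : ℝ) / 2)) ^ 2 =
      ((Fintype.card K : ℝ) ^ n * wt K y) * (Fintype.card K : ℝ) ^ n := by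
    rw [← Real.rpow_natCast _ 2, ← Real.rpow_mul hq0.le]
    unfold wt
    rw [← Real.rpow_natCast _ n, ← Real.rpow_natCast _ y, ← Real.rpow_neg hq0.le,
      ← Real.rpow_add hq0, ← Real.rpow_add hq0]
    congr 1
    push_cast
    ring
  have h6 : (0 : ℝ) ≤ (Fintype.card K : ℝ) ^ ((n : ℝ) - (y : ℝ) / 2) := Real.rpow_nonneg hq0.le _
  have hd : (d : ℝ) ≤ n := by exact_mod_cast hdn
  have hd0 : (0 : ℝ) ≤ d := Nat.cast_nonneg _
  refine abs_le_of_sq_le_sq' ?_ (by positivity) |>.2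
  rw [mul_pow, h5]
  have hw := wt_nonneg (k := K) y
  calc (∑ B ∈ Sb n y h, (dv d B : ℝ)) ^ 2 ≤
      ((Sb n y h).card : ℝ) * ∑ B ∈ Sb n y h, (dv d B : ℝ) ^ 2 := h1
    _ ≤ ((Fintype.card K : ℝ) ^ n * wt K y) * ((d + 1) * (Fintype.card K : ℝ) ^ n) :=
      mul_le_mul h3 h2 (Finset.sum_nonneg fun B _ => sq_nonneg _) (by positivity)
    _ = (d + 1) * (((Fintype.card K : ℝ) ^ n * wt K y) * (Fintype.card K : ℝ) ^ n) := by ring
    _ ≤ ((n : ℝ) + 1) ^ 2 * (((Fintype.card K : ℝ) ^ n * wt K y) * (Fintype.card K : ℝ) ^ n) := by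
      refine mul_le_mul_of_nonneg_right ?_ (by positivity)
      nlinarith

end Pool.Agent.H604.OD
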