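import Pool.Agent.H604.OD.AsmG
import Pool.Agent.H604.OD.Cls
import Pool.Agent.H604.OD.Mn
import Pool.Agent.H604.OD.Ats
import Pool.Agent.H604.OD.Sqf
import Pool.Agent.H604.OD.Bad
import Pool.Agent.H251.SP.Final
import Pool.Agent.H527.ME.Pw
import Pool.Agent.H527.ME.Big
import Pool.Agent.H527.ME.Div
import Pool.Agent.H675.Par.SW
import Pool.Agent.H183.Par.BRUN
import Pool.Agent.H524.MT.Mert

/-!
# Project OD: the theorem (helper604)
-/

set_option autoImplicit false

namespace Pool.Agent.H604.OD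

theorem sw' : Pool.Agent.H985.Par.S_sw := Pool.Agent.H675.Par.sw Pool.Agent.H183.Par.brun

theorem bad : S_bad := tbad (tcls Pool.Agent.H251.SP.s_tii Pool.Agent.H527.ME.pw
  (Pool.Agent.H527.ME.big Pool.Agent.H527.ME.div'))

theorem level : S_levN :=
  levN (lev bad (tmn sw') (tats sw' Pool.Agent.H524.MT.mert) (tsqf Pool.Agent.H527.ME.div')
    (tvmb Pool.Agent.H524.MT.mert))

end Pool.Agent.H604.OD
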