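import Pool.Agent.H604.OD.Stm

/-!
# Project OD: the combinatorial part of the assembly (helper604)
-/

set_option autoImplicit false

namespace Pool.Agent.H604.OD

open Polynomial Finset
open scoped Classical
open Pool.Agent.H985.Chow (mob)
open Pool.Agent.H985.KP (PA)
open Pool.Agent.H694.Typ (Mn Irn PU mem_Mn mem_PU)

variable {K : Type} [Field K] [Fintype K]

theorem deg_Mn {m : ℕ} {F : K[X]} (hF : F ∈ Mn K m) : F.degree = m := by
  rw [mem_Mn] at hF
  rw [degree_eq_natDegree hF.1.ne_zero, hF.2]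

/-- `F = M k + h` -/
theorem mem_iff {n d : ℕ} {M h : K[X]} (hM : M ∈ Mn K d) (hh : h.degree < (n : WithBot ℕ))
    (hn : d ≤ n) (k : K[X]) : M * k + h ∈ Mn K n ↔ k ∈ Mn K (n - d) := by
  have hM' := hM
  rw [mem_Mn] at hM'
  constructor
  · intro hF
    have hFd := deg_Mn hF
    rw [mem_Mn] at hF
    have h2 : M * k = (M * k + h) - h := by ring
    have h1 : (M * k).Monic := by
      rw [h2]
      apply hF.1.sub_of_left
      rw [hFd]
      exact hh
    have hk : k.Monic := hM'.1.of_mul_monic_left h1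
    rw [mem_Mn]
    refine ⟨hk, ?_⟩
    have h3 : (M * k).natDegree = n := by
      have h4 : (M * k).degree = n := by
        rw [h2, degree_sub_eq_left_of_degree_lt]
        · exact hFd
        · rw [hFd]
          exact hh
      exact natDegree_eq_of_degree_eq_some h4
    rw [hM'.1.natDegree_mul hk, hM'.2] at h3
    omega
  · intro hk
    rw [mem_Mn] at hk
    have h1 : (M * k).Monic := hM'.1.mul hk.1
    have h2 : (M * k).natDegree = n := by
      rw [hM'.1.natDegree_mul hk.1, hM'.2, hk.2]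
      omega
    have h3 : (M * k).degree = n := by rw [degree_eq_natDegree h1.ne_zero, h2]
    have h4 : h.degree < (M * k).degree := by
      rw [h3]
      exact hh
    rw [mem_Mn]
    refine ⟨h1.add_of_left h4, ?_⟩
    apply natDegree_eq_of_degree_eq_some
    rw [degree_add_eq_left_of_degree_lt h4, h3]

/-- The `k` with `M k + h` squarefree and of the given parity. -/
noncomputable def Tb (b : Bool) (l m : ℕ) (M h : K[X]) : Finset K[X] :=
  (Sf l m M h).filter (fun k => Squarefree (M * k + h) ∧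
    (Odd (Multiset.card (UniqueFactorizationMonoid.factors (M * k + h))) ↔ b = true))

omit [Fintype K] in
theorem norm_irr {P : K[X]} (hP : Irreducible P) :
    (normalize P).Monic ∧ Irreducible (normalize P) ∧ (normalize P).natDegree = P.natDegree ∧
      (∀ F : K[X], normalize P ∣ F ↔ P ∣ F) := by
  have ha : Associated (normalize P) P := normalize_associated P
  refine ⟨monic_normalize hP.ne_zero, ha.symm.irreducible hP, ?_, fun F => ha.dvd_iff_dvd_left⟩
  exact natDegree_eq_of_degree_eq (degree_eq_degree_of_associated ha)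

theorem alp_ncard (b : Bool) {n d m : ℕ} {M h : K[X]} (hM : M ∈ Mn K d)
    (hh : h.degree < (n : WithBot ℕ)) (hn : d ≤ n) :
    (Alp b n m M h).ncard = (Tb b (n - d) m M h).card := by
  have hM0 : M ≠ 0 := (mem_Mn.1 hM).1.ne_zero
  have h1 : Alp b n m M h = (fun k => M * k + h) '' (Tb b (n - d) m M h : Set K[X]) := by
    ext F
    simp only [Alp, Set.mem_ofPred_eq, Set.mem_image, Finset.mem_coe, Tb, Sf, mem_filter]
    constructor
    · rintro ⟨hF, hFn, ⟨k, hk⟩, hsq, hP, hpar⟩
      have hFk : F = M * k + h := by rw [← hk]; ring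
      refine ⟨k, ⟨⟨?_, ?_⟩, ?_, ?_⟩, hFk.symm⟩
      · rw [← mem_iff hM hh hn, ← hFk, mem_Mn]
        exact ⟨hF, hFn⟩
      · intro P hPm hdvd
        rw [mem_PU] at hPm
        rw [← hFk] at hdvd
        have := hP P hPm.2.1 hdvd
        omega
      · rw [← hFk]; exact hsq
      · rw [← hFk]; exact hpar
    · rintro ⟨k, ⟨⟨hk, hkP⟩, hsq, hpar⟩, rfl⟩
      have h2 := (mem_iff hM hh hn k).2 hk
      rw [mem_Mn] at h2
      refine ⟨h2.1, h2.2, ⟨k, by ring⟩, hsq, ?_, hpar⟩
      intro P hP hdvd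
      by_contra hlt
      obtain ⟨n1, n2, n3, n4⟩ := norm_irr hP
      refine hkP (normalize P) ?_ ((n4 _).2 hdvd)
      rw [mem_PU]
      exact ⟨n1, n2, by omega⟩
  rw [h1, Set.ncard_image_of_injective, Set.ncard_coe_finset]
  intro k k' hkk
  simp only at hkk
  exact mul_left_cancel₀ hM0 (add_right_cancel hkk)

theorem sum_mob_eq (l m : ℕ) (M h : K[X]) :
    ∑ k ∈ Sf l m M h, (mob (M * k + h) : ℝ) =
      ((Tb false l m M h).card : ℝ) - ((Tb true l m M h).card : ℝ) := by
  unfold Tb
  rw [card_filter, card_filter, Nat.cast_sum, Nat.cast_sum, ← sum_sub_distrib]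
  refine sum_congr rfl fun k _ => ?_
  unfold mob
  by_cases hs : Squarefree (M * k + h)
  · by_cases ho : Odd (Multiset.card (UniqueFactorizationMonoid.factors (M * k + h)))
    · simp [hs, ho, ho.neg_one_pow]
    · have he := Nat.not_odd_iff_even.1 ho
      simp [hs, ho, he.neg_one_pow]
  · simp [hs]

theorem card_add_eq (l m : ℕ) (M h : K[X]) :
    ((Tb true l m M h).card : ℝ) + ((Tb false l m M h).card : ℝ) +
      (((Sf l m M h).filter (fun k => ¬ Squarefree (M * k + h))).card : ℝ) =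
      ((Sf l m M h).card : ℝ) := by
  unfold Tb
  rw [card_filter, card_filter, card_filter, Nat.cast_sum, Nat.cast_sum, Nat.cast_sum,
    ← sum_add_distrib, ← sum_add_distrib, card_eq_sum_ones, Nat.cast_sum]
  refine sum_congr rfl fun k _ => ?_
  by_cases hs : Squarefree (M * k + h)
  · by_cases ho : Odd (Multiset.card (UniqueFactorizationMonoid.factors (M * k + h)))
    · simp [hs, ho]
    · simp [hs, ho]
  · simp [hs]

theorem nonsq_le {n d : ℕ} (m : ℕ) {M h : K[X]} (hM : M ∈ Mn K d)
    (hh : h.degree < (n : WithBot ℕ)) (hn : d ≤ n) :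
    (Sf (n - d) m M h).filter (fun k => ¬ Squarefree (M * k + h)) ⊆
      (Mn K (n - d)).filter (fun k => ∃ P : K[X], P.Monic ∧ Irreducible P ∧
        m < P.natDegree ∧ P ^ 2 ∣ M * k + h) := by
  intro k hk
  rw [mem_filter] at hk
  obtain ⟨hkS, hns⟩ := hk
  unfold Sf at hkS
  rw [mem_filter] at hkS ⊢
  refine ⟨hkS.1, ?_⟩
  have hF := (mem_iff hM hh hn k).2 hkS.1
  rw [mem_Mn] at hF
  have hF0 : M * k + h ≠ 0 := hF.1.ne_zero
  unfold Squarefree at hns
  push Not at hns
  obtain ⟨x, hx, hxu⟩ := hns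
  have hx0 : x ≠ 0 := by
    rintro rfl
    rw [zero_mul, zero_dvd_iff] at hx
    exact hF0 hx
  obtain ⟨P, hP, hPx⟩ := WfDvdMonoid.exists_irreducible_factor hxu hx0
  obtain ⟨n1, n2, n3, n4⟩ := norm_irr hP
  have h1 : normalize P ∣ x := (n4 x).2 hPx
  have h2 : normalize P ^ 2 ∣ M * k + h := by
    rw [sq]
    exact (mul_dvd_mul h1 h1).trans hx
  refine ⟨normalize P, n1, n2, ?_, h2⟩
  by_contra hlt
  refine hkS.2 (normalize P) ?_ ((dvd_pow_self _ two_ne_zero).trans h2)
  rw [mem_PU]
  exact ⟨n1, n2, not_lt.1 hlt⟩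

end Pool.Agent.H604.OD
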