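import Pool.Agent.H604.OD.AsmA

/-!
# Project OD: assembly (helper604)
-/

set_option autoImplicit false

namespace Pool.Agent.H604.OD

open Polynomial Finset
open scoped Classical
open Pool.Agent.H985.Chow (mob)
open Pool.Agent.H985.KP (PA)
open Pool.Agent.H694.Typ (Mn Irn PU mem_Mn mem_PU)
open Pool.Agent.H527.ME (om S_pw S_big S_div)
open Pool.Agent.H524.MT (Pm S_mert)

/-- Exponentials beat linear functions. -/
theorem exp_beats (C a : ℝ) (ha : 0 < a) : ∃ n₀ : ℕ, 1 ≤ n₀ ∧ ∀ n : ℕ, n₀ ≤ n →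
    C * ((n : ℝ) + 1) ≤ (2 : ℝ) ^ (a * n) := by
  have h1 : Filter.Tendsto (fun n : ℕ => (n : ℝ) ^ 2 / (2 : ℝ) ^ (a * n)) Filter.atTop (nhds 0) := by
    have h2 := isLittleO_pow_exp_pos_mul_atTop (k := 2) (b := a * Real.log 2)
      (mul_pos ha (Real.log_pos one_lt_two))
    have h3 := (h2.tendsto_div_nhds_zero).comp tendsto_natCast_atTop_atTop
    refine h3.congr fun n => ?_
    simp only [Function.comp]
    rw [Real.rpow_def_of_pos (by norm_num : (0 : ℝ) < 2)]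
    congr 2
    ring
  have h4 := h1.eventually (gt_mem_nhds (show (0 : ℝ) < 1 / (2 * |C| + 1) by positivity))
  obtain ⟨n₁, hn₁⟩ := Filter.eventually_atTop.1 h4
  refine ⟨max n₁ 1, le_max_right _ _, fun n hn => ?_⟩
  have h5 := hn₁ n ((le_max_left _ _).trans hn)
  have hn1 : (1 : ℝ) ≤ n := by exact_mod_cast (le_max_right _ _).trans hn
  have hp : (0 : ℝ) < (2 : ℝ) ^ (a * n) := Real.rpow_pos_of_pos (by norm_num) _
  rw [div_lt_div_iff₀ hp (by positivity)] at h5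
  have h6 : C * ((n : ℝ) + 1) ≤ |C| * (2 * (n : ℝ) ^ 2) := by
    refine (mul_le_mul_of_nonneg_right (le_abs_self C) (by positivity)).trans
      (mul_le_mul_of_nonneg_left ?_ (abs_nonneg C))
    nlinarith
  have h7 : 0 ≤ (n : ℝ) ^ 2 := by positivity
  nlinarith [abs_nonneg C]

theorem core {O E S N W ε₁ : ℝ} (h1 : (1 - ε₁) * W ≤ S) (h2 : S ≤ (1 + ε₁) * W)
    (h3 : O + E + N = S) (h4 : |E - O| ≤ 3 * ε₁ * W) (h5 : 0 ≤ N) (h6 : N ≤ ε₁ * W) (hW : 0 < W)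
    (hε : 0 < ε₁) (hε' : ε₁ ≤ 1 / 16) (hO : 0 ≤ O) (hE : 0 ≤ E) :
    W / 4 ≤ O ∧ W / 4 ≤ E ∧ O ≤ 2 * W ∧ E ≤ 2 * W ∧ |O - E| ≤ 16 * ε₁ * O := by
  rw [abs_le] at h4
  have h7 : ε₁ * W ≤ 1 / 16 * W := mul_le_mul_of_nonneg_right hε' hW.le
  have h8 : W / 4 ≤ O := by nlinarith
  have h9 : W / 4 ≤ E := by nlinarith
  refine ⟨h8, h9, by nlinarith, by nlinarith, ?_⟩
  have h10 : ε₁ * (W / 4) ≤ ε₁ * O := mul_le_mul_of_nonneg_left h8 hε.le
  rw [abs_le]
  constructor <;> nlinarith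


/-- The typical part of the Möbius function. -/
noncomputable def Ft {K : Type} [Field K] [Fintype K] (z w : ℕ) (M h k : K[X]) : ℝ :=
  if om z w k ≠ 0 then (mob (M * k + h) : ℝ) else 0

theorem mob_abs {K : Type} [Field K] (F : K[X]) : |(mob F : ℝ)| ≤ 1 := by
  unfold mob
  split_ifs
  · push_cast
    rw [abs_neg_one_pow]
  · simp

theorem Ft_abs {K : Type} [Field K] [Fintype K] (z w : ℕ) (M h k : K[X]) : |Ft z w M h k| ≤ 1 := by
  unfold Ft
  split_ifs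
  · exact mob_abs _
  · simp

theorem fixedM {K : Type} [Field K] [Fintype K] {n d m z w : ℕ} {M h : K[X]} {ε₁ X₀ : ℝ}
    (hM : M ∈ Mn K d) (hh : h.degree < (n : WithBot ℕ)) (hn : d ≤ n) (hε : 0 < ε₁)
    (hε' : ε₁ ≤ 1 / 16) (hV : 0 < VM M m * (Fintype.card K : ℝ) ^ (n - d))
    (h1 : (1 - ε₁) * (VM M m * (Fintype.card K : ℝ) ^ (n - d)) ≤ ((Sf (n - d) m M h).card : ℝ))
    (h2 : ((Sf (n - d) m M h).card : ℝ) ≤ (1 + ε₁) * (VM M m * (Fintype.card K : ℝ) ^ (n - d)))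
    (h3 : |∑ k ∈ Sf (n - d) m M h, Ft z w M h k| ≤
      ε₁ * (VM M m * (Fintype.card K : ℝ) ^ (n - d)) + X₀)
    (hX : X₀ ≤ ε₁ * (VM M m * (Fintype.card K : ℝ) ^ (n - d)))
    (h4 : (((Sf (n - d) m M h).filter (fun k => om z w k = 0)).card : ℝ) ≤
      ε₁ * (VM M m * (Fintype.card K : ℝ) ^ (n - d)))
    (h5 : (((Mn K (n - d)).filter (fun k => ∃ P : K[X], P.Monic ∧ Irreducible P ∧
      m < P.natDegree ∧ P ^ 2 ∣ M * k + h)).card : ℝ) ≤
      ε₁ * (VM M m * (Fintype.card K : ℝ) ^ (n - d))) :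
    (∀ b : Bool, VM M m * (Fintype.card K : ℝ) ^ (n - d) / 4 ≤ ((Alp b n m M h).ncard : ℝ) ∧
      ((Alp b n m M h).ncard : ℝ) ≤ 2 * (VM M m * (Fintype.card K : ℝ) ^ (n - d))) ∧
    |((Alp true n m M h).ncard : ℝ) - ((Alp false n m M h).ncard : ℝ)| ≤
      16 * ε₁ * ((Alp true n m M h).ncard : ℝ) := by
  set W := VM M m * (Fintype.card K : ℝ) ^ (n - d) with hW
  rw [alp_ncard true hM hh hn, alp_ncard false hM hh hn]
  have e1 := card_add_eq (n - d) m M h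
  have e2 := sum_mob_eq (n - d) m M h
  have e3 : |∑ k ∈ Sf (n - d) m M h, (mob (M * k + h) : ℝ)| ≤ 3 * ε₁ * W := by
    have e4 : ∑ k ∈ Sf (n - d) m M h, (mob (M * k + h) : ℝ) =
        ∑ k ∈ Sf (n - d) m M h, Ft z w M h k +
          ∑ k ∈ (Sf (n - d) m M h).filter (fun k => om z w k = 0), (mob (M * k + h) : ℝ) := by
      rw [sum_filter, ← sum_add_distrib]
      refine sum_congr rfl fun k _ => ?_
      unfold Ft
      by_cases h : om z w k = 0
      · simp [h]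
      · simp [h]
    have e5 : |∑ k ∈ (Sf (n - d) m M h).filter (fun k => om z w k = 0), (mob (M * k + h) : ℝ)| ≤
        (((Sf (n - d) m M h).filter (fun k => om z w k = 0)).card : ℝ) := by
      refine (abs_sum_le_sum_abs _ _).trans ?_
      refine (sum_le_sum fun k _ => mob_abs (M * k + h)).trans ?_
      rw [sum_const, nsmul_eq_mul, mul_one]
    rw [e4]
    refine (abs_add_le _ _).trans ?_
    linarith
  have e6 : (((Sf (n - d) m M h).filter (fun k => ¬ Squarefree (M * k + h))).card : ℝ) ≤ ε₁ * W :=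
    le_trans (by exact_mod_cast card_le_card (nonsq_le m hM hh hn)) h5
  have e7 := core h1 h2 e1 (by rw [← e2]; exact e3) (Nat.cast_nonneg _) e6 hV hε hε'
    (Nat.cast_nonneg _) (Nat.cast_nonneg _)
  refine ⟨fun b => ?_, e7.2.2.2.2⟩
  cases b
  · rw [alp_ncard false hM hh hn]
    exact ⟨e7.2.1, e7.2.2.2.1⟩
  · rw [alp_ncard true hM hh hn]
    exact ⟨e7.1, e7.2.2.1⟩

end Pool.Agent.H604.OD
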