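import Pool.Agent.H604.OD.AsmB

/-!
# Project OD: assembly, second part (helper604)
-/

set_option autoImplicit false

namespace Pool.Agent.H604.OD

open Polynomial Finset
open scoped Classical
open Pool.Agent.H985.Chow (mob)
open Pool.Agent.H985.KP (PA)
open Pool.Agent.H694.Typ (Mn Irn PU mem_Mn mem_PU q_ge)
open Pool.Agent.H527.ME (om S_pw S_big S_div)
open Pool.Agent.H524.MT (Pm S_mert)

variable {K : Type} [Field K] [Fintype K]

theorem fac_pos {P : K[X]} (hP : Irreducible P) :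
    0 < 1 - 1 / (Fintype.card K : ℝ) ^ P.natDegree ∧
      1 - 1 / (Fintype.card K : ℝ) ^ P.natDegree ≤ 1 := by
  have hq := q_ge (k := K)
  have h1 : 1 ≤ P.natDegree := Irreducible.natDegree_pos hP
  have h2 : (2 : ℝ) ≤ (Fintype.card K : ℝ) ^ P.natDegree := by
    calc (2 : ℝ) ≤ (Fintype.card K : ℝ) := hq
      _ = (Fintype.card K : ℝ) ^ 1 := (pow_one _).symm
      _ ≤ (Fintype.card K : ℝ) ^ P.natDegree := pow_le_pow_right₀ (by linarith) h1
  have h3 : 1 / (Fintype.card K : ℝ) ^ P.natDegree ≤ 1 / 2 :=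
    one_div_le_one_div_of_le (by norm_num) h2
  have h4 : 0 ≤ 1 / (Fintype.card K : ℝ) ^ P.natDegree := by positivity
  constructor <;> linarith

theorem VM_pos (M : K[X]) (m : ℕ) : 0 < VM M m := by
  unfold VM
  refine prod_pos fun P hP => ?_
  rw [mem_filter, mem_PU] at hP
  exact (fac_pos hP.1.2.1).1

theorem PA_fin {M : K[X]} (hM : M ≠ 0) : (PA M).Finite := by
  refine (Finset.finite_toSet (PU K M.natDegree)).subset ?_
  rintro P ⟨h1, h2, h3⟩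
  rw [Finset.mem_coe, mem_PU]
  exact ⟨h1, h2, natDegree_le_of_dvd h3 hM⟩

theorem Pm_bd {M : K[X]} (hM : M ≠ 0) : 0 < Pm M ∧ Pm M ≤ 1 := by
  unfold Pm
  rw [finprod_mem_eq_finite_toFinset_prod _ (PA_fin hM)]
  constructor
  · refine prod_pos fun P hP => ?_
    rw [Set.Finite.mem_toFinset] at hP
    exact (fac_pos hP.2.1).1
  · refine prod_le_one (fun P hP => ?_) fun P hP => ?_
    · rw [Set.Finite.mem_toFinset] at hP
      exact (fac_pos hP.2.1).1.le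
    · rw [Set.Finite.mem_toFinset] at hP
      exact (fac_pos hP.2.1).2

theorem phi_eq (M : K[X]) : phi M = (Fintype.card K : ℝ) ^ M.natDegree * Pm M := rfl

omit [Field K] in
theorem rpow_sub_nat {n d : ℕ} (h : d ≤ n) :
    (Fintype.card K : ℝ) ^ (n - d) = (Fintype.card K : ℝ) ^ ((n : ℝ) - d) := by
  rw [← Real.rpow_natCast, Nat.cast_sub h]

/-- The numerical facts. -/
theorem nums {ε δb c0 c2 κ : ℝ} {Aa Am n d z w m : ℕ} (hε : 0 < ε) (hAa : 1 ≤ Aa) (hAm : 1 ≤ Am)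
    (hc2 : 0 < c2) (hc2a : Aa * c2 ≤ ε) (hc0 : 0 < c0) (hc0b : 4 * c0 ≤ c2) (hκ : 0 < κ)
    (hκε : 12 * Am * κ ≤ ε) (hκδ : 12 * Am * κ ≤ δb) (hκc : 12 * Am * κ ≤ c0) (hn0 : 0 < (n : ℝ))
    (G4 : 1 * ((n : ℝ) + 1) ≤ 2 ^ (κ / 2 * n)) (G6 : 4 ≤ κ * n) (G7 : 1 ≤ c0 * n)
    (G8 : 2 ≤ c2 * n) (hd : (d : ℝ) ≤ (1 - ε) * n) (hz : z = ⌈c0 * n⌉₊) (hw : w = ⌊c2 * n⌋₊)
    (hmm : m = ⌊κ * n⌋₊) :
    (c0 * n ≤ z ∧ (z : ℝ) ≤ 2 * c0 * n ∧ (w : ℝ) ≤ c2 * n ∧ c2 * n / 2 ≤ w ∧ (m : ℝ) ≤ κ * n ∧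
      κ * n - 1 ≤ m) ∧ 1 ≤ m ∧ m < z ∧ z ≤ w ∧ Aa * w + d ≤ n ∧ d + w ≤ n ∧ Am * m + d ≤ n ∧
      12 * ((Am : ℝ) * m) ≤ δb * n ∧ n ≤ 2 ^ m ∧ n ≤ 2 ^ z := by
  have hAa' : (1 : ℝ) ≤ Aa := by exact_mod_cast hAa
  have hAm' : (1 : ℝ) ≤ Am := by exact_mod_cast hAm
  have hz1 : c0 * n ≤ z := by rw [hz]; exact Nat.le_ceil _
  have hz2 : (z : ℝ) ≤ 2 * c0 * n := by
    have := (Nat.ceil_lt_add_one (show 0 ≤ c0 * n by positivity)).le
    rw [← hz] at this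
    linarith
  have hw1 : (w : ℝ) ≤ c2 * n := by rw [hw]; exact Nat.floor_le (by positivity)
  have hw2 : c2 * n / 2 ≤ w := by
    have := (Nat.lt_floor_add_one (c2 * n)).le
    rw [← hw] at this
    linarith
  have hm1 : (m : ℝ) ≤ κ * n := by rw [hmm]; exact Nat.floor_le (by positivity)
  have hm2 : κ * n - 1 ≤ m := by
    have := (Nat.lt_floor_add_one (κ * n)).le
    rw [← hmm] at this
    linarith
  have hm3 : (3 : ℝ) ≤ m := by linarith
  have hm4 : 1 ≤ m := by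
    have : (1 : ℝ) ≤ m := by linarith
    exact_mod_cast this
  have hmz : m < z := by
    have h1 : 12 * Am * κ * n ≤ c0 * n := mul_le_mul_of_nonneg_right hκc hn0.le
    have h2 : 1 * (κ * n) ≤ Am * (κ * n) :=
      mul_le_mul_of_nonneg_right hAm' (by positivity)
    have h3 : (m : ℝ) < z := by linarith
    exact_mod_cast h3
  have hzw : z ≤ w := by
    have h1 : 4 * c0 * n ≤ c2 * n := mul_le_mul_of_nonneg_right hc0b hn0.le
    have h3 : (z : ℝ) ≤ w := by linarith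
    exact_mod_cast h3
  have hAw : Aa * w + d ≤ n := by
    have h1 : (Aa : ℝ) * w ≤ Aa * (c2 * n) := mul_le_mul_of_nonneg_left hw1 (by positivity)
    have h2 : (Aa : ℝ) * c2 * n ≤ ε * n := mul_le_mul_of_nonneg_right hc2a hn0.le
    have h3 : (Aa : ℝ) * w + d ≤ n := by linarith
    exact_mod_cast h3
  have hdw : d + w ≤ n := by
    have : w ≤ Aa * w := Nat.le_mul_of_pos_left w (by omega)
    omega
  have hAmm : (Am : ℝ) * m ≤ Am * κ * n := by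
    have := mul_le_mul_of_nonneg_left hm1 (by positivity : (0 : ℝ) ≤ Am)
    linarith
  have hAmn : Am * m + d ≤ n := by
    have h2 : 12 * (Am : ℝ) * κ * n ≤ ε * n := mul_le_mul_of_nonneg_right hκε hn0.le
    have h4 : 0 ≤ (Am : ℝ) * κ * n := by positivity
    have h3 : (Am : ℝ) * m + d ≤ n := by linarith
    exact_mod_cast h3
  have hAmδ : 12 * ((Am : ℝ) * m) ≤ δb * n := by
    have h2 : 12 * (Am : ℝ) * κ * n ≤ δb * n := mul_le_mul_of_nonneg_right hκδ hn0.le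
    linarith
  have hn2m : n ≤ 2 ^ m := by
    have h1 : (2 : ℝ) ^ (κ / 2 * n) ≤ (2 : ℝ) ^ (m : ℝ) :=
      Real.rpow_le_rpow_of_exponent_le (by norm_num) (by linarith)
    rw [Real.rpow_natCast] at h1
    have h2 : (n : ℝ) ≤ (2 : ℝ) ^ m := by linarith
    exact_mod_cast h2
  exact ⟨⟨hz1, hz2, hw1, hw2, hm1, hm2⟩, hm4, hmz, hzw, hAw, hdw, hAmn, hAmδ, hn2m,
    hn2m.trans (Nat.pow_le_pow_right (by norm_num) hmz.le)⟩

/-- The number of the exceptional `M`. -/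
theorem exc_card {q δb κ n d m : ℝ} (hq : 2 ≤ q) (hn : 0 < n) (hδb : 0 < δb) (hκ : 0 < κ)
    (G1 : 2 * (n + 1) ≤ 2 ^ (κ / 8 * n)) (G5 : 2 * (n + 1) ≤ 2 ^ (δb / 2 * n)) (G6 : 4 ≤ κ * n)
    (hm : κ * n - 1 ≤ m) :
    q ^ (d - δb * n) + (n + 1) * q ^ (d - m / 4) ≤ q ^ (d - min (δb / 2) (κ / 16) * n) := by
  have hq0 : 0 < q := by linarith
  set δ := min (δb / 2) (κ / 16) with hδ
  have h1 : δ ≤ δb / 2 := min_le_left _ _
  have h2 : δ ≤ κ / 16 := min_le_right _ _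
  have hP : 0 < q ^ (d - δ * n) := Real.rpow_pos_of_pos hq0 _
  have h3 : q ^ (d - δb * n) ≤ 1 / 2 * q ^ (d - δ * n) := by
    have e1 : q ^ (d - δ * n) = q ^ (d - δb * n) * q ^ ((δb - δ) * n) := by
      rw [← Real.rpow_add hq0]
      congr 1
      ring
    have e2 : (2 : ℝ) ≤ q ^ ((δb - δ) * n) := by
      calc (2 : ℝ) ≤ 2 * (n + 1) := by linarith
        _ ≤ 2 ^ (δb / 2 * n) := G5
        _ ≤ 2 ^ ((δb - δ) * n) :=
            Real.rpow_le_rpow_of_exponent_le (by norm_num)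
              (mul_le_mul_of_nonneg_right (by linarith) hn.le)
        _ ≤ q ^ ((δb - δ) * n) :=
            Real.rpow_le_rpow (by norm_num) hq (mul_nonneg (by linarith) hn.le)
    rw [e1]
    have e3 : 0 < q ^ (d - δb * n) := Real.rpow_pos_of_pos hq0 _
    nlinarith
  have h4 : (n + 1) * q ^ (d - m / 4) ≤ 1 / 2 * q ^ (d - δ * n) := by
    have e1 : q ^ (d - δ * n) = q ^ (d - m / 4) * q ^ (m / 4 - δ * n) := by
      rw [← Real.rpow_add hq0]
      congr 1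
      ring
    have e0 : δ * n ≤ κ / 16 * n := mul_le_mul_of_nonneg_right h2 hn.le
    have e4 : κ / 8 * n ≤ m / 4 - δ * n := by linarith
    have e2 : 2 * (n + 1) ≤ q ^ (m / 4 - δ * n) := by
      calc 2 * (n + 1) ≤ 2 ^ (κ / 8 * n) := G1
        _ ≤ 2 ^ (m / 4 - δ * n) := Real.rpow_le_rpow_of_exponent_le (by norm_num) e4
        _ ≤ q ^ (m / 4 - δ * n) :=
            Real.rpow_le_rpow (by norm_num) hq (le_trans (by positivity) e4)
    rw [e1]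
    have e3 : 0 < q ^ (d - m / 4) := Real.rpow_pos_of_pos hq0 _
    nlinarith
  linarith

/-- `q ^ (l - x)` is small compared to `(c_v / m) q ^ l`. -/
theorem small {q ε₁ cv n m l x y : ℝ} (hq : 2 ≤ q) (hn : 0 < n) (hε₁ : 0 < ε₁) (hcv : 0 < cv)
    (hm0 : 0 < m) (hmn : m ≤ n) (G : 1 / (ε₁ * cv) * (n + 1) ≤ 2 ^ y) (hy : y ≤ x) (hy0 : 0 ≤ y) :
    q ^ (l - x) ≤ ε₁ * (cv / m * q ^ l) := by
  have hq0 : 0 < q := by linarith
  have e1 : q ^ l = q ^ (l - x) * q ^ x := by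
    rw [← Real.rpow_add hq0]
    congr 1
    ring
  have e2 : 1 / (ε₁ * cv) * (n + 1) ≤ q ^ x := by
    calc 1 / (ε₁ * cv) * (n + 1) ≤ 2 ^ y := G
      _ ≤ 2 ^ x := Real.rpow_le_rpow_of_exponent_le (by norm_num) hy
      _ ≤ q ^ x := Real.rpow_le_rpow (by norm_num) hq (hy0.trans hy)
  have e3 : 0 < q ^ (l - x) := Real.rpow_pos_of_pos hq0 _
  have e4 : m ≤ ε₁ * cv * q ^ x := by
    rw [one_div_mul_eq_div, div_le_iff₀ (by positivity)] at e2
    linarith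
  rw [e1]
  have e5 : ε₁ * (cv / m * (q ^ (l - x) * q ^ x)) = (ε₁ * cv * q ^ x / m) * q ^ (l - x) := by
    field_simp
  rw [e5]
  have e6 : 1 ≤ ε₁ * cv * q ^ x / m := by
    rw [le_div_iff₀ hm0]
    linarith
  nlinarith

end Pool.Agent.H604.OD
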