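import Pool.Agent.H604.OD.AsmC

/-!
# Project OD: assembly, third part (helper604)
-/

set_option autoImplicit false

namespace Pool.Agent.H604.OD

open Polynomial Finset
open scoped Classical
open Pool.Agent.H985.Chow (mob)
open Pool.Agent.H985.KP (PA)
open Pool.Agent.H694.Typ (Mn Irn PU mem_Mn mem_PU q_ge)
open Pool.Agent.H527.ME (om S_pw S_big S_div)
open Pool.Agent.H524.MT (Pm S_mert)

/-- The `M` with many `k` such that `M k + h` is divisible by the square of a large prime. -/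
noncomputable def Sq (K : Type) [Field K] [Fintype K] (n d m : ℕ) (h : K[X]) : Finset K[X] :=
  (Mn K d).filter (fun M => (Fintype.card K : ℝ) ^ ((n : ℝ) - d - m / 4) <
    (((Mn K (n - d)).filter (fun k => ∃ P : K[X], P.Monic ∧ Irreducible P ∧
      m < P.natDegree ∧ P ^ 2 ∣ M * k + h)).card : ℝ))

theorem sq_card {K : Type} [Field K] [Fintype K] {n d m : ℕ} {h : K[X]} (hs : S_sqf) (hdn : d ≤ n)
    (hhn : h.natDegree < n) :
    ((Sq K n d m h).card : ℝ) ≤ ((n : ℝ) + 1) * (Fintype.card K : ℝ) ^ ((d : ℝ) - m / 4) := by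
  have hq2 := q_ge (k := K)
  have hq0 : (0 : ℝ) < (Fintype.card K : ℝ) := by linarith
  have h1 := hs K n d m h hdn hhn
  have h2 : ((Sq K n d m h).card : ℝ) * (Fintype.card K : ℝ) ^ ((n : ℝ) - d - m / 4) ≤
      ((n : ℝ) + 1) * (Fintype.card K : ℝ) ^ ((n : ℝ) - (m : ℝ) / 2) := by
    refine le_trans ?_ h1
    rw [← nsmul_eq_mul]
    refine le_trans (card_nsmul_le_sum (Sq K n d m h) (fun M =>
      (((Mn K (n - d)).filter (fun k => ∃ P : K[X], P.Monic ∧ Irreducible P ∧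
        m < P.natDegree ∧ P ^ 2 ∣ M * k + h)).card : ℝ)) _ ?_) ?_
    · intro M hM
      unfold Sq at hM
      rw [mem_filter] at hM
      exact hM.2.le
    · refine sum_le_sum_of_subset_of_nonneg (filter_subset _ _) ?_
      intro i _ _
      exact Nat.cast_nonneg _
  have h3 : (Fintype.card K : ℝ) ^ ((n : ℝ) - (m : ℝ) / 2) =
      (Fintype.card K : ℝ) ^ ((d : ℝ) - m / 4) * (Fintype.card K : ℝ) ^ ((n : ℝ) - d - m / 4) := by
    rw [← Real.rpow_add hq0]
    congr 1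
    ring
  rw [h3, ← mul_assoc] at h2
  exact le_of_mul_le_mul_right h2 (Real.rpow_pos_of_pos hq0 _)

theorem asm : S_asm := by
  intro hb hm ha hs hv K _ _ _ ε ε₀ hε hε₀
  have hq2 := q_ge (k := K)
  set q : ℝ := (Fintype.card K : ℝ) with hq
  have hq1 : (1 : ℝ) ≤ q := by linarith
  have hq0 : (0 : ℝ) < q := by linarith
  obtain ⟨Ca, Aa, hCa, hAa, Hat⟩ := ha K
  obtain ⟨cv, Cv, hcv, hCv, Hv⟩ := hv K
  obtain ⟨ε₁, hε₁, hε₁16, hε₁0⟩ : ∃ ε₁ : ℝ, 0 < ε₁ ∧ ε₁ ≤ 1 / 16 ∧ 16 * ε₁ ≤ ε₀ := by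
    refine ⟨min ε₀ 1 / 16, by positivity, ?_, ?_⟩
    · have := min_le_right ε₀ 1
      linarith
    · have := min_le_left ε₀ 1
      linarith
  obtain ⟨Am, hAm, Hm⟩ := hm K ε₁ hε₁
  have hAa' : (1 : ℝ) ≤ Aa := by exact_mod_cast hAa
  have hAm' : (1 : ℝ) ≤ Am := by exact_mod_cast hAm
  obtain ⟨c2, hc2, hc2a, hc2b⟩ : ∃ c2 : ℝ, 0 < c2 ∧ Aa * c2 ≤ ε ∧ c2 ≤ 1 / 8 := by
    refine ⟨min (ε / Aa) (1 / 8), lt_min (by positivity) (by norm_num), ?_, min_le_right _ _⟩
    calc (Aa : ℝ) * min (ε / Aa) (1 / 8) ≤ Aa * (ε / Aa) :=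
          mul_le_mul_of_nonneg_left (min_le_left _ _) (by positivity)
      _ = ε := by field_simp
  obtain ⟨c0, hc0, hc0a, hc0b⟩ : ∃ c0 : ℝ, 0 < c0 ∧ 4 * Ca * c0 ≤ ε₁ * c2 ∧ 4 * c0 ≤ c2 := by
    refine ⟨min (ε₁ * c2 / (4 * Ca)) (c2 / 4), lt_min (by positivity) (by positivity), ?_, ?_⟩
    · calc 4 * Ca * min (ε₁ * c2 / (4 * Ca)) (c2 / 4) ≤ 4 * Ca * (ε₁ * c2 / (4 * Ca)) :=
            mul_le_mul_of_nonneg_left (min_le_left _ _) (by positivity)
        _ = ε₁ * c2 := by field_simp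
    · have := min_le_right (ε₁ * c2 / (4 * Ca)) (c2 / 4)
      linarith
  obtain ⟨δb, hδb, nb, Hb⟩ := hb K (1 / 8) c0 (by norm_num) hc0
  obtain ⟨κ, hκ, hκε, hκδ, hκc⟩ : ∃ κ : ℝ, 0 < κ ∧ 12 * Am * κ ≤ ε ∧ 12 * Am * κ ≤ δb ∧
      12 * Am * κ ≤ c0 := by
    refine ⟨min (min ε δb) c0 / (12 * Am), div_pos (lt_min (lt_min hε hδb) hc0) (by positivity),
      ?_, ?_, ?_⟩ <;> rw [mul_div_cancel₀ _ (by positivity : (12 : ℝ) * Am ≠ 0)]
    · exact (min_le_left _ _).trans (min_le_left _ _)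
    · exact (min_le_left _ _).trans (min_le_right _ _)
    · exact min_le_right _ _
  obtain ⟨n1, -, H1⟩ := exp_beats 2 (κ / 8) (by positivity)
  obtain ⟨n2, -, H2⟩ := exp_beats (1 / (ε₁ * cv)) (κ / 8) (by positivity)
  obtain ⟨n3, -, H3⟩ := exp_beats (1 / (ε₁ * cv)) (δb / 2) (by positivity)
  obtain ⟨n4, -, H4⟩ := exp_beats 1 (κ / 2) (by positivity)
  obtain ⟨n5, -, H5⟩ := exp_beats 2 (δb / 2) (by positivity)
  obtain ⟨n6, hn6⟩ := exists_nat_ge (4 / κ)
  obtain ⟨n7, hn7⟩ := exists_nat_ge (1 / c0)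
  obtain ⟨n8, hn8⟩ := exists_nat_ge (2 / c2)
  refine ⟨κ, cv / (4 * κ), 4 * Cv / κ, min (δb / 2) (κ / 16), hκ, by positivity, by positivity,
    lt_min (by positivity) (by positivity),
    1 + nb + n1 + n2 + n3 + n4 + n5 + n6 + n7 + n8, ?_⟩
  intro n hn d h hd hh0 hhn
  have hnpos : 1 ≤ n := by omega
  have hn1 : (1 : ℝ) ≤ n := by exact_mod_cast hnpos
  have hn0 : (0 : ℝ) < n := by linarith
  have G1 := H1 n (by omega)
  have G2 := H2 n (by omega)
  have G3 := H3 n (by omega)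
  have G4 := H4 n (by omega)
  have G5 := H5 n (by omega)
  have G6 : 4 ≤ κ * n := by
    have h1 : 4 / κ ≤ n := hn6.trans (by exact_mod_cast (by omega : n6 ≤ n))
    rw [div_le_iff₀ hκ] at h1
    linarith
  have G7 : 1 ≤ c0 * n := by
    have h1 : 1 / c0 ≤ n := hn7.trans (by exact_mod_cast (by omega : n7 ≤ n))
    rw [div_le_iff₀ hc0] at h1
    linarith
  have G8 : 2 ≤ c2 * n := by
    have h1 : 2 / c2 ≤ n := hn8.trans (by exact_mod_cast (by omega : n8 ≤ n))
    rw [div_le_iff₀ hc2] at h1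
    linarith
  have hdn' : (d : ℝ) ≤ n := by nlinarith
  have hdn : d ≤ n := by exact_mod_cast hdn'
  have hhdeg : h.degree < (n : WithBot ℕ) := by
    rw [degree_eq_natDegree hh0]
    exact_mod_cast hhn
  obtain ⟨z, hz⟩ : ∃ z : ℕ, z = ⌈c0 * n⌉₊ := ⟨_, rfl⟩
  obtain ⟨w, hw⟩ : ∃ w : ℕ, w = ⌊c2 * n⌋₊ := ⟨_, rfl⟩
  obtain ⟨m, hmm⟩ : ∃ m : ℕ, m = ⌊κ * n⌋₊ := ⟨_, rfl⟩
  obtain ⟨⟨hz1, hz2, hw1, hw2, hm1, hm2⟩, hm4, hmz, hzw, hAw, hdw, hAmn, hAmδ, hn2m, hn2z⟩ :=
    nums hε hAa hAm hc2 hc2a hc0 hc0b hκ hκε hκδ hκc hn0 G4 G6 G7 G8 hd hz hw hmm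
  rw [← hmm]
  have hw3 : (w : ℝ) ≤ (1 / 4 - 1 / 8) * n := by
    have := mul_le_mul_of_nonneg_right hc2b hn0.le
    linarith
  have hBad := Hb n (by omega) d z w h hz1 hdw hw3 hh0 hhn
  set Bad := (Mn K d).filter (fun M => ∃ D r : K[X], D.Monic ∧ (D.natDegree : ℝ) ≤ δb * n ∧
        r.degree < D.degree ∧ q ^ ((n : ℝ) - d - δb * n) <
          |∑ k ∈ (Mn K (n - d)).filter (fun k => om z w k ≠ 0 ∧ D ∣ k - r),
            (mob (M * k + h) : ℝ)|) with hBaddef
  have hsqc := sq_card (K := K) (n := n) (d := d) (m := m) (h := h) hs hdn hhn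
  refine ⟨((Bad ∪ Sq K n d m h : Finset K[X]) : Set K[X]), ?_, Finset.finite_toSet _, ?_⟩
  · rw [Set.ncard_coe_finset]
    have e1 : (((Bad ∪ Sq K n d m h).card : ℕ) : ℝ) ≤ (Bad.card : ℝ) + ((Sq K n d m h).card : ℝ) := by
      exact_mod_cast card_union_le _ _
    refine e1.trans ((add_le_add hBad hsqc).trans ?_)
    exact exc_card hq2 hn0 hδb hκ G1 G5 G6 hm2
  · intro M hMm hMd hcop hMexc
    have hM : M ∈ Mn K d := mem_Mn.2 ⟨hMm, hMd⟩
    have hM0 : M ≠ 0 := hMm.ne_zero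
    rw [Finset.mem_coe, mem_union, not_or] at hMexc
    obtain ⟨hnB, hnS⟩ := hMexc
    have hm0 : (0 : ℝ) < m := by exact_mod_cast hm4
    have hmn : (m : ℝ) ≤ n := by
      have : m ≤ Am * m := Nat.le_mul_of_pos_left m (by omega)
      have h2 : m ≤ n := by omega
      exact_mod_cast h2
    obtain ⟨hv1, hv2⟩ := Hv m M hm4 hMm (by omega)
    obtain ⟨hP0, hP1⟩ := Pm_bd hM0
    have hVp := VM_pos M m
    have hVge : cv / m ≤ VM M m := hv1.trans (mul_le_of_le_one_right hVp.le hP1)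
    have hqn : (0 : ℝ) < q ^ (n - d) := by positivity
    have hWp : 0 < VM M m * q ^ (n - d) := mul_pos hVp hqn
    have hql : q ^ (n - d) = q ^ ((n : ℝ) - d) := rpow_sub_nat hdn
    have hWge : cv / m * q ^ ((n : ℝ) - d) ≤ VM M m * q ^ (n - d) := by
      rw [← hql]
      exact mul_le_mul_of_nonneg_right hVge hqn.le
    have hX : q ^ (3 * Am * m) * q ^ ((n : ℝ) - d - δb * n) ≤ ε₁ * (VM M m * q ^ (n - d)) := by
      have e1 : q ^ (3 * Am * m) * q ^ ((n : ℝ) - d - δb * n) =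
          q ^ (((n : ℝ) - d) - (δb * n - 3 * (Am * m))) := by
        rw [← Real.rpow_natCast, ← Real.rpow_add hq0]
        congr 1
        push_cast
        ring
      rw [e1]
      have hAm0 : 0 ≤ (Am : ℝ) * m := by positivity
      refine (small hq2 hn0 hε₁ hcv hm0 hmn G3 (by linarith) (by positivity)).trans ?_
      exact mul_le_mul_of_nonneg_left hWge hε₁.le
    have hS : q ^ ((n : ℝ) - d - m / 4) ≤ ε₁ * (VM M m * q ^ (n - d)) := by
      refine (small hq2 hn0 hε₁ hcv hm0 hmn G2 (by linarith) (by positivity)).trans ?_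
      exact mul_le_mul_of_nonneg_left hWge hε₁.le
    have hnS' : (((Mn K (n - d)).filter (fun k => ∃ P : K[X], P.Monic ∧ Irreducible P ∧
        m < P.natDegree ∧ P ^ 2 ∣ M * k + h)).card : ℝ) ≤ ε₁ * (VM M m * q ^ (n - d)) := by
      refine le_trans ?_ hS
      by_contra hlt
      refine hnS ?_
      unfold Sq
      rw [mem_filter]
      exact ⟨hM, not_le.1 hlt⟩
    have hFD : ∀ D r : K[X], D.Monic → D.natDegree ≤ Am * m → r.degree < D.degree →
        |∑ k ∈ (Mn K (n - d)).filter (fun k => D ∣ k - r), Ft z w M h k| ≤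
          q ^ ((n : ℝ) - d - δb * n) := by
      intro D r hD hDd hr
      by_contra hlt
      refine hnB ?_
      rw [hBaddef, mem_filter]
      refine ⟨hM, D, r, hD, ?_, hr, ?_⟩
      · have h1 : (D.natDegree : ℝ) ≤ Am * m := by exact_mod_cast hDd
        have hAm0 : 0 ≤ (Am : ℝ) * m := by positivity
        linarith
      · have e1 : ∑ k ∈ (Mn K (n - d)).filter (fun k => om z w k ≠ 0 ∧ D ∣ k - r),
            (mob (M * k + h) : ℝ) = ∑ k ∈ (Mn K (n - d)).filter (fun k => D ∣ k - r),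
              Ft z w M h k := by
          rw [sum_filter, sum_filter]
          refine sum_congr rfl fun k _ => ?_
          unfold Ft
          by_cases h1 : om z w k = 0 <;> by_cases h2 : D ∣ k - r <;> simp [h1, h2]
        rw [e1]
        exact not_le.1 hlt
    obtain ⟨hs1, hs2, hs3⟩ := Hm n d m M h hM hcop hm4 hAmn
    have hs4 := hs3 (Ft z w M h) (q ^ ((n : ℝ) - d - δb * n)) (Ft_abs z w M h)
      (Real.rpow_nonneg hq0.le _) hFD
    have hat := Hat n d m z w M h hM hcop hm4 hmz hzw hAw hn2z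
    have hat' : (((Sf (n - d) m M h).filter (fun k => om z w k = 0)).card : ℝ) ≤
        ε₁ * (VM M m * q ^ (n - d)) := by
      refine hat.trans ?_
      have hwp : (0 : ℝ) < w := by
        have : 1 ≤ w := by omega
        exact_mod_cast this
      have e1 : Ca * ((z : ℝ) / w) ≤ ε₁ := by
        rw [mul_div_assoc', div_le_iff₀ hwp]
        have e2 : Ca * (z : ℝ) ≤ Ca * (2 * c0 * n) := mul_le_mul_of_nonneg_left hz2 hCa.le
        have e3 : 4 * Ca * c0 * n ≤ ε₁ * c2 * n := mul_le_mul_of_nonneg_right hc0a hn0.le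
        have e4 : ε₁ * (c2 * n / 2) ≤ ε₁ * w := mul_le_mul_of_nonneg_left hw2 hε₁.le
        linarith
      rw [mul_assoc (Ca * ((z : ℝ) / w))]
      exact mul_le_mul_of_nonneg_right e1 hWp.le
    have hfin := fixedM hM hhdeg hdn hε₁ hε₁16 hWp (by rw [← mul_assoc]; exact hs1)
      (by rw [← mul_assoc]; exact hs2) (by rw [← mul_assoc ε₁ (VM M m)]; exact hs4) hX hat' hnS'
    obtain ⟨hf1, hf2⟩ := hfin
    have hnP : (0 : ℝ) < n * Pm M := by positivity
    have hphi : q ^ n / (n * phi M) = q ^ (n - d) / (n * Pm M) := by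
      rw [phi_eq, hMd]
      have e1 : q ^ n = q ^ d * q ^ (n - d) := by
        rw [← pow_add]
        congr 1
        omega
      rw [← hq, e1]
      have e2 : (0 : ℝ) < q ^ d := by positivity
      rw [show (n : ℝ) * (q ^ d * Pm M) = q ^ d * (n * Pm M) by ring,
        mul_div_mul_left _ _ e2.ne']
    have hWeq : VM M m * q ^ (n - d) = (VM M m * Pm M * n) * (q ^ (n - d) / (n * Pm M)) := by
      field_simp
    have hQ : 0 < q ^ (n - d) / (n * Pm M) := by positivity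
    have hlo : cv / κ ≤ VM M m * Pm M * n := by
      have e1 : cv / κ ≤ cv / m * n := by
        rw [div_mul_eq_mul_div, div_le_div_iff₀ hκ hm0]
        have := mul_le_mul_of_nonneg_left hm1 hcv.le
        linarith
      exact e1.trans (mul_le_mul_of_nonneg_right hv1 hn0.le)
    have hup : VM M m * Pm M * n ≤ 2 * Cv / κ := by
      have e1 : Cv / m * n ≤ 2 * Cv / κ := by
        rw [div_mul_eq_mul_div, div_le_div_iff₀ hm0 hκ]
        have := mul_le_mul_of_nonneg_left (show κ * n ≤ 2 * m by linarith) hCv.le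
        linarith
      exact (mul_le_mul_of_nonneg_right hv2 hn0.le).trans e1
    refine ⟨fun b => ?_, ?_⟩
    · obtain ⟨g1, g2⟩ := hf1 b
      rw [hphi]
      constructor
      · refine le_trans ?_ g1
        rw [hWeq]
        have e1 := mul_le_mul_of_nonneg_right hlo hQ.le
        have e2 : cv / (4 * κ) = cv / κ / 4 := by
          rw [div_div, mul_comm]
        rw [e2]
        linarith
      · refine g2.trans ?_
        rw [hWeq]
        have e1 := mul_le_mul_of_nonneg_right hup hQ.le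
        have e2 : 4 * Cv / κ = 2 * (2 * Cv / κ) := by ring
        rw [e2]
        linarith
    · refine hf2.trans ?_
      exact mul_le_mul_of_nonneg_right hε₁0 (Nat.cast_nonneg _)

end Pool.Agent.H604.OD
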