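import Pool.Agent.H604.OD.Stm

/-!
# Mertens' theorem for the polynomials coprime to `M` (project OD of helper604, by helper806)
-/

set_option autoImplicit false

namespace Pool.Agent.H604.OD

open Polynomial
open scoped Classical
open Pool.Agent.H985.KP (PA)
open Pool.Agent.H694.Typ (Mn Irn PU mem_PU card_dvd_e)
open Pool.Agent.H524.MT (Pm S_mert)

namespace Vmb

lemma prod_ge {ι : Type} (s : Finset ι) (a : ι → ℝ) (h0 : ∀ i ∈ s, 0 ≤ a i)
    (h1 : ∀ i ∈ s, a i ≤ 1) : 1 - ∑ i ∈ s, a i ≤ ∏ i ∈ s, (1 - a i) ∧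
      0 ≤ ∏ i ∈ s, (1 - a i) ∧ ∏ i ∈ s, (1 - a i) ≤ 1 := by
  induction s using Finset.induction_on with
  | empty => simp
  | insert i s hi ih =>
    obtain ⟨k1, k2, k3⟩ := ih (fun j hj => h0 j (Finset.mem_insert_of_mem hj))
      (fun j hj => h1 j (Finset.mem_insert_of_mem hj))
    have k4 := h0 i (Finset.mem_insert_self _ _)
    have k5 := h1 i (Finset.mem_insert_self _ _)
    rw [Finset.prod_insert hi, Finset.sum_insert hi]
    obtain ⟨X, hX⟩ : ∃ X, X = ∏ j ∈ s, (1 - a j) := ⟨_, rfl⟩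
    rw [← hX] at k1 k2 k3 ⊢
    refine ⟨?_, mul_nonneg (by linarith) k2, ?_⟩
    · nlinarith
    · nlinarith

end Vmb

theorem tvmb : S_tvmb := by
  intro hm K _ _
  obtain ⟨C, hC, h1, _⟩ := hm K
  have hC0 : 0 < C := by linarith
  refine ⟨1 / (2 * C), 1, by positivity, one_pos, ?_⟩
  intro m M hm1 hM hd
  obtain ⟨q, hq⟩ : ∃ q : ℝ, q = (Fintype.card K : ℝ) := ⟨_, rfl⟩
  have hq2 : 2 ≤ q := by
    rw [hq]
    exact_mod_cast Fintype.one_lt_card (α := K)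
  obtain ⟨D, hD⟩ : ∃ D, D = max m M.natDegree := ⟨_, rfl⟩
  have hM0 : M ≠ 0 := hM.ne_zero
  obtain ⟨f, hf⟩ : ∃ f : K[X] → ℝ, f = fun P => 1 - 1 / (Fintype.card K : ℝ) ^ P.natDegree :=
    ⟨_, rfl⟩
  have hPA : PA M = ((PU K D).filter (fun P => P ∣ M) : Finset K[X]) := by
    ext P
    rw [Finset.mem_coe, Finset.mem_filter, mem_PU]
    constructor
    · rintro ⟨k1, k2, k3⟩
      refine ⟨⟨k1, k2, ?_⟩, k3⟩
      rw [hD]
      exact (natDegree_le_of_dvd k3 hM0).trans (le_max_right _ _)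
    · rintro ⟨⟨k1, k2, _⟩, k3⟩
      exact ⟨k1, k2, k3⟩
  have hPm : Pm M = ∏ P ∈ (PU K D).filter (fun P => P ∣ M), f P := by
    unfold Pm
    rw [hPA, finprod_mem_coe_finset, hf]
  obtain ⟨R, hR⟩ : ∃ R : Finset K[X], R = ((PU K D).filter (fun P => P ∣ M)).filter
    (fun P => ¬ P.natDegree ≤ m) := ⟨_, rfl⟩
  have hsplit : ∏ P ∈ (PU K D).filter (fun P => P ∣ M), f P =
      (∏ P ∈ (PU K m).filter (fun P => P ∣ M), f P) * ∏ P ∈ R, f P := by
    have h2 : ((PU K D).filter (fun P => P ∣ M)).filter (fun P => P.natDegree ≤ m) =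
        (PU K m).filter (fun P => P ∣ M) := by
      ext P
      rw [Finset.mem_filter, Finset.mem_filter, Finset.mem_filter, mem_PU, mem_PU]
      constructor
      · rintro ⟨⟨⟨k1, k2, _⟩, k3⟩, k4⟩
        exact ⟨⟨k1, k2, k4⟩, k3⟩
      · rintro ⟨⟨k1, k2, k4⟩, k3⟩
        exact ⟨⟨⟨k1, k2, k4.trans (hD ▸ le_max_left _ _)⟩, k3⟩, k4⟩
    rw [← Finset.prod_filter_mul_prod_filter_not ((PU K D).filter (fun P => P ∣ M))
      (fun P => P.natDegree ≤ m), h2, hR]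
  have hVM : VM M m * Pm M = (∏ P ∈ PU K m, f P) * ∏ P ∈ R, f P := by
    rw [hPm, hsplit, ← mul_assoc]
    congr 1
    rw [← Finset.prod_filter_mul_prod_filter_not (PU K m) (fun P => P ∣ M), mul_comm]
    unfold VM
    rw [hf]
  -- the first factor
  have hfp : ∀ P ∈ PU K m, 0 < f P := by
    intro P hP
    have h2 := (mem_PU.1 hP).2.1.natDegree_pos
    rw [hf, ← hq]
    show 0 < 1 - 1 / q ^ P.natDegree
    have h3 : q ≤ q ^ P.natDegree := le_self_pow₀ (by linarith) h2.ne'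
    have h4 : 1 / q ^ P.natDegree ≤ 1 / 2 :=
      one_div_le_one_div_of_le (by norm_num) (hq2.trans h3)
    linarith
  have hm0 : (0 : ℝ) < m := by exact_mod_cast hm1
  have hX : 0 < ∏ P ∈ PU K m, f P := Finset.prod_pos hfp
  obtain ⟨k1, k2⟩ := h1 m hm1
  have hinv : ∏ P ∈ PU K m, (1 - 1 / (Fintype.card K : ℝ) ^ P.natDegree)⁻¹ =
      (∏ P ∈ PU K m, f P)⁻¹ := by
    rw [← Finset.prod_inv_distrib, hf]
  rw [hinv] at k1 k2
  have l1 : ∏ P ∈ PU K m, f P ≤ 1 / m := by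
    rw [le_div_iff₀ hm0]
    have h2 := mul_le_mul_of_nonneg_left k1 hX.le
    rwa [mul_inv_cancel₀ hX.ne'] at h2
  have l2 : 1 / (C * m) ≤ ∏ P ∈ PU K m, f P := by
    rw [div_le_iff₀ (by positivity)]
    have h2 := mul_le_mul_of_nonneg_left k2 hX.le
    rwa [mul_inv_cancel₀ hX.ne'] at h2
  -- the second factor
  have hRc : (R.card : ℝ) ≤ 2 ^ m := by
    have h2 : R.card ≤ ((PU K D).filter (fun P => P ∣ M)).card := by
      rw [hR]
      exact Finset.card_filter_le _ _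
    have h3 := h2.trans ((card_dvd_e D hM0).trans hd)
    exact_mod_cast h3
  have hRs : ∑ P ∈ R, 1 / q ^ P.natDegree ≤ 1 / 2 := by
    have h2 : ∀ P ∈ R, 1 / q ^ P.natDegree ≤ 1 / 2 ^ (m + 1) := by
      intro P hP
      rw [hR, Finset.mem_filter] at hP
      have h3 : m + 1 ≤ P.natDegree := not_le.1 hP.2
      refine one_div_le_one_div_of_le (by positivity) ?_
      calc (2 : ℝ) ^ (m + 1) ≤ q ^ (m + 1) := pow_le_pow_left₀ (by norm_num) hq2 _
        _ ≤ q ^ P.natDegree := pow_le_pow_right₀ (by linarith) h3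
    refine (Finset.sum_le_sum h2).trans ?_
    rw [Finset.sum_const, nsmul_eq_mul]
    calc (R.card : ℝ) * (1 / 2 ^ (m + 1)) ≤ 2 ^ m * (1 / 2 ^ (m + 1)) :=
          mul_le_mul_of_nonneg_right hRc (by positivity)
      _ = 1 / 2 := by
        rw [pow_succ]
        field_simp
  obtain ⟨r1, r2, r3⟩ := Vmb.prod_ge R (fun P => 1 / q ^ P.natDegree)
    (fun P _ => by positivity) (fun P _ => by
      show 1 / q ^ P.natDegree ≤ 1
      rw [div_le_one (by positivity)]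
      exact one_le_pow₀ (by linarith))
  have hRf : ∏ P ∈ R, f P = ∏ P ∈ R, (1 - 1 / q ^ P.natDegree) := by
    rw [hf, hq]
  rw [hVM, hRf]
  obtain ⟨X, hXe⟩ : ∃ X, X = ∏ P ∈ PU K m, f P := ⟨_, rfl⟩
  obtain ⟨Y, hYe⟩ : ∃ Y, Y = ∏ P ∈ R, (1 - 1 / q ^ P.natDegree) := ⟨_, rfl⟩
  rw [← hXe] at l1 l2 hX ⊢
  rw [← hYe] at r1 r2 r3 ⊢
  have hY : 1 / 2 ≤ Y := by linarith
  constructor
  · calc 1 / (2 * C) / m = 1 / (C * m) * (1 / 2) := by
          field_simp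
      _ ≤ X * Y := mul_le_mul l2 hY (by norm_num) hX.le
  · calc X * Y ≤ 1 / m * 1 := mul_le_mul l1 r3 r2 (by positivity)
      _ = 1 / m := mul_one _

end Pool.Agent.H604.OD
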