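import Pool.Agent.H604.OD.AsmD
import Pool.Agent.H604.OD.Vmb

/-!
# Project OD: asymptotic form (helper604)
-/

set_option autoImplicit false

namespace Pool.Agent.H604.OD

open Polynomial Finset
open scoped Classical
open Pool.Agent.H985.Chow (mob)
open Pool.Agent.H985.KP (PA)
open Pool.Agent.H694.Typ (Mn Irn PU mem_Mn mem_PU q_ge card_dvd_e)
open Pool.Agent.H527.ME (om S_pw S_big S_div)
open Pool.Agent.H524.MT (Pm S_mert)

theorem core2 {O E S N W ε₁ : ℝ} (h1 : (1 - ε₁) * W ≤ S) (h2 : S ≤ (1 + ε₁) * W)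
    (h3 : O + E + N = S) (h4 : |E - O| ≤ 3 * ε₁ * W) (h5 : 0 ≤ N) (h6 : N ≤ ε₁ * W)
    (hW : 0 ≤ ε₁ * W) :
    |O - W / 2| ≤ 3 * (ε₁ * W) ∧ |E - W / 2| ≤ 3 * (ε₁ * W) := by
  rw [abs_le] at h4
  constructor <;> rw [abs_le] <;> constructor <;> linarith

theorem fixedM2 {K : Type} [Field K] [Fintype K] {n d m z w : ℕ} {M h : K[X]} {ε₁ X₀ : ℝ}
    (hM : M ∈ Mn K d) (hh : h.degree < (n : WithBot ℕ)) (hn : d ≤ n) (hε : 0 < ε₁)
    (hV : 0 < VM M m * (Fintype.card K : ℝ) ^ (n - d))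
    (h1 : (1 - ε₁) * (VM M m * (Fintype.card K : ℝ) ^ (n - d)) ≤ ((Sf (n - d) m M h).card : ℝ))
    (h2 : ((Sf (n - d) m M h).card : ℝ) ≤ (1 + ε₁) * (VM M m * (Fintype.card K : ℝ) ^ (n - d)))
    (h3 : |∑ k ∈ Sf (n - d) m M h, Ft z w M h k| ≤
      ε₁ * (VM M m * (Fintype.card K : ℝ) ^ (n - d)) + X₀)
    (hX : X₀ ≤ ε₁ * (VM M m * (Fintype.card K : ℝ) ^ (n - d)))
    (h4 : (((Sf (n - d) m M h).filter (fun k => om z w k = 0)).card : ℝ) ≤
      ε₁ * (VM M m * (Fintype.card K : ℝ) ^ (n - d)))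
    (h5 : (((Mn K (n - d)).filter (fun k => ∃ P : K[X], P.Monic ∧ Irreducible P ∧
      m < P.natDegree ∧ P ^ 2 ∣ M * k + h)).card : ℝ) ≤
      ε₁ * (VM M m * (Fintype.card K : ℝ) ^ (n - d))) (b : Bool) :
    |((Alp b n m M h).ncard : ℝ) - VM M m * (Fintype.card K : ℝ) ^ (n - d) / 2| ≤
      3 * (ε₁ * (VM M m * (Fintype.card K : ℝ) ^ (n - d))) := by
  set W := VM M m * (Fintype.card K : ℝ) ^ (n - d) with hW
  have e1 := card_add_eq (n - d) m M h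
  have e2 := sum_mob_eq (n - d) m M h
  have e3 : |∑ k ∈ Sf (n - d) m M h, (mob (M * k + h) : ℝ)| ≤ 3 * ε₁ * W := by
    have e4 : ∑ k ∈ Sf (n - d) m M h, (mob (M * k + h) : ℝ) =
        ∑ k ∈ Sf (n - d) m M h, Ft z w M h k +
          ∑ k ∈ (Sf (n - d) m M h).filter (fun k => om z w k = 0), (mob (M * k + h) : ℝ) := by
      rw [sum_filter, ← sum_add_distrib]
      refine sum_congr rfl fun k _ => ?_
      unfold Ft
      by_cases h : om z w k = 0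
      · simp [h]
      · simp [h]
    have e5 : |∑ k ∈ (Sf (n - d) m M h).filter (fun k => om z w k = 0), (mob (M * k + h) : ℝ)| ≤
        (((Sf (n - d) m M h).filter (fun k => om z w k = 0)).card : ℝ) := by
      refine (abs_sum_le_sum_abs _ _).trans ?_
      refine (sum_le_sum fun k _ => mob_abs (M * k + h)).trans ?_
      rw [sum_const, nsmul_eq_mul, mul_one]
    rw [e4]
    refine (abs_add_le _ _).trans ?_
    linarith
  have e6 : (((Sf (n - d) m M h).filter (fun k => ¬ Squarefree (M * k + h))).card : ℝ) ≤ ε₁ * W :=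
    le_trans (by exact_mod_cast card_le_card (nonsq_le m hM hh hn)) h5
  have e7 := core2 h1 h2 e1 (by rw [← e2]; exact e3) (Nat.cast_nonneg _) e6
    (mul_pos hε hV).le
  rw [alp_ncard b hM hh hn]
  cases b
  · exact e7.2
  · exact e7.1

/-- `V(M) φ(M) / |M|` is close to `V(1)`. -/
theorem VM_ratio {K : Type} [Field K] [Fintype K] (m : ℕ) {M : K[X]} (hM : M.Monic) :
    (1 - (M.natDegree : ℝ) / 2 ^ m) * VM (1 : K[X]) m ≤ VM M m * Pm M ∧
      VM M m * Pm M ≤ VM (1 : K[X]) m := by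
  obtain ⟨q, hq⟩ : ∃ q : ℝ, q = (Fintype.card K : ℝ) := ⟨_, rfl⟩
  have hq2 : 2 ≤ q := by
    rw [hq]
    exact_mod_cast Fintype.one_lt_card (α := K)
  obtain ⟨D, hD⟩ : ∃ D, D = max m M.natDegree := ⟨_, rfl⟩
  have hM0 : M ≠ 0 := hM.ne_zero
  obtain ⟨f, hf⟩ : ∃ f : K[X] → ℝ, f = fun P => 1 - 1 / (Fintype.card K : ℝ) ^ P.natDegree :=
    ⟨_, rfl⟩
  have hPA : PA M = ((PU K D).filter (fun P => P ∣ M) : Finset K[X]) := by
    ext P
    rw [Finset.mem_coe, Finset.mem_filter, mem_PU]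
    constructor
    · rintro ⟨k1, k2, k3⟩
      refine ⟨⟨k1, k2, ?_⟩, k3⟩
      rw [hD]
      exact (natDegree_le_of_dvd k3 hM0).trans (le_max_right _ _)
    · rintro ⟨⟨k1, k2, _⟩, k3⟩
      exact ⟨k1, k2, k3⟩
  have hPm : Pm M = ∏ P ∈ (PU K D).filter (fun P => P ∣ M), f P := by
    unfold Pm
    rw [hPA, finprod_mem_coe_finset, hf]
  obtain ⟨R, hR⟩ : ∃ R : Finset K[X], R = ((PU K D).filter (fun P => P ∣ M)).filter
    (fun P => ¬ P.natDegree ≤ m) := ⟨_, rfl⟩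
  have hsplit : ∏ P ∈ (PU K D).filter (fun P => P ∣ M), f P =
      (∏ P ∈ (PU K m).filter (fun P => P ∣ M), f P) * ∏ P ∈ R, f P := by
    have h2 : ((PU K D).filter (fun P => P ∣ M)).filter (fun P => P.natDegree ≤ m) =
        (PU K m).filter (fun P => P ∣ M) := by
      ext P
      rw [Finset.mem_filter, Finset.mem_filter, Finset.mem_filter, mem_PU, mem_PU]
      constructor
      · rintro ⟨⟨⟨k1, k2, _⟩, k3⟩, k4⟩
        exact ⟨⟨k1, k2, k4⟩, k3⟩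
      · rintro ⟨⟨k1, k2, k4⟩, k3⟩
        exact ⟨⟨⟨k1, k2, k4.trans (hD ▸ le_max_left _ _)⟩, k3⟩, k4⟩
    rw [← Finset.prod_filter_mul_prod_filter_not ((PU K D).filter (fun P => P ∣ M))
      (fun P => P.natDegree ≤ m), h2, hR]
  have hVM : VM M m * Pm M = (∏ P ∈ PU K m, f P) * ∏ P ∈ R, f P := by
    rw [hPm, hsplit, ← mul_assoc]
    congr 1
    rw [← Finset.prod_filter_mul_prod_filter_not (PU K m) (fun P => P ∣ M), mul_comm]
    unfold VM
    rw [hf]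
  have hV1 : VM (1 : K[X]) m = ∏ P ∈ PU K m, f P := by
    unfold VM
    rw [hf]
    refine prod_congr ?_ fun _ _ => rfl
    refine filter_true_of_mem fun P hP => ?_
    rw [mem_PU] at hP
    exact fun h => hP.2.1.not_isUnit (isUnit_of_dvd_one h)
  have hX : 0 < VM (1 : K[X]) m := VM_pos _ _
  have hRc : (R.card : ℝ) ≤ M.natDegree := by
    have h2 : R.card ≤ ((PU K D).filter (fun P => P ∣ M)).card := by
      rw [hR]
      exact Finset.card_filter_le _ _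
    exact_mod_cast h2.trans (card_dvd_e D hM0)
  have hRs : ∑ P ∈ R, 1 / q ^ P.natDegree ≤ (M.natDegree : ℝ) / 2 ^ m := by
    have h2 : ∀ P ∈ R, 1 / q ^ P.natDegree ≤ 1 / 2 ^ m := by
      intro P hP
      rw [hR, Finset.mem_filter] at hP
      have h3 : m ≤ P.natDegree := (not_le.1 hP.2).le
      refine one_div_le_one_div_of_le (by positivity) ?_
      calc (2 : ℝ) ^ m ≤ q ^ m := pow_le_pow_left₀ (by norm_num) hq2 _
        _ ≤ q ^ P.natDegree := pow_le_pow_right₀ (by linarith) h3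
    refine (Finset.sum_le_sum h2).trans ?_
    rw [Finset.sum_const, nsmul_eq_mul, mul_one_div]
    exact div_le_div_of_nonneg_right hRc (by positivity)
  obtain ⟨r1, r2, r3⟩ := Vmb.prod_ge R (fun P => 1 / q ^ P.natDegree)
    (fun P _ => by positivity) (fun P _ => by
      show 1 / q ^ P.natDegree ≤ 1
      rw [div_le_one (by positivity)]
      exact one_le_pow₀ (by linarith))
  have hRf : ∏ P ∈ R, f P = ∏ P ∈ R, (1 - 1 / q ^ P.natDegree) := by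
    rw [hf, hq]
  rw [hVM, hRf, ← hV1]
  constructor
  · rw [mul_comm]
    exact mul_le_mul_of_nonneg_left (by linarith) hX.le
  · exact mul_le_of_le_one_right hX.le r3

/-- The asymptotic formula in one class. -/
def S_per : Prop :=
  ∀ (K : Type) [Field K] [Fintype K] [CharP K 2] (ε ε₁ : ℝ), 0 < ε → 0 < ε₁ →
    ∃ κ₀ : ℝ, 0 < κ₀ ∧ ∀ κ : ℝ, 0 < κ → κ ≤ κ₀ → ∃ δ : ℝ, 0 < δ ∧ ∃ n₀ : ℕ, ∀ n : ℕ, n₀ ≤ n →
    (1 ≤ n ∧ 1 ≤ ⌊κ * n⌋₊ ∧ κ * n / 2 ≤ ⌊κ * n⌋₊ ∧ ((⌊κ * n⌋₊ : ℕ) : ℝ) ≤ κ * n ∧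
      (n : ℝ) ≤ ε₁ * 2 ^ ⌊κ * n⌋₊) ∧
    ∀ (d : ℕ) (h : K[X]), (d : ℝ) ≤ (1 - ε) * n → h ≠ 0 → h.natDegree < n →
      ∃ Exc : Finset K[X], (Exc.card : ℝ) ≤ (Fintype.card K : ℝ) ^ ((d : ℝ) - δ * n) ∧
        ∀ M : K[X], M.Monic → M.natDegree = d → IsCoprime M h → M ∉ Exc → ∀ b : Bool,
          |((Alp b n ⌊κ * n⌋₊ M h).ncard : ℝ) -
            VM M ⌊κ * n⌋₊ * (Fintype.card K : ℝ) ^ (n - d) / 2| ≤
              3 * (ε₁ * (VM M ⌊κ * n⌋₊ * (Fintype.card K : ℝ) ^ (n - d)))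

theorem per (hb : S_bad) (hm : S_mn) (ha : S_ats) (hs : S_sqf) (hv : S_vmb) : S_per := by
  intro K _ _ _ ε ε₁ hε hε₁
  have hq2 := q_ge (k := K)
  set q : ℝ := (Fintype.card K : ℝ) with hq
  have hq1 : (1 : ℝ) ≤ q := by linarith
  have hq0 : (0 : ℝ) < q := by linarith
  obtain ⟨Ca, Aa, hCa, hAa, Hat⟩ := ha K
  obtain ⟨cv, Cv, hcv, hCv, Hv⟩ := hv K
  obtain ⟨Am, hAm, Hm⟩ := hm K ε₁ hε₁
  have hAa' : (1 : ℝ) ≤ Aa := by exact_mod_cast hAa
  have hAm' : (1 : ℝ) ≤ Am := by exact_mod_cast hAm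
  obtain ⟨c2, hc2, hc2a, hc2b⟩ : ∃ c2 : ℝ, 0 < c2 ∧ Aa * c2 ≤ ε ∧ c2 ≤ 1 / 8 := by
    refine ⟨min (ε / Aa) (1 / 8), lt_min (by positivity) (by norm_num), ?_, min_le_right _ _⟩
    calc (Aa : ℝ) * min (ε / Aa) (1 / 8) ≤ Aa * (ε / Aa) :=
          mul_le_mul_of_nonneg_left (min_le_left _ _) (by positivity)
      _ = ε := by field_simp
  obtain ⟨c0, hc0, hc0a, hc0b⟩ : ∃ c0 : ℝ, 0 < c0 ∧ 4 * Ca * c0 ≤ ε₁ * c2 ∧ 4 * c0 ≤ c2 := by
    refine ⟨min (ε₁ * c2 / (4 * Ca)) (c2 / 4), lt_min (by positivity) (by positivity), ?_, ?_⟩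
    · calc 4 * Ca * min (ε₁ * c2 / (4 * Ca)) (c2 / 4) ≤ 4 * Ca * (ε₁ * c2 / (4 * Ca)) :=
            mul_le_mul_of_nonneg_left (min_le_left _ _) (by positivity)
        _ = ε₁ * c2 := by field_simp
    · have := min_le_right (ε₁ * c2 / (4 * Ca)) (c2 / 4)
      linarith
  obtain ⟨δb, hδb, nb, Hb⟩ := hb K (1 / 8) c0 (by norm_num) hc0
  refine ⟨min (min ε δb) c0 / (12 * Am), div_pos (lt_min (lt_min hε hδb) hc0) (by positivity),
    ?_⟩
  intro κ hκ hκ0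
  have hκ1 : 12 * Am * κ ≤ min (min ε δb) c0 := by
    rw [le_div_iff₀ (by positivity)] at hκ0
    linarith
  have hκε : 12 * Am * κ ≤ ε := hκ1.trans ((min_le_left _ _).trans (min_le_left _ _))
  have hκδ : 12 * Am * κ ≤ δb := hκ1.trans ((min_le_left _ _).trans (min_le_right _ _))
  have hκc : 12 * Am * κ ≤ c0 := hκ1.trans (min_le_right _ _)
  obtain ⟨n1, -, H1⟩ := exp_beats 2 (κ / 8) (by positivity)
  obtain ⟨n2, -, H2⟩ := exp_beats (1 / (ε₁ * cv)) (κ / 8) (by positivity)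
  obtain ⟨n3, -, H3⟩ := exp_beats (1 / (ε₁ * cv)) (δb / 2) (by positivity)
  obtain ⟨n4, -, H4⟩ := exp_beats 1 (κ / 2) (by positivity)
  obtain ⟨n5, -, H5⟩ := exp_beats 2 (δb / 2) (by positivity)
  obtain ⟨n6, hn6⟩ := exists_nat_ge (4 / κ)
  obtain ⟨n7, hn7⟩ := exists_nat_ge (1 / c0)
  obtain ⟨n8, hn8⟩ := exists_nat_ge (2 / c2)
  obtain ⟨n9, -, H9⟩ := exp_beats (1 / ε₁) (κ / 2) (by positivity)
  refine ⟨min (δb / 2) (κ / 16), lt_min (by positivity) (by positivity),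
    1 + nb + n1 + n2 + n3 + n4 + n5 + n6 + n7 + n8 + n9, ?_⟩
  intro n hn
  have hnpos : 1 ≤ n := by omega
  have hn1 : (1 : ℝ) ≤ n := by exact_mod_cast hnpos
  have hn0 : (0 : ℝ) < n := by linarith
  have G1 := H1 n (by omega)
  have G2 := H2 n (by omega)
  have G3 := H3 n (by omega)
  have G4 := H4 n (by omega)
  have G5 := H5 n (by omega)
  have G6 : 4 ≤ κ * n := by
    have h1 : 4 / κ ≤ n := hn6.trans (by exact_mod_cast (by omega : n6 ≤ n))
    rw [div_le_iff₀ hκ] at h1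
    linarith
  have G7 : 1 ≤ c0 * n := by
    have h1 : 1 / c0 ≤ n := hn7.trans (by exact_mod_cast (by omega : n7 ≤ n))
    rw [div_le_iff₀ hc0] at h1
    linarith
  have G8 : 2 ≤ c2 * n := by
    have h1 : 2 / c2 ≤ n := hn8.trans (by exact_mod_cast (by omega : n8 ≤ n))
    rw [div_le_iff₀ hc2] at h1
    linarith
  have G9 := H9 n (by omega)
  have hfl1 : ((⌊κ * n⌋₊ : ℕ) : ℝ) ≤ κ * n := Nat.floor_le (by positivity)
  have hfl2 : κ * n / 2 ≤ ⌊κ * n⌋₊ := by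
    have := (Nat.lt_floor_add_one (κ * n)).le
    linarith
  refine ⟨⟨hnpos, ?_, hfl2, hfl1, ?_⟩, ?_⟩
  · exact Nat.floor_pos.2 (by linarith)
  · have h1 : (2 : ℝ) ^ (κ / 2 * n) ≤ (2 : ℝ) ^ ((⌊κ * n⌋₊ : ℕ) : ℝ) :=
      Real.rpow_le_rpow_of_exponent_le (by norm_num) (by linarith)
    rw [Real.rpow_natCast] at h1
    have h2 := G9.trans h1
    rw [one_div_mul_eq_div, div_le_iff₀ hε₁] at h2
    linarith
  intro d h hd hh0 hhn
  have hdn' : (d : ℝ) ≤ n := by nlinarith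
  have hdn : d ≤ n := by exact_mod_cast hdn'
  have hhdeg : h.degree < (n : WithBot ℕ) := by
    rw [degree_eq_natDegree hh0]
    exact_mod_cast hhn
  obtain ⟨z, hz⟩ : ∃ z : ℕ, z = ⌈c0 * n⌉₊ := ⟨_, rfl⟩
  obtain ⟨w, hw⟩ : ∃ w : ℕ, w = ⌊c2 * n⌋₊ := ⟨_, rfl⟩
  obtain ⟨m, hmm⟩ : ∃ m : ℕ, m = ⌊κ * n⌋₊ := ⟨_, rfl⟩
  obtain ⟨⟨hz1, hz2, hw1, hw2, hm1, hm2⟩, hm4, hmz, hzw, hAw, hdw, hAmn, hAmδ, hn2m, hn2z⟩ :=
    nums hε hAa hAm hc2 hc2a hc0 hc0b hκ hκε hκδ hκc hn0 G4 G6 G7 G8 hd hz hw hmm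
  rw [← hmm]
  have hw3 : (w : ℝ) ≤ (1 / 4 - 1 / 8) * n := by
    have := mul_le_mul_of_nonneg_right hc2b hn0.le
    linarith
  have hBad := Hb n (by omega) d z w h hz1 hdw hw3 hh0 hhn
  set Bad := (Mn K d).filter (fun M => ∃ D r : K[X], D.Monic ∧ (D.natDegree : ℝ) ≤ δb * n ∧
        r.degree < D.degree ∧ q ^ ((n : ℝ) - d - δb * n) <
          |∑ k ∈ (Mn K (n - d)).filter (fun k => om z w k ≠ 0 ∧ D ∣ k - r),
            (mob (M * k + h) : ℝ)|) with hBaddef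
  have hsqc := sq_card (K := K) (n := n) (d := d) (m := m) (h := h) hs hdn hhn
  refine ⟨Bad ∪ Sq K n d m h, ?_, ?_⟩
  · have e1 : (((Bad ∪ Sq K n d m h).card : ℕ) : ℝ) ≤ (Bad.card : ℝ) + ((Sq K n d m h).card : ℝ) := by
      exact_mod_cast card_union_le _ _
    refine e1.trans ((add_le_add hBad hsqc).trans ?_)
    exact exc_card hq2 hn0 hδb hκ G1 G5 G6 hm2
  · intro M hMm hMd hcop hMexc
    have hM : M ∈ Mn K d := mem_Mn.2 ⟨hMm, hMd⟩
    have hM0 : M ≠ 0 := hMm.ne_zero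
    rw [mem_union, not_or] at hMexc
    obtain ⟨hnB, hnS⟩ := hMexc
    have hm0 : (0 : ℝ) < m := by exact_mod_cast hm4
    have hmn : (m : ℝ) ≤ n := by
      have : m ≤ Am * m := Nat.le_mul_of_pos_left m (by omega)
      have h2 : m ≤ n := by omega
      exact_mod_cast h2
    obtain ⟨hv1, hv2⟩ := Hv m M hm4 hMm (by omega)
    obtain ⟨hP0, hP1⟩ := Pm_bd hM0
    have hVp := VM_pos M m
    have hVge : cv / m ≤ VM M m := hv1.trans (mul_le_of_le_one_right hVp.le hP1)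
    have hqn : (0 : ℝ) < q ^ (n - d) := by positivity
    have hWp : 0 < VM M m * q ^ (n - d) := mul_pos hVp hqn
    have hql : q ^ (n - d) = q ^ ((n : ℝ) - d) := rpow_sub_nat hdn
    have hWge : cv / m * q ^ ((n : ℝ) - d) ≤ VM M m * q ^ (n - d) := by
      rw [← hql]
      exact mul_le_mul_of_nonneg_right hVge hqn.le
    have hX : q ^ (3 * Am * m) * q ^ ((n : ℝ) - d - δb * n) ≤ ε₁ * (VM M m * q ^ (n - d)) := by
      have e1 : q ^ (3 * Am * m) * q ^ ((n : ℝ) - d - δb * n) =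
          q ^ (((n : ℝ) - d) - (δb * n - 3 * (Am * m))) := by
        rw [← Real.rpow_natCast, ← Real.rpow_add hq0]
        congr 1
        push_cast
        ring
      rw [e1]
      have hAm0 : 0 ≤ (Am : ℝ) * m := by positivity
      refine (small hq2 hn0 hε₁ hcv hm0 hmn G3 (by linarith) (by positivity)).trans ?_
      exact mul_le_mul_of_nonneg_left hWge hε₁.le
    have hS : q ^ ((n : ℝ) - d - m / 4) ≤ ε₁ * (VM M m * q ^ (n - d)) := by
      refine (small hq2 hn0 hε₁ hcv hm0 hmn G2 (by linarith) (by positivity)).trans ?_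
      exact mul_le_mul_of_nonneg_left hWge hε₁.le
    have hnS' : (((Mn K (n - d)).filter (fun k => ∃ P : K[X], P.Monic ∧ Irreducible P ∧
        m < P.natDegree ∧ P ^ 2 ∣ M * k + h)).card : ℝ) ≤ ε₁ * (VM M m * q ^ (n - d)) := by
      refine le_trans ?_ hS
      by_contra hlt
      refine hnS ?_
      unfold Sq
      rw [mem_filter]
      exact ⟨hM, not_le.1 hlt⟩
    have hFD : ∀ D r : K[X], D.Monic → D.natDegree ≤ Am * m → r.degree < D.degree →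
        |∑ k ∈ (Mn K (n - d)).filter (fun k => D ∣ k - r), Ft z w M h k| ≤
          q ^ ((n : ℝ) - d - δb * n) := by
      intro D r hD hDd hr
      by_contra hlt
      refine hnB ?_
      rw [hBaddef, mem_filter]
      refine ⟨hM, D, r, hD, ?_, hr, ?_⟩
      · have h1 : (D.natDegree : ℝ) ≤ Am * m := by exact_mod_cast hDd
        have hAm0 : 0 ≤ (Am : ℝ) * m := by positivity
        linarith
      · have e1 : ∑ k ∈ (Mn K (n - d)).filter (fun k => om z w k ≠ 0 ∧ D ∣ k - r),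
            (mob (M * k + h) : ℝ) = ∑ k ∈ (Mn K (n - d)).filter (fun k => D ∣ k - r),
              Ft z w M h k := by
          rw [sum_filter, sum_filter]
          refine sum_congr rfl fun k _ => ?_
          unfold Ft
          by_cases h1 : om z w k = 0 <;> by_cases h2 : D ∣ k - r <;> simp [h1, h2]
        rw [e1]
        exact not_le.1 hlt
    obtain ⟨hs1, hs2, hs3⟩ := Hm n d m M h hM hcop hm4 hAmn
    have hs4 := hs3 (Ft z w M h) (q ^ ((n : ℝ) - d - δb * n)) (Ft_abs z w M h)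
      (Real.rpow_nonneg hq0.le _) hFD
    have hat := Hat n d m z w M h hM hcop hm4 hmz hzw hAw hn2z
    have hat' : (((Sf (n - d) m M h).filter (fun k => om z w k = 0)).card : ℝ) ≤
        ε₁ * (VM M m * q ^ (n - d)) := by
      refine hat.trans ?_
      have hwp : (0 : ℝ) < w := by
        have : 1 ≤ w := by omega
        exact_mod_cast this
      have e1 : Ca * ((z : ℝ) / w) ≤ ε₁ := by
        rw [mul_div_assoc', div_le_iff₀ hwp]
        have e2 : Ca * (z : ℝ) ≤ Ca * (2 * c0 * n) := mul_le_mul_of_nonneg_left hz2 hCa.le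
        have e3 : 4 * Ca * c0 * n ≤ ε₁ * c2 * n := mul_le_mul_of_nonneg_right hc0a hn0.le
        have e4 : ε₁ * (c2 * n / 2) ≤ ε₁ * w := mul_le_mul_of_nonneg_left hw2 hε₁.le
        linarith
      rw [mul_assoc (Ca * ((z : ℝ) / w))]
      exact mul_le_mul_of_nonneg_right e1 hWp.le
    exact fixedM2 hM hhdeg hdn hε₁ hWp (by rw [← mul_assoc]; exact hs1)
      (by rw [← mul_assoc]; exact hs2) (by rw [← mul_assoc ε₁ (VM M m)]; exact hs4) hX hat' hnS'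

end Pool.Agent.H604.OD
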