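import Pool.Agent.H604.OD.AsmE

/-!
# Project OD: the level of distribution (helper604)
-/

set_option autoImplicit false

namespace Pool.Agent.H604.OD

open Polynomial Finset
open scoped Classical
open Pool.Agent.H694.Typ (Mn Irn PU mem_Mn mem_PU q_ge card_dvd_e)
open Pool.Agent.H524.MT (Pm S_mert)

/-- **The theorem.** -/
def S_lev : Prop :=
  ∀ (K : Type) [Field K] [Fintype K] [CharP K 2], ∃ c C : ℝ, 0 < c ∧ 0 < C ∧
    ∀ (ε ε₀ : ℝ), 0 < ε → 0 < ε₀ → ∃ κ₀ : ℝ, 0 < κ₀ ∧ ∀ κ : ℝ, 0 < κ → κ ≤ κ₀ →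
    ∃ δ : ℝ, 0 < δ ∧ ∃ n₀ : ℕ, ∀ n : ℕ, n₀ ≤ n →
      (∀ b : Bool, c * ((Fintype.card K : ℝ) ^ n / (κ * n)) ≤
          ((Alp b n ⌊κ * n⌋₊ (1 : K[X]) 0).ncard : ℝ) ∧
        ((Alp b n ⌊κ * n⌋₊ (1 : K[X]) 0).ncard : ℝ) ≤
          C * ((Fintype.card K : ℝ) ^ n / (κ * n))) ∧
      |((Alp true n ⌊κ * n⌋₊ (1 : K[X]) 0).ncard : ℝ) -
          ((Alp false n ⌊κ * n⌋₊ (1 : K[X]) 0).ncard : ℝ)| ≤
        ε₀ * ((Alp true n ⌊κ * n⌋₊ (1 : K[X]) 0).ncard : ℝ) ∧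
      ∀ (d : ℕ) (H : Finset K[X]), (d : ℝ) ≤ (1 - ε) * n →
        (H.card : ℝ) ≤ (Fintype.card K : ℝ) ^ (δ * n) → (∀ h ∈ H, h ≠ 0 ∧ h.natDegree < n) →
        ∃ Exc : Finset K[X], (Exc.card : ℝ) ≤ (Fintype.card K : ℝ) ^ ((d : ℝ) - δ * n) ∧
          ∀ M : K[X], M.Monic → M.natDegree = d → M ∉ Exc → ∀ h ∈ H, IsCoprime M h → ∀ b : Bool,
            |((Alp b n ⌊κ * n⌋₊ M h).ncard : ℝ) -
                ((Alp b n ⌊κ * n⌋₊ (1 : K[X]) 0).ncard : ℝ) / phi M| ≤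
              ε₀ * (((Alp b n ⌊κ * n⌋₊ (1 : K[X]) 0).ncard : ℝ) / phi M)

theorem Alp_one {K : Type} [Field K] (b : Bool) (n y : ℕ) (h : K[X]) :
    Alp b n y (1 : K[X]) h = Alp b n y (1 : K[X]) 0 := by
  unfold Alp
  ext F
  simp only [Set.mem_ofPred_eq, one_dvd, true_and]

/-- The final computation. -/
theorem fin_comp {a1 aM φ V1 Q R W ε₀ ε₁ : ℝ} (hφ : 0 < φ) (hV : 0 < V1 * Q) (hε₁ : 0 < ε₁)
    (hε₁' : ε₁ ≤ 1 / 26) (hε : 26 * ε₁ ≤ ε₀) (hQ : 0 < Q) (hR1 : (1 - ε₁) * V1 ≤ R) (hR2 : R ≤ V1)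
    (hW : φ * W = R * Q) (h1 : |a1 - V1 * Q / 2| ≤ 3 * (ε₁ * (V1 * Q)))
    (h2 : |aM - W / 2| ≤ 3 * (ε₁ * W)) : |aM - a1 / φ| ≤ ε₀ * (a1 / φ) := by
  have e1 : |φ * aM - a1| ≤ ε₀ * a1 := by
    rw [abs_le] at h1 h2
    obtain ⟨g1, g2⟩ := h1
    obtain ⟨g3, g4⟩ := h2
    have k3 := mul_le_mul_of_nonneg_left g3 hφ.le
    have k4 := mul_le_mul_of_nonneg_left g4 hφ.le
    have k5 : φ * -(3 * (ε₁ * W)) = -(3 * (ε₁ * (R * Q))) := by rw [← hW]; ring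
    have k6 : φ * (3 * (ε₁ * W)) = 3 * (ε₁ * (R * Q)) := by rw [← hW]; ring
    have k7 : φ * (aM - W / 2) = φ * aM - R * Q / 2 := by rw [← hW]; ring
    rw [k5, k7] at k3
    rw [k6, k7] at k4
    have k8 : R * Q ≤ V1 * Q := mul_le_mul_of_nonneg_right hR2 hQ.le
    have k9 : (1 - ε₁) * V1 * Q ≤ R * Q := mul_le_mul_of_nonneg_right hR1 hQ.le
    have k10 : ε₁ * (R * Q) ≤ ε₁ * (V1 * Q) := mul_le_mul_of_nonneg_left k8 hε₁.le
    have k11 : ε₁ * (V1 * Q) ≤ 1 / 26 * (V1 * Q) := mul_le_mul_of_nonneg_right hε₁' hV.le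
    have k12 : V1 * Q / 4 ≤ a1 := by linarith
    have k13 : 26 * ε₁ * a1 ≤ ε₀ * a1 := mul_le_mul_of_nonneg_right hε (by linarith)
    have k14 : ε₁ * (V1 * Q / 4) ≤ ε₁ * a1 := mul_le_mul_of_nonneg_left k12 hε₁.le
    have k15 : (1 - ε₁) * V1 * Q = V1 * Q - ε₁ * (V1 * Q) := by ring
    rw [abs_le]
    constructor <;> linarith
  have e2 : aM - a1 / φ = (φ * aM - a1) / φ := by
    field_simp
  rw [e2, abs_div, abs_of_pos hφ, mul_div_assoc']
  exact div_le_div_of_nonneg_right e1 hφ.le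

theorem lev (hb : S_bad) (hm : S_mn) (ha : S_ats) (hs : S_sqf) (hv : S_vmb) : S_lev := by
  have hper := per hb hm ha hs hv
  intro K _ _ _
  have hq2 := q_ge (k := K)
  set q : ℝ := (Fintype.card K : ℝ) with hq
  have hq1 : (1 : ℝ) ≤ q := by linarith
  have hq0 : (0 : ℝ) < q := by linarith
  obtain ⟨cv, Cv, hcv, hCv, Hv⟩ := hv K
  refine ⟨cv / 4, 2 * Cv, by positivity, by positivity, ?_⟩
  intro ε ε₀ hε hε₀
  obtain ⟨ε₁, hε₁, hε₁26, hε₁0⟩ : ∃ ε₁ : ℝ, 0 < ε₁ ∧ ε₁ ≤ 1 / 26 ∧ 26 * ε₁ ≤ ε₀ := by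
    refine ⟨min ε₀ 1 / 26, by positivity, ?_, ?_⟩
    · have := min_le_right ε₀ 1
      linarith
    · have := min_le_left ε₀ 1
      linarith
  obtain ⟨κ₀, hκ₀, Hp⟩ := hper K (min ε 1) ε₁ (lt_min hε one_pos) hε₁
  refine ⟨κ₀, hκ₀, ?_⟩
  intro κ hκ hκκ
  obtain ⟨δ, hδ, n₀, Hn⟩ := Hp κ hκ hκκ
  refine ⟨δ / 2, by positivity, n₀, ?_⟩
  intro n hn
  obtain ⟨⟨hn1, hm1, hm2, hm3, hm4⟩, Hd⟩ := Hn n hn
  obtain ⟨m, hmm⟩ : ∃ m : ℕ, m = ⌊κ * n⌋₊ := ⟨_, rfl⟩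
  rw [← hmm] at hm1 hm2 hm3 hm4 Hd ⊢
  have hn0 : (0 : ℝ) < n := by exact_mod_cast hn1
  have hm0 : (0 : ℝ) < m := by exact_mod_cast hm1
  have hκn : 0 < κ * n := by positivity
  have hV1 : 0 < VM (1 : K[X]) m := VM_pos _ _
  have hqn : 0 < q ^ n := by positivity
  -- the modulus 1
  have hone : ∀ b : Bool, |((Alp b n m (1 : K[X]) 0).ncard : ℝ) - VM (1 : K[X]) m * q ^ n / 2| ≤
      3 * (ε₁ * (VM (1 : K[X]) m * q ^ n)) := by
    intro b
    obtain ⟨Exc, hE1, hE2⟩ := Hd 0 1 (by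
      push_cast
      exact mul_nonneg (by linarith [min_le_right ε 1]) hn0.le) one_ne_zero (by
        rw [natDegree_one]; omega)
    have hE3 : (Exc.card : ℝ) < 1 := by
      refine lt_of_le_of_lt hE1 ?_
      apply Real.rpow_lt_one_of_one_lt_of_neg (by linarith)
      push_cast
      have : 0 < δ * n := by positivity
      linarith
    have hE4 : Exc.card = 0 := by
      have : Exc.card < 1 := by exact_mod_cast hE3
      omega
    have hE5 : (1 : K[X]) ∉ Exc := by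
      rw [card_eq_zero.1 hE4]
      exact notMem_empty _
    have h1 := hE2 1 monic_one natDegree_one isCoprime_one_left hE5 b
    rw [Alp_one, Nat.sub_zero] at h1
    exact h1
  have hV1m : VM (1 : K[X]) m * Pm (1 : K[X]) = VM (1 : K[X]) m := by
    obtain ⟨r1, r2⟩ := VM_ratio (K := K) m monic_one
    rw [natDegree_one, Nat.cast_zero, zero_div, sub_zero, one_mul] at r1
    exact le_antisymm r2 r1
  obtain ⟨hv1, hv2⟩ := Hv m 1 hm1 monic_one (by rw [natDegree_one]; exact Nat.zero_le _)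
  rw [hV1m] at hv1 hv2
  have hVQ : 0 < VM (1 : K[X]) m * q ^ n := mul_pos hV1 hqn
  have hεV : ε₁ * (VM (1 : K[X]) m * q ^ n) ≤ 1 / 26 * (VM (1 : K[X]) m * q ^ n) :=
    mul_le_mul_of_nonneg_right hε₁26 hVQ.le
  have hlow : ∀ b : Bool, VM (1 : K[X]) m * q ^ n / 4 ≤ ((Alp b n m (1 : K[X]) 0).ncard : ℝ) := by
    intro b
    have h1 := (abs_le.1 (hone b)).1
    linarith
  refine ⟨fun b => ⟨?_, ?_⟩, ?_, ?_⟩
  · refine le_trans ?_ (hlow b)
    have e1 : cv / (κ * n) ≤ cv / m := div_le_div_of_nonneg_left hcv.le hm0 hm3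
    have e2 : cv / (κ * n) * q ^ n ≤ VM (1 : K[X]) m * q ^ n :=
      mul_le_mul_of_nonneg_right (e1.trans hv1) hqn.le
    have e3 : cv / 4 * (q ^ n / (κ * n)) = cv / (κ * n) * q ^ n / 4 := by ring
    rw [e3]
    linarith
  · have h1 := (abs_le.1 (hone b)).2
    have h2 : ((Alp b n m (1 : K[X]) 0).ncard : ℝ) ≤ VM (1 : K[X]) m * q ^ n := by linarith
    refine h2.trans ?_
    have e1 : Cv / m ≤ Cv / (κ * n / 2) := div_le_div_of_nonneg_left hCv.le (by positivity) hm2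
    have e2 : VM (1 : K[X]) m * q ^ n ≤ Cv / (κ * n / 2) * q ^ n :=
      mul_le_mul_of_nonneg_right (hv2.trans e1) hqn.le
    have e3 : 2 * Cv * (q ^ n / (κ * n)) = Cv / (κ * n / 2) * q ^ n := by
      field_simp
    rw [e3]
    exact e2
  · have h1 := abs_le.1 (hone true)
    have h2 := abs_le.1 (hone false)
    have h3 : ε₁ * (VM (1 : K[X]) m * q ^ n / 4) ≤
        ε₁ * ((Alp true n m (1 : K[X]) 0).ncard : ℝ) :=
      mul_le_mul_of_nonneg_left (hlow true) hε₁.le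
    have h4 : 26 * ε₁ * ((Alp true n m (1 : K[X]) 0).ncard : ℝ) ≤
        ε₀ * ((Alp true n m (1 : K[X]) 0).ncard : ℝ) :=
      mul_le_mul_of_nonneg_right hε₁0 (Nat.cast_nonneg _)
    have h5 : 0 ≤ ε₁ * ((Alp true n m (1 : K[X]) 0).ncard : ℝ) := by positivity
    rw [abs_le]
    constructor <;> linarith
  · intro d H hd hH hHh
    have hd' : (d : ℝ) ≤ (1 - min ε 1) * n :=
      hd.trans (mul_le_mul_of_nonneg_right (by linarith [min_le_left ε 1]) hn0.le)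
    have hdn : d ≤ n := by
      have : (d : ℝ) ≤ n := by
        have h1 : 0 < min ε 1 := lt_min hε one_pos
        nlinarith
      exact_mod_cast this
    have Hh : ∀ h : K[X], ∃ Exc : Finset K[X], (Exc.card : ℝ) ≤ q ^ ((d : ℝ) - δ * n) ∧
        (h ∈ H → ∀ M : K[X], M.Monic → M.natDegree = d → IsCoprime M h → M ∉ Exc → ∀ b : Bool,
          |((Alp b n m M h).ncard : ℝ) - VM M m * q ^ (n - d) / 2| ≤
              3 * (ε₁ * (VM M m * q ^ (n - d)))) := by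
      intro h
      by_cases hh : h ∈ H
      · obtain ⟨Exc, hE1, hE2⟩ := Hd d h hd' (hHh h hh).1 (hHh h hh).2
        exact ⟨Exc, hE1, fun _ => hE2⟩
      · refine ⟨∅, ?_, fun h1 => absurd h1 hh⟩
        rw [card_empty, Nat.cast_zero]
        exact Real.rpow_nonneg hq0.le _
    choose Ex hEx1 hEx2 using Hh
    refine ⟨H.biUnion Ex, ?_, ?_⟩
    · have e1 : ((H.biUnion Ex).card : ℝ) ≤ ∑ h ∈ H, ((Ex h).card : ℝ) := by
        exact_mod_cast card_biUnion_le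
      refine e1.trans ?_
      refine (sum_le_sum fun h _ => hEx1 h).trans ?_
      rw [sum_const, nsmul_eq_mul]
      refine (mul_le_mul_of_nonneg_right hH (Real.rpow_nonneg hq0.le _)).trans (le_of_eq ?_)
      rw [← Real.rpow_add hq0]
      congr 1
      ring
    · intro M hM hMd hMe h hh hcop b
      have hne : M ∉ Ex h := fun h1 => hMe (mem_biUnion.2 ⟨h, hh, h1⟩)
      have h2 := hEx2 h hh M hM hMd hcop hne b
      have hM0 : M ≠ 0 := hM.ne_zero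
      obtain ⟨hP0, hP1⟩ := Pm_bd hM0
      obtain ⟨r1, r2⟩ := VM_ratio (K := K) m hM
      have hφ : phi M = q ^ d * Pm M := by rw [phi_eq, hMd]
      have hφ0 : 0 < phi M := by
        rw [hφ]
        positivity
      have hdm : (M.natDegree : ℝ) / 2 ^ m ≤ ε₁ := by
        rw [div_le_iff₀ (by positivity), hMd]
        exact le_trans (by exact_mod_cast hdn) hm4
      refine fin_comp hφ0 hVQ hε₁ hε₁26 hε₁0 hqn (R := VM M m * Pm M)
        (le_trans (mul_le_mul_of_nonneg_right (by linarith) hV1.le) r1) r2 ?_ (hone b) h2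
      rw [hφ]
      have e1 : q ^ n = q ^ d * q ^ (n - d) := by
        rw [← pow_add]
        congr 1
        omega
      rw [e1]
      ring

end Pool.Agent.H604.OD
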