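import Pool.Agent.H604.OD.AsmF

/-!
# Project OD: all degrees simultaneously (helper604)
-/

set_option autoImplicit false

namespace Pool.Agent.H604.OD

open Polynomial Finset
open scoped Classical
open Pool.Agent.H694.Typ (Mn Irn PU mem_Mn mem_PU q_ge card_dvd_e)

/-- **The theorem**, with all degrees `N ≥ n` simultaneously. -/
def S_levN : Prop :=
  ∀ (K : Type) [Field K] [Fintype K] [CharP K 2], ∃ c C : ℝ, 0 < c ∧ 0 < C ∧
    ∀ (ε ε₀ : ℝ), 0 < ε → 0 < ε₀ → ∃ κ₀ : ℝ, 0 < κ₀ ∧ ∀ κ : ℝ, 0 < κ → κ ≤ κ₀ →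
    ∃ δ : ℝ, 0 < δ ∧ ∃ n₀ : ℕ, ∀ n : ℕ, n₀ ≤ n →
      (∀ b : Bool, c * ((Fintype.card K : ℝ) ^ n / (κ * n)) ≤
          ((Alp b n ⌊κ * n⌋₊ (1 : K[X]) 0).ncard : ℝ) ∧
        ((Alp b n ⌊κ * n⌋₊ (1 : K[X]) 0).ncard : ℝ) ≤
          C * ((Fintype.card K : ℝ) ^ n / (κ * n))) ∧
      |((Alp true n ⌊κ * n⌋₊ (1 : K[X]) 0).ncard : ℝ) -
          ((Alp false n ⌊κ * n⌋₊ (1 : K[X]) 0).ncard : ℝ)| ≤
        ε₀ * ((Alp true n ⌊κ * n⌋₊ (1 : K[X]) 0).ncard : ℝ) ∧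
      ∀ (d : ℕ) (H : Finset K[X]), (d : ℝ) ≤ (1 - ε) * n →
        (H.card : ℝ) ≤ (Fintype.card K : ℝ) ^ (δ * n) → (∀ h ∈ H, h ≠ 0 ∧ h.natDegree < n) →
        ∃ Exc : Finset K[X], (Exc.card : ℝ) ≤ (Fintype.card K : ℝ) ^ ((d : ℝ) - δ * n) ∧
          ∀ M : K[X], M.Monic → M.natDegree = d → M ∉ Exc → ∀ h ∈ H, IsCoprime M h →
            ∀ N : ℕ, n ≤ N → ∀ b : Bool,
              |((Alp b N ⌊κ * N⌋₊ M h).ncard : ℝ) -
                  ((Alp b N ⌊κ * N⌋₊ (1 : K[X]) 0).ncard : ℝ) / phi M| ≤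
                ε₀ * (((Alp b N ⌊κ * N⌋₊ (1 : K[X]) 0).ncard : ℝ) / phi M)

theorem levN (hl : S_lev) : S_levN := by
  intro K _ _ _
  have hq2 := q_ge (k := K)
  set q : ℝ := (Fintype.card K : ℝ) with hq
  have hq1 : (1 : ℝ) ≤ q := by linarith
  have hq0 : (0 : ℝ) < q := by linarith
  obtain ⟨c, C, hc, hC, Hl⟩ := hl K
  refine ⟨c, C, hc, hC, ?_⟩
  intro ε ε₀ hε hε₀
  obtain ⟨κ₀, hκ₀, Hκ⟩ := Hl ε ε₀ hε hε₀
  refine ⟨κ₀, hκ₀, ?_⟩
  intro κ hκ hκκ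
  obtain ⟨δ, hδ, n₀, Hn⟩ := Hκ κ hκ hκκ
  obtain ⟨n1, hn1, H1⟩ := exp_beats (1 / δ + 1) (δ / 2) (by positivity)
  refine ⟨δ / 2, by positivity, n₀ + n1, ?_⟩
  intro n hn
  obtain ⟨a1, a2, -⟩ := Hn n (by omega)
  refine ⟨a1, a2, ?_⟩
  intro d H hd hH hHh
  have hnpos : 1 ≤ n := by omega
  have hn0 : (0 : ℝ) < n := by exact_mod_cast hnpos
  have hd0 : (0 : ℝ) ≤ d := Nat.cast_nonneg d
  have hε1 : 0 ≤ 1 - ε := by
    by_contra hlt
    have : (1 - ε) * n < 0 := mul_neg_of_neg_of_pos (not_le.1 hlt) hn0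
    linarith
  have hdn : (d : ℝ) ≤ n := by nlinarith
  have HN : ∀ N : ℕ, ∃ Exc : Finset K[X], (n ≤ N → (Exc.card : ℝ) ≤ q ^ ((d : ℝ) - δ * N) ∧
      ∀ M : K[X], M.Monic → M.natDegree = d → M ∉ Exc → ∀ h ∈ H, IsCoprime M h → ∀ b : Bool,
        |((Alp b N ⌊κ * N⌋₊ M h).ncard : ℝ) -
            ((Alp b N ⌊κ * N⌋₊ (1 : K[X]) 0).ncard : ℝ) / phi M| ≤
          ε₀ * (((Alp b N ⌊κ * N⌋₊ (1 : K[X]) 0).ncard : ℝ) / phi M)) := by
    intro N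
    by_cases hN : n ≤ N
    · have hN' : (n : ℝ) ≤ N := by exact_mod_cast hN
      obtain ⟨-, -, a3⟩ := Hn N (by omega)
      obtain ⟨Exc, e1, e2⟩ := a3 d H (hd.trans (mul_le_mul_of_nonneg_left hN' hε1))
        (hH.trans (Real.rpow_le_rpow_of_exponent_le hq1 (by nlinarith)))
        (fun h hh => ⟨(hHh h hh).1, lt_of_lt_of_le (hHh h hh).2 hN⟩)
      exact ⟨Exc, fun _ => ⟨e1, e2⟩⟩
    · exact ⟨∅, fun h1 => absurd h1 hN⟩
  choose Ex hEx using HN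
  obtain ⟨N1, hN1⟩ : ∃ N1 : ℕ, N1 = ⌊(d : ℝ) / δ⌋₊ + 1 := ⟨_, rfl⟩
  refine ⟨(Finset.Ico n N1).biUnion Ex, ?_, ?_⟩
  · have e1 : (((Finset.Ico n N1).biUnion Ex).card : ℝ) ≤
        ∑ N ∈ Finset.Ico n N1, ((Ex N).card : ℝ) := by
      exact_mod_cast card_biUnion_le
    have e2 : ∑ N ∈ Finset.Ico n N1, ((Ex N).card : ℝ) ≤
        ∑ N ∈ Finset.Ico n N1, q ^ ((d : ℝ) - δ * n) := by
      refine sum_le_sum fun N hN => ?_
      rw [Finset.mem_Ico] at hN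
      have hN' : (n : ℝ) ≤ N := by exact_mod_cast hN.1
      refine (hEx N hN.1).1.trans (Real.rpow_le_rpow_of_exponent_le hq1 ?_)
      have := mul_le_mul_of_nonneg_left hN' hδ.le
      linarith
    have e3 : ((Finset.Ico n N1).card : ℝ) ≤ (1 / δ + 1) * ((n : ℝ) + 1) := by
      have k1 : (Finset.Ico n N1).card ≤ N1 := by
        rw [Nat.card_Ico]
        omega
      have k2 : ((Finset.Ico n N1).card : ℝ) ≤ N1 := by exact_mod_cast k1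
      refine k2.trans ?_
      rw [hN1]
      push_cast
      have k3 : ((⌊(d : ℝ) / δ⌋₊ : ℕ) : ℝ) ≤ d / δ := Nat.floor_le (by positivity)
      have k4 : (d : ℝ) / δ ≤ n / δ := div_le_div_of_nonneg_right hdn hδ.le
      have k5 : (1 / δ + 1) * ((n : ℝ) + 1) = n / δ + 1 / δ + n + 1 := by ring
      have k6 : 0 < 1 / δ := by positivity
      rw [k5]
      linarith
    have e4 : (1 / δ + 1) * ((n : ℝ) + 1) ≤ q ^ (δ / 2 * n) :=
      (H1 n (by omega)).trans (Real.rpow_le_rpow (by norm_num) hq2 (by positivity))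
    refine e1.trans (e2.trans ?_)
    rw [sum_const, nsmul_eq_mul]
    refine (mul_le_mul_of_nonneg_right (e3.trans e4) (Real.rpow_nonneg hq0.le _)).trans
      (le_of_eq ?_)
    rw [← Real.rpow_add hq0]
    congr 1
    ring
  · intro M hM hMd hMe h hh hcop N hN b
    refine (hEx N hN).2 M hM hMd ?_ h hh hcop b
    intro hmem
    by_cases hNN : N < N1
    · exact hMe (mem_biUnion.2 ⟨N, Finset.mem_Ico.2 ⟨hN, hNN⟩, hmem⟩)
    · have k1 : (d : ℝ) / δ < N := by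
        have k2 := Nat.lt_floor_add_one ((d : ℝ) / δ)
        have k3 : (N1 : ℝ) ≤ N := by exact_mod_cast not_lt.1 hNN
        rw [hN1] at k3
        push_cast at k3
        linarith
      rw [div_lt_iff₀ hδ] at k1
      have k4 : ((Ex N).card : ℝ) < 1 := by
        refine lt_of_le_of_lt (hEx N hN).1 ?_
        exact Real.rpow_lt_one_of_one_lt_of_neg (by linarith) (by linarith)
      have k5 : (Ex N).card = 0 := by
        have : (Ex N).card < 1 := by exact_mod_cast k4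
        omega
      rw [card_eq_zero.1 k5] at hmem
      exact absurd hmem (notMem_empty _)

end Pool.Agent.H604.OD
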