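import Pool.Agent.H604.OD.Stm

/-!
# OD: Euler's function of `K[X]` as a count
-/

set_option autoImplicit false
set_option linter.unusedSectionVars false

namespace Pool.Agent.H604.OD

open Polynomial Finset
open scoped Classical

namespace Phi

variable {K : Type} [Field K] [Fintype K]

theorem set_eq (n : ℕ) : {r : K[X] | r.degree < (n : WithBot ℕ)} = (degreeLT K n : Set K[X]) := by
  ext r
  rw [SetLike.mem_coe, mem_degreeLT]
  rfl

theorem fin_lt (n : ℕ) : {r : K[X] | r.degree < (n : WithBot ℕ)}.Finite := by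
  rw [set_eq]
  have : Finite (degreeLT K n) := Finite.of_equiv _ (degreeLTEquiv K n).symm.toEquiv
  exact Set.toFinite _

theorem card_lt (n : ℕ) :
    {r : K[X] | r.degree < (n : WithBot ℕ)}.ncard = Fintype.card K ^ n := by
  rw [set_eq, ← Nat.card_coe_set_eq]
  have h1 : Nat.card (degreeLT K n) = Nat.card (Fin n → K) :=
    Nat.card_congr (degreeLTEquiv K n).toEquiv
  rw [Nat.card_eq_fintype_card (α := Fin n → K), Fintype.card_fun, Fintype.card_fin] at h1
  exact h1

theorem deg_iff {D : K[X]} (hD : D.Monic) (t : K[X]) {N : ℕ} (hN : D.natDegree ≤ N) :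
    (D * t).degree < (N : WithBot ℕ) ↔ t.degree < ((N - D.natDegree : ℕ) : WithBot ℕ) := by
  by_cases ht : t = 0
  · subst ht
    rw [mul_zero, degree_zero]
    exact ⟨fun _ => WithBot.bot_lt_coe _, fun _ => WithBot.bot_lt_coe _⟩
  · have h1 : D * t ≠ 0 := mul_ne_zero hD.ne_zero ht
    rw [degree_eq_natDegree h1, degree_eq_natDegree ht, Nat.cast_lt, Nat.cast_lt,
      natDegree_mul hD.ne_zero ht]
    omega

theorem card_dvd {D : K[X]} (hD : D.Monic) {N : ℕ} (hN : D.natDegree ≤ N) :
    {r : K[X] | r.degree < (N : WithBot ℕ) ∧ D ∣ r}.ncard =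
      Fintype.card K ^ (N - D.natDegree) := by
  rw [← card_lt (K := K) (N - D.natDegree)]
  have h1 : {r : K[X] | r.degree < (N : WithBot ℕ) ∧ D ∣ r} =
      (fun t => D * t) '' {t : K[X] | t.degree < ((N - D.natDegree : ℕ) : WithBot ℕ)} := by
    ext r
    constructor
    · rintro ⟨h2, t, rfl⟩
      exact ⟨t, (deg_iff hD t hN).1 h2, rfl⟩
    · rintro ⟨t, ht, rfl⟩
      exact ⟨(deg_iff hD t hN).2 ht, t, rfl⟩
  rw [h1]
  exact Set.ncard_image_of_injective _ (fun a b hab => mul_left_cancel₀ hD.ne_zero hab)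

theorem coprime_of_ne {P Q : K[X]} (hP : P.Monic ∧ Irreducible P) (hQ : Q.Monic ∧ Irreducible Q)
    (h : P ≠ Q) : IsCoprime P Q := by
  rw [hP.2.coprime_iff_not_dvd]
  intro hd
  exact h (eq_of_monic_of_associated hP.1 hQ.1 (hP.2.associated_of_dvd hQ.2 hd))

/-- the polynomials of degree less than `N`, divisible by `D` and by no element of `s` -/
def Cn (N : ℕ) (D : K[X]) (s : Finset K[X]) : Set K[X] :=
  {r : K[X] | r.degree < (N : WithBot ℕ) ∧ D ∣ r ∧ ∀ P ∈ s, ¬ P ∣ r}

theorem Cn_fin (N : ℕ) (D : K[X]) (s : Finset K[X]) : (Cn N D s).Finite :=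
  (fin_lt N).subset fun _ hr => hr.1

theorem count (s : Finset K[X]) : (∀ P ∈ s, P.Monic ∧ Irreducible P) →
    ∀ (D : K[X]) (N : ℕ), D.Monic → (∀ P ∈ s, IsCoprime D P) →
      D.natDegree + ∑ P ∈ s, P.natDegree ≤ N →
      ((Cn N D s).ncard : ℝ) = (Fintype.card K : ℝ) ^ (N - D.natDegree) *
        ∏ P ∈ s, (1 - 1 / (Fintype.card K : ℝ) ^ P.natDegree) := by
  induction s using Finset.induction_on with
  | empty =>
    intro _ D N hD _ hN
    rw [Finset.sum_empty, add_zero] at hN
    have h1 : Cn N D ∅ = {r : K[X] | r.degree < (N : WithBot ℕ) ∧ D ∣ r} := by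
      ext r
      unfold Cn
      simp
    rw [h1, card_dvd hD hN, Finset.prod_empty, mul_one, Nat.cast_pow]
  | insert P s hPs ih =>
    intro hs D N hD hc hN
    rw [Finset.sum_insert hPs] at hN
    have hP := hs P (Finset.mem_insert_self P s)
    have hs' : ∀ Q ∈ s, Q.Monic ∧ Irreducible Q := fun Q hQ => hs Q (Finset.mem_insert_of_mem hQ)
    have hdeg : (D * P).natDegree = D.natDegree + P.natDegree :=
      natDegree_mul hD.ne_zero hP.1.ne_zero
    have ih1 := ih hs' D N hD (fun Q hQ => hc Q (Finset.mem_insert_of_mem hQ)) (by omega)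
    have ih2 := ih hs' (D * P) N (hD.mul hP.1) (fun Q hQ => IsCoprime.mul_left
      (hc Q (Finset.mem_insert_of_mem hQ))
      (coprime_of_ne hP (hs' Q hQ) (fun h => hPs (h ▸ hQ)))) (by omega)
    have hset : Cn N D (insert P s) = Cn N D s \ Cn N (D * P) s := by
      ext r
      constructor
      · rintro ⟨h1, h2, h3⟩
        refine ⟨⟨h1, h2, fun Q hQ => h3 Q (Finset.mem_insert_of_mem hQ)⟩, fun h4 => ?_⟩
        exact h3 P (Finset.mem_insert_self P s) ((dvd_mul_left P D).trans h4.2.1)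
      · rintro ⟨⟨h1, h2, h3⟩, h4⟩
        refine ⟨h1, h2, fun Q hQ hQr => ?_⟩
        rcases Finset.mem_insert.1 hQ with rfl | hQ'
        · exact h4 ⟨h1, (hc Q hQ).mul_dvd h2 hQr, h3⟩
        · exact h3 Q hQ' hQr
    have hsub : Cn N (D * P) s ⊆ Cn N D s := fun r hr =>
      ⟨hr.1, (dvd_mul_right D P).trans hr.2.1, hr.2.2⟩
    have hle := Set.ncard_le_ncard hsub (Cn_fin N D s)
    have hq : (Fintype.card K : ℝ) ≠ 0 := Nat.cast_ne_zero.2 Fintype.card_ne_zero
    rw [hset, Set.ncard_sdiff hsub (Cn_fin N (D * P) s), Nat.cast_sub hle, ih1, ih2,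
      Finset.prod_insert hPs, hdeg, show N - D.natDegree =
        (N - (D.natDegree + P.natDegree)) + P.natDegree by omega, pow_add]
    field_simp

theorem mem_nf {M : K[X]} (hM : M.Monic) (P : K[X]) :
    P ∈ (UniqueFactorizationMonoid.normalizedFactors M).toFinset ↔
      P.Monic ∧ Irreducible P ∧ P ∣ M := by
  rw [Multiset.mem_toFinset, UniqueFactorizationMonoid.mem_normalizedFactors_iff' hM.ne_zero]
  constructor
  · rintro ⟨h1, h2, h3⟩
    refine ⟨?_, h1, h3⟩
    rw [← h2]
    exact monic_normalize h1.ne_zero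
  · rintro ⟨h1, h2, h3⟩
    exact ⟨h2, h1.normalize_eq_self, h3⟩

end Phi

open Phi in
/-- Euler's function of `K[X]` as a count -/
theorem phi_count {K : Type} [Field K] [Fintype K] {M : K[X]} (hM : M.Monic) :
    phi M = (({r : K[X] | r.degree < M.degree ∧ IsCoprime r M}.ncard : ℕ) : ℝ) := by
  set s := (UniqueFactorizationMonoid.normalizedFactors M).toFinset with hs
  have hmem : ∀ P : K[X], P ∈ s ↔ P.Monic ∧ Irreducible P ∧ P ∣ M := mem_nf hM
  have hprod : ∏ P ∈ s, P ∣ M := by
    apply Finset.prod_dvd_of_coprime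
    · intro P hP Q hQ hne
      have h1 := (hmem P).1 hP
      have h2 := (hmem Q).1 hQ
      exact coprime_of_ne ⟨h1.1, h1.2.1⟩ ⟨h2.1, h2.2.1⟩ hne
    · exact fun P hP => ((hmem P).1 hP).2.2
  have hsum : ∑ P ∈ s, P.natDegree ≤ M.natDegree := by
    rw [← natDegree_prod_of_monic s (fun P => P) (fun P hP => ((hmem P).1 hP).1)]
    exact natDegree_le_of_dvd hprod hM.ne_zero
  have hcount := count s (fun P hP => ⟨((hmem P).1 hP).1, ((hmem P).1 hP).2.1⟩) 1 M.natDegree
    monic_one (fun P _ => isCoprime_one_left) (by rw [natDegree_one, zero_add]; exact hsum)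
  have hset : {r : K[X] | r.degree < M.degree ∧ IsCoprime r M} = Cn M.natDegree 1 s := by
    ext r
    unfold Cn
    rw [degree_eq_natDegree hM.ne_zero]
    constructor
    · rintro ⟨h1, h2⟩
      refine ⟨h1, one_dvd r, fun P hP hPr => ?_⟩
      have h3 := (hmem P).1 hP
      exact h3.2.1.not_isUnit (h2.isUnit_of_dvd' hPr h3.2.2)
    · rintro ⟨h1, -, h3⟩
      refine ⟨h1, isCoprime_of_irreducible_dvd (fun h => hM.ne_zero h.2) fun z hz hzr hzM => ?_⟩
      refine h3 (normalize z) ((hmem _).2 ⟨monic_normalize hz.ne_zero, ?_, ?_⟩) ?_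
      · exact (normalize_associated z).symm.irreducible hz
      · exact (normalize_associated z).dvd.trans hzM
      · exact (normalize_associated z).dvd.trans hzr
  rw [hset, hcount, natDegree_one, Nat.sub_zero]
  unfold phi
  congr 1
  have hS : {P : K[X] | P.Monic ∧ Irreducible P ∧ P ∣ M} = (s : Set K[X]) := by
    ext P
    exact ((hmem P).symm.trans Finset.mem_coe.symm)
  rw [hS, finprod_mem_coe_finset]

end Pool.Agent.H604.OD
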