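import Mathlib
import Pool.Agent.H527.ME.Stm
import Pool.Agent.H985.Par.StmPar
import Pool.Agent.H524.MT.StmV

/-!
# Almost primes with prescribed parity have level of distribution one over `F_q[X]`, `q` even
(helper604): statements of the parts

`F = M k + h`, `M` monic of degree `d`, `k` monic of degree `n - d`.  The `k` with a prime divisor of
degree in `[z, w]` (`om z w k ≠ 0`) are treated with helper251's type II estimate `S_tii`, in residue
classes modulo `D`; the others are few, also after sifting (`S_ats`).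
Throughout `q` is the number of the elements of the finite field `K`.
-/

set_option autoImplicit false

namespace Pool.Agent.H604.OD

open Polynomial Finset
open scoped Classical
open Pool.Agent.H985.Chow (mob)
open Pool.Agent.H985.KP (PA)
open Pool.Agent.H694.Typ (Mn Irn PU)
open Pool.Agent.H251.SP (S_tii)
open Pool.Agent.H527.ME (om S_pw S_big S_div)
open Pool.Agent.H985.Par (S_sw)
open Pool.Agent.H524.MT (Pm S_mert)

/-- The product of the `1 - 1 / |P|` over the primes `P` of degree at most `m` with `P ∤ M`. -/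
noncomputable def VM {K : Type} [Field K] [Fintype K] (M : K[X]) (m : ℕ) : ℝ :=
  ∏ P ∈ (PU K m).filter (fun P => ¬ P ∣ M), (1 - 1 / (Fintype.card K : ℝ) ^ P.natDegree)

/-- The monic `k` of degree `l` such that `M k + h` has no prime factor of degree at most `m`. -/
noncomputable def Sf {K : Type} [Field K] [Fintype K] (l m : ℕ) (M h : K[X]) : Finset K[X] :=
  (Mn K l).filter (fun k => ∀ P ∈ PU K m, ¬ P ∣ M * k + h)

/-- **Task CLS.**  The typical sums, with `k` in a residue class modulo `D`. -/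
def S_cls : Prop :=
  ∀ (K : Type) [Field K] [Fintype K] [CharP K 2] (ε : ℝ), 0 < ε →
    ∃ (C : ℕ) (c : ℝ), 0 < c ∧ ∃ n₀ : ℕ, ∀ n : ℕ, n₀ ≤ n →
    ∀ (d z w : ℕ) (h D r : K[X]) (u : K[X] → ℝ), 1 ≤ z → d + w ≤ n →
      (w : ℝ) ≤ (1 / 4 - ε) * n → h ≠ 0 → h.natDegree < n → D.Monic → D.natDegree < z →
      (∀ M, |u M| ≤ 1) →
      |∑ M ∈ Mn K d, u M *
        ∑ k ∈ (Mn K (n - d)).filter (fun k => om z w k ≠ 0 ∧ D ∣ k - r), (mob (M * k + h) : ℝ)| ≤
        (n : ℝ) ^ C * (Fintype.card K : ℝ) ^ (n + 2 * D.natDegree) *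
          ((Fintype.card K : ℝ) ^ (-c * z) + (Fintype.card K : ℝ) ^ (-c * n))

/-- **Task TCLS.** -/
def S_tcls : Prop := S_tii → S_pw → S_big → S_cls

/-- **Task MN.**  The sieve for `M k + h` and its twisted form. -/
def S_mn : Prop :=
  ∀ (K : Type) [Field K] [Fintype K] (ε : ℝ), 0 < ε → ∃ A : ℕ, 1 ≤ A ∧
    ∀ (n d m : ℕ) (M h : K[X]), M ∈ Mn K d → IsCoprime M h → 1 ≤ m → A * m + d ≤ n →
      (1 - ε) * VM M m * (Fintype.card K : ℝ) ^ (n - d) ≤ ((Sf (n - d) m M h).card : ℝ) ∧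
      ((Sf (n - d) m M h).card : ℝ) ≤ (1 + ε) * VM M m * (Fintype.card K : ℝ) ^ (n - d) ∧
      ∀ (F : K[X] → ℝ) (B : ℝ), (∀ k, |F k| ≤ 1) → 0 ≤ B →
        (∀ D r : K[X], D.Monic → D.natDegree ≤ A * m → r.degree < D.degree →
          |∑ k ∈ (Mn K (n - d)).filter (fun k => D ∣ k - r), F k| ≤ B) →
        |∑ k ∈ Sf (n - d) m M h, F k| ≤ ε * VM M m * (Fintype.card K : ℝ) ^ (n - d) +
          (Fintype.card K : ℝ) ^ (3 * A * m) * B

/-- **Task TMN.** -/
def S_tmn : Prop := S_sw → S_mn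

/-- **Task ATS.**  Few `k` without prime divisor of degree in `[z, w]`, also after sifting. -/
def S_ats : Prop :=
  ∀ (K : Type) [Field K] [Fintype K], ∃ (C : ℝ) (A : ℕ), 0 < C ∧ 1 ≤ A ∧
    ∀ (n d m z w : ℕ) (M h : K[X]), M ∈ Mn K d → IsCoprime M h → 1 ≤ m → m < z → z ≤ w →
      A * w + d ≤ n → n ≤ 2 ^ z →
      (((Sf (n - d) m M h).filter (fun k => om z w k = 0)).card : ℝ) ≤
        C * ((z : ℝ) / w) * VM M m * (Fintype.card K : ℝ) ^ (n - d)

/-- **Task TATS.** -/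
def S_tats : Prop := S_sw → S_mert → S_ats

/-- **Task SQF.**  Few `M k + h` are divisible by the square of a prime of degree larger than `y`. -/
def S_sqf : Prop :=
  ∀ (K : Type) [Field K] [Fintype K] (n d y : ℕ) (h : K[X]), d ≤ n → h.natDegree < n →
    ∑ M ∈ Mn K d, (((Mn K (n - d)).filter (fun k => ∃ P : K[X], P.Monic ∧ Irreducible P ∧
      y < P.natDegree ∧ P ^ 2 ∣ M * k + h)).card : ℝ) ≤
      ((n : ℝ) + 1) * (Fintype.card K : ℝ) ^ ((n : ℝ) - (y : ℝ) / 2)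

/-- **Task TSQF.** -/
def S_tsqf : Prop := S_div → S_sqf

/-- **Task VMB.**  Mertens' theorem for the polynomials coprime to `M`. -/
def S_vmb : Prop :=
  ∀ (K : Type) [Field K] [Fintype K], ∃ c C : ℝ, 0 < c ∧ 0 < C ∧
    ∀ (m : ℕ) (M : K[X]), 1 ≤ m → M.Monic → M.natDegree ≤ 2 ^ m →
      c / m ≤ VM M m * Pm M ∧ VM M m * Pm M ≤ C / m

/-- **Task TVMB.** -/
def S_tvmb : Prop := S_mert → S_vmb

/-- Euler's function of `K[X]`. -/
noncomputable def phi {K : Type} [Field K] [Fintype K] (M : K[X]) : ℝ :=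
  (Fintype.card K : ℝ) ^ M.natDegree *
    ∏ᶠ P ∈ {P : K[X] | P.Monic ∧ Irreducible P ∧ P ∣ M}, (1 - 1 / (Fintype.card K : ℝ) ^ P.natDegree)

/-- The monic squarefree `F ≡ h (mod M)` of degree `n`, all of whose prime factors have degree larger
than `y`, with an odd (`b = true`) or even (`b = false`) number of prime factors. -/
noncomputable def Alp {K : Type} [Field K] (b : Bool) (n y : ℕ) (M h : K[X]) : Set K[X] :=
  {F : K[X] | F.Monic ∧ F.natDegree = n ∧ M ∣ F - h ∧ Squarefree F ∧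
    (∀ P : K[X], Irreducible P → P ∣ F → y < P.natDegree) ∧
    (Odd (Multiset.card (UniqueFactorizationMonoid.factors F)) ↔ b = true)}

/-- **The theorem.** -/
def S_odd : Prop :=
  ∀ (K : Type) [Field K] [Fintype K] [CharP K 2] (ε ε₀ : ℝ), 0 < ε → 0 < ε₀ →
    ∃ κ c C δ : ℝ, 0 < κ ∧ 0 < c ∧ 0 < C ∧ 0 < δ ∧ ∃ n₀ : ℕ, ∀ n : ℕ, n₀ ≤ n →
    ∀ (d : ℕ) (h : K[X]), (d : ℝ) ≤ (1 - ε) * n → h ≠ 0 → h.natDegree < n →
      ∃ Exc : Set K[X], (Exc.ncard : ℝ) ≤ (Fintype.card K : ℝ) ^ ((d : ℝ) - δ * n) ∧ Exc.Finite ∧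
        ∀ M : K[X], M.Monic → M.natDegree = d → IsCoprime M h → M ∉ Exc →
          (∀ b : Bool, c * ((Fintype.card K : ℝ) ^ n / (n * phi M)) ≤
              ((Alp b n ⌊κ * n⌋₊ M h).ncard : ℝ) ∧
            ((Alp b n ⌊κ * n⌋₊ M h).ncard : ℝ) ≤ C * ((Fintype.card K : ℝ) ^ n / (n * phi M))) ∧
          |((Alp true n ⌊κ * n⌋₊ M h).ncard : ℝ) - ((Alp false n ⌊κ * n⌋₊ M h).ncard : ℝ)| ≤
            ε₀ * ((Alp true n ⌊κ * n⌋₊ M h).ncard : ℝ)

/-- **Task BAD.**  All classes modulo all `D` of small degree simultaneously, for most `M`. -/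
def S_bad : Prop :=
  ∀ (K : Type) [Field K] [Fintype K] [CharP K 2] (ε c₀ : ℝ), 0 < ε → 0 < c₀ →
    ∃ δ : ℝ, 0 < δ ∧ ∃ n₀ : ℕ, ∀ n : ℕ, n₀ ≤ n →
    ∀ (d z w : ℕ) (h : K[X]), c₀ * n ≤ z → d + w ≤ n → (w : ℝ) ≤ (1 / 4 - ε) * n → h ≠ 0 →
      h.natDegree < n →
      (((Mn K d).filter (fun M => ∃ D r : K[X], D.Monic ∧ (D.natDegree : ℝ) ≤ δ * n ∧
        r.degree < D.degree ∧ (Fintype.card K : ℝ) ^ ((n : ℝ) - d - δ * n) <
          |∑ k ∈ (Mn K (n - d)).filter (fun k => om z w k ≠ 0 ∧ D ∣ k - r),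
            (mob (M * k + h) : ℝ)|)).card : ℝ) ≤ (Fintype.card K : ℝ) ^ ((d : ℝ) - δ * n)

/-- **Task TBAD.** -/
def S_tbad : Prop := S_cls → S_bad

/-- **Task ASM.** -/
def S_asm : Prop := S_bad → S_mn → S_ats → S_sqf → S_vmb → S_odd

end Pool.Agent.H604.OD
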